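import Pool.Agent.H45.LLG.Main
import Pool.Graph.R_seed8.H852R2.TE.S.FIXCNT2

/-!
Definitions for the project CG (helper45), MP_75608d_al: `C (log log n)²` random elements of `A_n`
have a spectral gap bounded below by a constant.
-/

namespace CG45
open RC14 RC852 TE852 LL14 LG45 Finset Equiv
open scoped InnerProductSpace

noncomputable section

section
variable {V : Type*} [NormedAddCommGroup V] [InnerProductSpace ℂ V]

/-- every subspace of `W` on which `Φ ≤ τ ‖·‖²` has dimension at most `δ dim W` -/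
def NRK (W : Submodule ℂ V) (Φ : V → ℝ) (τ δ : ℝ) : Prop :=
  ∀ U : Submodule ℂ V, U ≤ W → (∀ u ∈ U, Φ u ≤ τ * ‖u‖ ^ 2) →
    (Module.finrank ℂ U : ℝ) ≤ δ * Module.finrank ℂ W

end

section
variable {G : Type*} [Group G] [Fintype G]
variable {V : Type*} [NormedAddCommGroup V] [InnerProductSpace ℂ V]

/-- the operator of a function on the group -/
def opf (ρ : G →* (V ≃ₗᵢ[ℂ] V)) (a : G → ℝ) : Module.End ℂ V := ∑ g, (a g : ℂ) • op ρ g

/-- convolution -/
def conv (a b : G → ℝ) (g : G) : ℝ := ∑ h, a h * b (h⁻¹ * g)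

/-- `ℓ¹` norm -/
def nrm1 (a : G → ℝ) : ℝ := ∑ g, |a g|

end

/-- a word in which the exponents of `b` alternate; `σ` is the parity of the first one -/
def altw {n J : ℕ} (σ : ℕ) (w : Fin J → Alt n) (t : Fin J) : Alt n × (Fin 1 × Bool) :=
  (w t, (0, decide ((t.1 + σ) % 2 = 0)))

/-- an element of `A_n` as a permutation -/
def cp {n : ℕ} (g : Alt n) : Equiv.Perm (Fin n) := g

/-- number of fixed points of the alternating word `∏_t b^{±1} w_t` -/
def nfw {n J : ℕ} (σ : ℕ) (w : Fin J → Alt n) (b : Fin 1 → Alt n) : ℕ :=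
  nfix (bwd cp (fun i => cp (b i)) (altw σ w))

/-- Part NBT: if all the `w_t` have at most `D` fixed points, then for very few `b` the alternating
word has at least `F` fixed points. -/
def StmtNBT : Prop := ∀ (n J D F F1 f K' σ : ℕ), 2 ≤ J → Odd f → ∀ w : Fin J → Alt n,
  (∀ t, nfix (cp (w t)) ≤ D) → 4 * (f * (3 * J + 1) + K') ≤ F1 →
  J * D + (2 * J ^ 2 + 1) * F1 ≤ F →
  Nat.card {b : Fin 1 → Alt n // F ≤ nfw σ w b} * K' ^ f ≤
    (2 * J ^ 2 + 1) * (Fintype.card (Alt n) ^ 1 * (J * n))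

/-- alternating product `B_σ B_{σ+1} ⋯ B_{σ+k-1}` (indices mod 2) -/
def altp {R : Type*} [Monoid R] (B : ℕ → R) : ℕ → ℕ → R
  | _, 0 => 1
  | σ, k + 1 => B σ * altp B (σ + 1) k

end

end CG45
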