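import Pool.Agent.H45.CG.Defs

/-!
Independent parts of the project CG (helper45), MP_75608d_al.
-/

namespace CG45
open RC14 RC852 TE852 LL14 LG45 Finset Equiv Filter
open scoped InnerProductSpace

/-- Part POLY: the Bernstein type polynomial `f = ∑_{i ≥ s} C(N,i) X^i (1 - X)^(N-i)` and its
majorant `g = ∑_{i ≥ s} C(N,i) X^i (1 + X)^(N-i)`. -/
def StmtPOLY : Prop := ∀ N s : ℕ, 1 ≤ s → s ≤ N → ∃ f g : Polynomial ℝ,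
  f.natDegree ≤ N ∧ g.natDegree ≤ N ∧ (∀ k, |f.coeff k| ≤ g.coeff k) ∧
  (∀ x : ℝ, 0 ≤ x → x ≤ 1 → 0 ≤ f.eval x ∧ f.eval x ≤ 1) ∧
  (∀ x : ℝ, x ≤ 1 → 2 * (s : ℝ) ≤ N * x → 8 ≤ N * x → 1 / 2 ≤ f.eval x) ∧
  (∀ y : ℝ, 0 ≤ y → g.eval y ≤ Real.exp (-2 * s) * Real.exp ((Real.exp 2 + 1) * y * N)) ∧
  g.eval 1 ≤ 3 ^ N

/-- Part HIGH: on the high part of the group algebra the vectors of low energy form a space of
exponentially small relative dimension, if there is a gap on the levels `≤ r`, `r ≥ n / D1`. -/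
def StmtHIGH : Prop := ∀ D1 : ℕ, 100 ≤ D1 → ∃ y c4 : ℝ, 0 < y ∧ y ≤ 1 ∧ 0 < c4 ∧
  ∀ᶠ n : ℕ in atTop, ∀ r : ℕ, n ≤ D1 * r → 2 * r + 2 ≤ n → ∀ k : ℕ, 1 ≤ k →
  ∀ x : Fin k → Alt n, ∀ t : ℝ, 0 < t → t ≤ k → Good1 n r t x →
  ∀ W : Submodule ℂ (FA n), Irr (RR n) W → W ≤ HH r n →
    NRK W (En (RR n) x) (y * t) (Real.exp (-(c4 * n)))

end CG45
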