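import Pool.Agent.H45.CG.Dstep

/-! One fresh random letter. -/

set_option autoImplicit false

namespace CG45
open RC14 RC852 TE852 LL14 LG45 Finset
open scoped InnerProductSpace

variable {V : Type*} [NormedAddCommGroup V] [InnerProductSpace ℂ V] [FiniteDimensional ℂ V]

/-- a subspace on which `A` is bounded from below is small -/
theorem finrank_le_hs (A : Module.End ℂ V) (S : Submodule ℂ V) (c : ℝ) (hc : 0 ≤ c)
    (h : ∀ u ∈ S, c * ‖u‖ ≤ ‖A u‖) : Module.finrank ℂ S * c ^ 2 ≤ hs A := by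
  have h0 : ∀ w : V, (⟪w, w⟫_ℂ).re = ‖w‖ ^ 2 := fun w => inner_self_eq_norm_sq (𝕜 := ℂ) w
  have h1 := sum_le_rtr (LinearMap.adjoint A * A) (fun v => by
    rw [Module.End.mul_apply, LinearMap.adjoint_inner_left, h0]
    positivity) S (c ^ 2) (fun u hu hu1 => by
    rw [Module.End.mul_apply, LinearMap.adjoint_inner_left, h0]
    have h2 := h u hu
    rw [hu1, mul_one] at h2
    exact pow_le_pow_left₀ hc h2 2)
  exact h1

variable {G : Type*} [Group G] [Fintype G]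

theorem hs_EgE (ρ : G →* (V ≃ₗᵢ[ℂ] V)) (E : Module.End ℂ V) (hE : SymIdem E) (g : G) :
    hs (E * op ρ g * E) = rtr (cj ρ E g⁻¹ * E) := by
  have h1 := (hs_op_mul ρ g⁻¹ (E * op ρ g * E)).1
  rw [← h1]
  have h2 : op ρ g⁻¹ * (E * op ρ g * E) = cj ρ E g⁻¹ * E := by
    unfold cj
    rw [inv_inv]
    simp only [mul_assoc]
  rw [h2]
  have hP := cj_proj ρ E hE g⁻¹
  unfold hs
  have h3 : LinearMap.adjoint (cj ρ E g⁻¹ * E) = E * cj ρ E g⁻¹ := by
    have := LinearMap.adjoint_comp (cj ρ E g⁻¹) E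
    rw [HSL.adjoint_symm E hE.1, HSL.adjoint_symm _ hP.1] at this
    exact this
  rw [h3]
  have h4 : E * cj ρ E g⁻¹ * (cj ρ E g⁻¹ * E) = E * (cj ρ E g⁻¹ * E) := by
    rw [mul_assoc, ← mul_assoc (cj ρ E g⁻¹) (cj ρ E g⁻¹), hP.2]
  rw [h4]
  unfold rtr
  rw [LinearMap.trace_mul_comm, mul_assoc, hE.2]

theorem sum_hs (ρ : G →* (V ≃ₗᵢ[ℂ] V)) (hirr : Irr ρ ⊤) (E : Module.End ℂ V) (hE : SymIdem E) :
    ∑ g, hs (E * op ρ g * E) = Fintype.card G * (rtr E) ^ 2 / Module.finrank ℂ V := by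
  have h1 : ∀ g, hs (E * op ρ g * E) = rtr (cj ρ E g⁻¹ * E) := hs_EgE ρ E hE
  simp only [h1]
  have h2 : ∑ g : G, rtr (cj ρ E g⁻¹ * E) = rtr ((∑ z : G, cj ρ E z) * E) := by
    rw [Finset.sum_mul]
    unfold rtr
    rw [map_sum, Complex.re_sum]
    exact Fintype.sum_equiv (Equiv.inv G) _ _ fun g => rfl
  rw [h2, SCHUR_avg ρ hirr E, smul_mul_assoc, one_mul]
  have h3 := (hs_proj E hE).2
  have h4 : rtr E = Module.finrank ℂ (LinearMap.range E) := by
    unfold rtr; rw [h3]; simp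
  unfold rtr at h4 ⊢
  rw [map_smul, h3, smul_eq_mul]
  have e : (Fintype.card G : ℂ) * ((Module.finrank ℂ (LinearMap.range E) : ℕ) : ℂ) /
      (Module.finrank ℂ V : ℂ) * ((Module.finrank ℂ (LinearMap.range E) : ℕ) : ℂ) =
      (((Fintype.card G : ℝ) * (Module.finrank ℂ (LinearMap.range E) : ℝ) ^ 2 /
        (Module.finrank ℂ V : ℝ) : ℝ) : ℂ) := by
    push_cast
    ring
  rw [e, Complex.ofReal_re]
  rw [Complex.natCast_re]

/-- amplification: a fresh random letter moves almost all of the range of `E` -/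
theorem AMPN (ρ : G →* (V ≃ₗᵢ[ℂ] V)) (hirr : Irr ρ ⊤) (E : Module.End ℂ V) (hE : SymIdem E)
    (ρ0 δ : ℝ) (hρ : rtr E ≤ ρ0 * Module.finrank ℂ V) (hδ : 0 < δ) :
    (Nat.card {g : G // ¬ Mv E (ρ g) δ} : ℝ) ≤ 64 * ρ0 ^ 2 / δ * Fintype.card G := by
  classical
  have hnt := TREE.nontriv ρ hirr
  have hd0 : (0 : ℝ) < Module.finrank ℂ V := by exact_mod_cast Module.finrank_pos
  set D : ℝ := (Module.finrank ℂ V : ℝ) with hD
  have hE0 : 0 ≤ rtr E := by
    have h3 := (hs_proj E hE).1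
    rw [← h3]
    exact hs_nonneg E
  have h1 : ∀ g, ¬ Mv E (ρ g) δ → δ * D / 64 ≤ hs (E * op ρ g * E) := by
    intro g hg
    unfold Mv at hg
    push Not at hg
    obtain ⟨S, hS, hlt⟩ := hg
    have h2 := finrank_le_hs (E * op ρ g * E) S (1 / 8) (by norm_num) (fun u hu => by
      have := hS u hu
      have e : (E * op ρ g * E) u = E (ρ g (E u)) := rfl
      rw [e]
      linarith)
    nlinarith
  have h2 : (Nat.card {g : G // ¬ Mv E (ρ g) δ} : ℝ) * (δ * D / 64) ≤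
      ∑ g, hs (E * op ρ g * E) := by
    rw [Nat.card_eq_fintype_card, Fintype.card_subtype, ← nsmul_eq_mul, ← Finset.sum_const]
    refine le_trans (Finset.sum_le_sum fun g hg => h1 g (Finset.mem_filter.1 hg).2) ?_
    exact Finset.sum_le_sum_of_subset_of_nonneg (Finset.subset_univ _) fun g _ _ => hs_nonneg _
  rw [sum_hs ρ hirr E hE] at h2
  have h3 : (rtr E) ^ 2 ≤ (ρ0 * D) ^ 2 := pow_le_pow_left₀ hE0 hρ 2
  have hG0 : (0 : ℝ) < Fintype.card G := by exact_mod_cast Fintype.card_pos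
  have h4 : (Fintype.card G : ℝ) * (rtr E) ^ 2 / D ≤ Fintype.card G * (ρ0 * D) ^ 2 / D := by
    gcongr
  have h5 : (Fintype.card G : ℝ) * (ρ0 * D) ^ 2 / D = Fintype.card G * ρ0 ^ 2 * D := by
    field_simp
  rw [h5] at h4
  have h6 := h2.trans h4
  have h7 : 64 * ρ0 ^ 2 / δ * (Fintype.card G : ℝ) = Fintype.card G * ρ0 ^ 2 * D / (δ * D / 64) := by
    field_simp
  rw [h7, le_div_iff₀ (by positivity)]
  exact h6

end CG45
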