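import Pool.Agent.H45.CG.Iface2

/-!
Third interface of the project CG (helper45), MP_75608d_al: the remaining independent parts.
-/

namespace CG45
open RC14 RC852 TE852 LL14 LG45 Finset Equiv Filter
open scoped InnerProductSpace

/-- Part CHAIN (pure counting): a chain of properties `P 0, …, P I` of tuples, each block of
letters `(y, h)`, `y` of length `a0` and `h` one fresh letter. -/
def StmtCHAIN : Prop := ∀ (n I a0 : ℕ)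
  (P : ℕ → ∀ k : ℕ, (Fin k → Alt n) → ℝ → ℝ → Prop) (f K : ℕ → ℝ)
  (Q : (Fin a0 → Alt n) → Prop) (c1 p0 p1 : ℝ),
  0 < c1 → c1 ≤ 1 / 2 → 0 ≤ p0 → 0 ≤ p1 →
  (∀ i ≤ I, 0 < K i ∧ K i ≤ 1) → (∀ i < I, K (i + 1) ≤ f i * K i ∧ f i ≤ 1) →
  -- monotonicity
  (∀ i ≤ I, ∀ (k l : ℕ) (x : Fin k → Alt n) (y : Fin l → Alt n) (t B : ℝ),
    P i k x t B → P i (k + l) (Fin.append x y) t B) →
  (∀ i ≤ I, ∀ (k : ℕ) (x : Fin k → Alt n) (t t' B B' : ℝ), t' ≤ t → B ≤ B' →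
    P i k x t B → P i k x t' B') →
  (∀ i ≤ I, ∀ (k : ℕ) (x : Fin k → Alt n) (t B : ℝ), t < 0 → 1 ≤ B → P i k x t B) →
  -- the base
  (Nat.card {y : Fin a0 → Alt n // ¬ Q y} : ℝ) ≤ p0 * (Fintype.card (Alt n) : ℝ) ^ a0 →
  (∀ (k : ℕ) (x : Fin k → Alt n) (y : Fin a0 → Alt n) (t B : ℝ), Q y → P 0 k x t B →
    P 0 (k + a0) (Fin.append x y) (t + c1) B) →
  -- a fresh letter
  (∀ i < I, ∀ (k : ℕ) (x : Fin k → Alt n) (t0 t1 c B : ℝ), 0 < t0 → t0 ≤ k → 0 < c → c ≤ 1 / 2 →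
    1 ≤ B → B ≤ n → t1 + 16 * c ≤ f i * t0 → P i k x t0 B → P (i + 1) k x t1 B →
    (Nat.card {h : Fin 1 → Alt n // ¬ P (i + 1) (k + 1) (Fin.append x h) (t1 + c) (B + 1)} : ℝ) ≤
      p1 * Fintype.card (Fin 1 → Alt n)) →
  ∀ M : ℕ, (M : ℝ) + 1 ≤ n →
    (Nat.card {x : Fin ((a0 + 1) * M) → Alt n // ¬ ∀ i ≤ I,
      P i ((a0 + 1) * M) x (c1 * K i * ((M : ℝ) - 16 * i - 1)) (M + 1)} : ℝ) ≤
      M * (p0 + I * p1) * (Fintype.card (Alt n) : ℝ) ^ ((a0 + 1) * M)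

/-- Part KILL: if the relative rank is less than `1 / dim` there is a gap, on the levels. -/
def StmtKILL : Prop := ∀ (n r R k : ℕ) (x : Fin k → Alt n) (t B lam : ℝ), 2 ≤ n → B ≤ n →
  3 * Real.log n ≤ lam → Good1 n r t x → RkL n r R t B lam x → Good1 n R t x

/-- Part KILLH: the same on the high part. -/
def StmtKILLH : Prop := ∀ (n r k : ℕ) (x : Fin k → Alt n) (t B lam : ℝ), 2 ≤ n → B ≤ n →
  (n + 3) * Real.log n ≤ lam → RkH n r t B lam x → ∀ v ∈ HH r n, t * ‖v‖ ^ 2 ≤ En (RR n) x v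

/-- Part FIN: the final deduction. -/
def StmtFIN : Prop :=
  (∃ C c : ℝ, 0 < C ∧ 0 < c ∧ ∀ᶠ n : ℕ in atTop, ∃ (kn r : ℕ) (t : ℝ), 1 ≤ kn ∧
    (kn : ℝ) ≤ C * (Real.log (Real.log n)) ^ 2 ∧ c * kn ≤ t ∧
    (Nat.card {x : Fin kn → Alt n // ¬ (Good1 n r t x ∧
      ∀ v ∈ HH r n, t * ‖v‖ ^ 2 ≤ En (RR n) x v)} : ℝ) ≤
      1 / Real.sqrt n * (Fintype.card (Alt n) : ℝ) ^ kn) →
  ∃ C ε0 : ℝ, 0 < C ∧ 0 < ε0 ∧ ∀ᶠ n : ℕ in atTop, ∀ k : ℕ,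
    C * (Real.log (Real.log n)) ^ 2 ≤ k →
    (Nat.card {x : Fin k → Alt n // ¬ Expanding ε0 x} : ℝ) ≤
      2 / Real.sqrt n * (Fintype.card (Alt n) : ℝ) ^ k

end CG45
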