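import Pool.Agent.H45.CG.Word
import Pool.Agent.H45.CG.Iface3

/-! The classes of the induction and their transitions. -/

set_option autoImplicit false

namespace CG45
open RC14 RC852 TE852 LL14 LG45 Finset Filter

section mono
variable {n : ℕ}

theorem Good1.app {r k l : ℕ} {t : ℝ} {x : Fin k → Alt n} (y : Fin l → Alt n)
    (h : Good1 n r t x) : Good1 n r t (Fin.append x y) := by
  intro j h1 h2 v hv
  rw [En_append]
  have := RC14.En_nonneg (repA j n) y v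
  linarith [h j h1 h2 v hv]

theorem Good1.add {r k l : ℕ} {t c : ℝ} {x : Fin k → Alt n} {y : Fin l → Alt n}
    (h : Good1 n r t x) (h' : Good1 n r c y) : Good1 n r (t + c) (Fin.append x y) := by
  intro j h1 h2 v hv
  rw [En_append, add_mul]
  exact add_le_add (h j h1 h2 v hv) (h' j h1 h2 v hv)

theorem Good1.mono {r k : ℕ} {t t' : ℝ} {x : Fin k → Alt n} (h : Good1 n r t x) (ht : t' ≤ t) :
    Good1 n r t' x := fun j h1 h2 v hv =>
  (mul_le_mul_of_nonneg_right ht (sq_nonneg _)).trans (h j h1 h2 v hv)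

theorem Good1.neg {r k : ℕ} {t : ℝ} (x : Fin k → Alt n) (ht : t < 0) : Good1 n r t x :=
  fun j _ _ v _ => (mul_nonpos_of_nonpos_of_nonneg ht.le (sq_nonneg _)).trans
    (RC14.En_nonneg (repA j n) x v)

theorem RkL.app {r R k l : ℕ} {t B lam : ℝ} {x : Fin k → Alt n} (y : Fin l → Alt n)
    (h : RkL n r R t B lam x) : RkL n r R t B lam (Fin.append x y) := by
  intro j h1 h2 W hW hWL
  refine (h j h1 h2 W hW hWL).mono (fun v _ => ?_) le_rfl le_rfl
  rw [En_append]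
  have := RC14.En_nonneg (repA j n) y v
  linarith

theorem RkL.mono {r R k : ℕ} {t t' B B' lam : ℝ} {x : Fin k → Alt n}
    (h : RkL n r R t B lam x) (ht : t' ≤ t) (hB : B ≤ B') : RkL n r R t' B' lam x :=
  fun j h1 h2 W hW hWL => (h j h1 h2 W hW hWL).mono (fun _ _ => le_rfl) ht
    (mul_le_mul_of_nonneg_right hB (Real.exp_pos _).le)

theorem RkL.neg {r R k : ℕ} {t B lam : ℝ} (x : Fin k → Alt n) (ht : t < 0) (hB : 0 ≤ B) :
    RkL n r R t B lam x :=
  fun j _ _ _ _ _ => NRK.of_neg (mul_nonneg hB (Real.exp_pos _).le) ht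
    (fun v => RC14.En_nonneg (repA j n) x v)

theorem RkH.app {r k l : ℕ} {t B lam : ℝ} {x : Fin k → Alt n} (y : Fin l → Alt n)
    (h : RkH n r t B lam x) : RkH n r t B lam (Fin.append x y) := by
  intro W hW hWL
  refine (h W hW hWL).mono (fun v _ => ?_) le_rfl le_rfl
  rw [En_append]
  have := RC14.En_nonneg (RR n) y v
  linarith

theorem RkH.mono {r k : ℕ} {t t' B B' lam : ℝ} {x : Fin k → Alt n}
    (h : RkH n r t B lam x) (ht : t' ≤ t) (hB : B ≤ B') : RkH n r t' B' lam x :=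
  fun W hW hWL => (h W hW hWL).mono (fun _ _ => le_rfl) ht
    (mul_le_mul_of_nonneg_right hB (Real.exp_pos _).le)

theorem RkH.neg {r k : ℕ} {t B lam : ℝ} (x : Fin k → Alt n) (ht : t < 0) (hB : 0 ≤ B) :
    RkH n r t B lam x :=
  fun _ _ _ => NRK.of_neg (mul_nonneg hB (Real.exp_pos _).le) ht
    (fun v => RC14.En_nonneg (RR n) x v)

end mono

/-- the second half of the class -/
def Rk2 (n ρ q l : ℕ) (r : ℕ → ℕ) (c4 : ℝ) (k : ℕ) (x : Fin k → Alt n) (t B : ℝ) : Prop :=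
  if q < ρ then RkL n (r q) (r (q + 1)) t B (lamn n * (5 / 4) ^ l) x
  else RkH n (r ρ) t B (c4 * n * (5 / 4) ^ l) x

/-- the classes -/
def Pc (n ρ m : ℕ) (r : ℕ → ℕ) (c4 : ℝ) (i k : ℕ) (x : Fin k → Alt n) (t B : ℝ) : Prop :=
  Good1 n (r ((i - 1) / m)) t x ∧
    (0 < i → Rk2 n ρ ((i - 1) / m) ((i - 1) % m) r c4 k x t B)

section
variable {n ρ m : ℕ} {r : ℕ → ℕ} {c4 : ℝ}

theorem Rk2.app {q l k k' : ℕ} {t B : ℝ} {x : Fin k → Alt n} (y : Fin k' → Alt n)
    (h : Rk2 n ρ q l r c4 k x t B) : Rk2 n ρ q l r c4 (k + k') (Fin.append x y) t B := by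
  unfold Rk2 at h ⊢
  split_ifs at h ⊢
  · exact h.app y
  · exact h.app y

theorem Rk2.mono {q l k : ℕ} {t t' B B' : ℝ} {x : Fin k → Alt n}
    (h : Rk2 n ρ q l r c4 k x t B) (ht : t' ≤ t) (hB : B ≤ B') :
    Rk2 n ρ q l r c4 k x t' B' := by
  unfold Rk2 at h ⊢
  split_ifs at h ⊢
  · exact h.mono ht hB
  · exact h.mono ht hB

theorem Rk2.neg {q l k : ℕ} {t B : ℝ} (x : Fin k → Alt n) (ht : t < 0) (hB : 0 ≤ B) :
    Rk2 n ρ q l r c4 k x t B := by
  unfold Rk2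
  split_ifs
  · exact RkL.neg x ht hB
  · exact RkH.neg x ht hB

theorem Pc.app {i k k' : ℕ} {t B : ℝ} {x : Fin k → Alt n} (y : Fin k' → Alt n)
    (h : Pc n ρ m r c4 i k x t B) : Pc n ρ m r c4 i (k + k') (Fin.append x y) t B :=
  ⟨Good1.app y h.1, fun hi => (h.2 hi).app y⟩

theorem Pc.mono {i k : ℕ} {t t' B B' : ℝ} {x : Fin k → Alt n}
    (h : Pc n ρ m r c4 i k x t B) (ht : t' ≤ t) (hB : B ≤ B') :
    Pc n ρ m r c4 i k x t' B' :=
  ⟨Good1.mono h.1 ht, fun hi => (h.2 hi).mono ht hB⟩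

theorem Pc.neg {i k : ℕ} {t B : ℝ} (x : Fin k → Alt n) (ht : t < 0) (hB : 0 ≤ B) :
    Pc n ρ m r c4 i k x t B :=
  ⟨Good1.neg x ht, fun _ => Rk2.neg x ht hB⟩

theorem Pc.base {k a0 : ℕ} {t B c1 : ℝ} (x : Fin k → Alt n) (y : Fin a0 → Alt n)
    (hy : Good1 n (r 0) c1 y) (h : Pc n ρ m r c4 0 k x t B) :
    Pc n ρ m r c4 0 (k + a0) (Fin.append x y) (t + c1) B := by
  refine ⟨?_, fun hi => absurd hi (lt_irrefl _)⟩
  have h0 : (0 - 1) / m = 0 := by simp
  have h1 := h.1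
  rw [h0] at h1 ⊢
  exact Good1.add h1 hy

/-- the gap on the levels at the beginning of a round -/
theorem Pc.good (hm : 1 ≤ m) (hn : 2 ≤ n) (hlam : 3 * Real.log n ≤ lamn n * (5 / 4) ^ (m - 1))
    (hKILL : StmtKILL) {i k : ℕ} {t B : ℝ} (hB : B ≤ n) (x : Fin k → Alt n) (him : i % m = 0)
    (hiρ : i / m ≤ ρ) (h : Pc n ρ m r c4 i k x t B) : Good1 n (r (i / m)) t x := by
  rcases Nat.eq_zero_or_pos i with hi | hi
  · subst hi
    have h1 := h.1
    have h0 : (0 - 1) / m = 0 := by simp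
    rw [h0] at h1
    rw [Nat.zero_div]
    exact h1
  · obtain ⟨q, hq⟩ : ∃ q, i = (q + 1) * m := by
      obtain ⟨q', hq'⟩ := Nat.dvd_of_mod_eq_zero him
      rcases q' with _ | q
      · omega
      · exact ⟨q, by rw [hq', mul_comm]⟩
    have e1 : i / m = q + 1 := by
      rw [hq]; exact Nat.mul_div_cancel _ hm
    have e0 : i - 1 = m * q + (m - 1) := by
      have h2 : (q + 1) * m = m * q + m := by ring
      rw [hq, h2]
      omega
    have e2 : (i - 1) / m = q := by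
      rw [e0, Nat.mul_add_div (by omega), Nat.div_eq_of_lt (by omega), add_zero]
    have e3 : (i - 1) % m = m - 1 := by
      rw [e0, Nat.mul_add_mod, Nat.mod_eq_of_lt (by omega)]
    have h1 := h.1
    have h2 := h.2 hi
    rw [e2] at h1
    rw [e2, e3] at h2
    rw [e1] at hiρ ⊢
    unfold Rk2 at h2
    rw [if_pos (by omega)] at h2
    exact hKILL n (r q) (r (q + 1)) k x t B _ hn hB hlam h1 h2

end

end CG45
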