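import Pool.Agent.H45.CG.Dg

/-! The basic step: one more letter raises the threshold. -/

set_option autoImplicit false

namespace CG45
open RC14 RC852 TE852 LL14 LG45 Finset
open scoped InnerProductSpace

section basic
variable {V : Type*} [NormedAddCommGroup V] [InnerProductSpace ℂ V]

theorem NRK.mono {W : Submodule ℂ V} {Φ Ψ : V → ℝ} {τ τ' δ δ' : ℝ} (h : NRK W Φ τ δ)
    (hΦ : ∀ v ∈ W, Φ v ≤ Ψ v) (hτ : τ' ≤ τ) (hδ : δ ≤ δ') : NRK W Ψ τ' δ' := by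
  intro U hU hΨ
  refine (h U hU fun u hu => ((hΦ u (hU hu)).trans (hΨ u hu)).trans ?_).trans ?_
  · exact mul_le_mul_of_nonneg_right hτ (sq_nonneg _)
  · exact mul_le_mul_of_nonneg_right hδ (Nat.cast_nonneg _)

/-- a strict energy bound -/
theorem NRK.of_gap {W : Submodule ℂ V} {Φ : V → ℝ} {τ τ' δ : ℝ} (hδ : 0 ≤ δ) (hτ : τ < τ')
    (h : ∀ v ∈ W, τ' * ‖v‖ ^ 2 ≤ Φ v) : NRK W Φ τ δ := by
  intro U hU hΦ
  have h1 : U = ⊥ := by
    rw [Submodule.eq_bot_iff]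
    intro u hu
    have h2 := h u (hU hu)
    have h3 := hΦ u hu
    by_contra hne
    have h4 : 0 < ‖u‖ ^ 2 := by positivity
    nlinarith
  rw [h1]
  simp only [finrank_bot, Nat.cast_zero]
  positivity

/-- a negative threshold -/
theorem NRK.of_neg {W : Submodule ℂ V} {Φ : V → ℝ} {τ δ : ℝ} (hδ : 0 ≤ δ) (hτ : τ < 0)
    (h : ∀ v, 0 ≤ Φ v) : NRK W Φ τ δ :=
  NRK.of_gap hδ hτ fun v _ => by rw [zero_mul]; exact h v

/-- if the dimension is less than one there is a gap -/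
theorem NRK.gap {W : Submodule ℂ V} {Φ : V → ℝ} {τ δ : ℝ} (h : NRK W Φ τ δ)
    (hΦ : ∀ (c : ℂ) (v : V), Φ (c • v) = ‖c‖ ^ 2 * Φ v)
    (hd : δ * Module.finrank ℂ W < 1) : ∀ v ∈ W, τ * ‖v‖ ^ 2 ≤ Φ v := by
  intro v hv
  by_contra hcon
  push Not at hcon
  have hv0 : v ≠ 0 := by
    rintro rfl
    have := hΦ 0 0
    simp at this hcon
    linarith
  have h1 := h (Submodule.span ℂ {v}) ((Submodule.span_singleton_le_iff_mem v W).2 hv) (by
    intro u hu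
    rw [Submodule.mem_span_singleton] at hu
    obtain ⟨a, rfl⟩ := hu
    rw [hΦ, norm_smul, mul_pow]
    have : 0 ≤ ‖a‖ ^ 2 := by positivity
    nlinarith)
  rw [finrank_span_singleton hv0] at h1
  push_cast at h1
  linarith

end basic

variable {V : Type*} [NormedAddCommGroup V] [InnerProductSpace ℂ V] [FiniteDimensional ℂ V]
variable {ι : Type*} [Fintype ι]

/-- dimension count for the kernel of a map into a small space -/
theorem finrank_ker_ge (U S : Submodule ℂ V) (A : Module.End ℂ V) (hA : ∀ u ∈ U, A u ∈ S) :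
    Module.finrank ℂ U ≤ Module.finrank ℂ (U ⊓ LinearMap.ker A : Submodule ℂ V) +
      Module.finrank ℂ S := by
  have h1 := LinearMap.finrank_range_add_finrank_ker (A.domRestrict U)
  have h2 : Module.finrank ℂ (LinearMap.range (A.domRestrict U)) ≤ Module.finrank ℂ S := by
    apply Submodule.finrank_mono
    rintro _ ⟨u, rfl⟩
    exact hA u u.2
  have h3 : Module.finrank ℂ (LinearMap.ker (A.domRestrict U)) ≤
      Module.finrank ℂ (U ⊓ LinearMap.ker A : Submodule ℂ V) := by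
    rw [← Submodule.finrank_map_subtype_eq U (LinearMap.ker (A.domRestrict U))]
    apply Submodule.finrank_mono
    rintro _ ⟨u, hu, rfl⟩
    exact ⟨u.2, hu⟩
  omega

/-- the letter `h` moves almost all vectors of the range of `E` -/
def Mv (E : Module.End ℂ V) (h : V ≃ₗᵢ[ℂ] V) (δ : ℝ) : Prop :=
  ∀ S : Submodule ℂ V, (∀ u ∈ S, ‖u‖ ≤ 8 * ‖E (h (E u))‖) →
    (Module.finrank ℂ S : ℝ) ≤ δ * Module.finrank ℂ V

theorem DSTEP (b : OrthonormalBasis ι ℂ V) (φ : ι → ℝ) (Φ : V → ℝ)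
    (hΦ : ∀ v, Φ v = ∑ i, φ i * ‖⟪b i, v⟫_ℂ‖ ^ 2) (h : V ≃ₗᵢ[ℂ] V) (τ0 τ1 c δ1 δ2 : ℝ)
    (hc : 0 < c) (hc1 : c ≤ 1 / 2) (hτ : τ1 + 16 * c ≤ τ0)
    (h1 : NRK (⊤ : Submodule ℂ V) Φ τ1 δ1) (h2 : Mv (spj b {i | φ i ≤ τ0}) h δ2) :
    NRK (⊤ : Submodule ℂ V) (fun v => Φ v + ‖h v - v‖ ^ 2) (τ1 + c) (δ1 + δ2) := by
  classical
  intro U _ hU
  set E := spj b {i | φ i ≤ τ0} with hE
  have hEs : E.IsSymmetric := (spj_symIdem b _).1
  have hEE : ∀ v, E (E v) = E v := fun v => spj_idem b _ v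
  set hl : Module.End ℂ V := (h.toLinearEquiv : V →ₗ[ℂ] V) with hhl
  set hr : Module.End ℂ V := (h.symm.toLinearEquiv : V →ₗ[ℂ] V) with hhr
  have hla : ∀ v, hl v = h v := fun v => rfl
  have hra : ∀ v, hr v = h.symm v := fun v => rfl
  have hadj : ∀ v w, ⟪hr v, w⟫_ℂ = ⟪v, hl w⟫_ℂ := by
    intro v w
    rw [hla, hra]
    have := h.inner_map_map (h.symm v) w
    rw [LinearIsometryEquiv.apply_symm_apply] at this
    exact this.symm
  set Z : Module.End ℂ V := E * hr * E * hl * E with hZ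
  have hZi : ∀ v w, ⟪Z v, w⟫_ℂ = ⟪E (hl (E v)), E (hl (E w))⟫_ℂ := by
    intro v w
    have e1 : Z v = E (hr (E (hl (E v)))) := rfl
    rw [e1, hEs, hadj, ← hEs (E (hl (E v))), hEE]
  have hZs : Z.IsSymmetric := by
    intro v w
    rw [hZi, ← inner_conj_symm, ← hZi, inner_conj_symm]
  obtain ⟨b', μ, hμ⟩ := exists_dg Z hZs
  set P := spj b' {i | 1 / 64 ≤ μ i} with hP
  have hZn : ∀ v, ∑ i, μ i * ‖⟪b' i, v⟫_ℂ‖ ^ 2 = ‖E (hl (E v))‖ ^ 2 := by
    intro v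
    rw [← re_dg, ← hμ, hZi, inner_self_eq_norm_sq_to_K]
    norm_cast
  -- the space on which `E h E` is large
  have hS : (Module.finrank ℂ (LinearMap.range P) : ℝ) ≤ δ2 * Module.finrank ℂ V := by
    apply h2
    rintro _ ⟨v, rfl⟩
    have h3 := le_spj b' {i | 1 / 64 ≤ μ i} μ (1 / 64) (fun i hi => hi) v
    rw [← hP, hZn] at h3
    rw [hla] at h3
    have h4 : ‖P v‖ ^ 2 ≤ (8 * ‖E (h (E (P v)))‖) ^ 2 := by
      rw [mul_pow]; linarith
    exact (pow_le_pow_iff_left₀ (norm_nonneg _) (by positivity) two_ne_zero).1 h4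
  -- the rest
  set U' : Submodule ℂ V := U ⊓ LinearMap.ker (P * E) with hU'
  have hdim := finrank_ker_ge U (LinearMap.range P) (P * E) (fun u _ => ⟨E u, rfl⟩)
  have hkey : ∀ u ∈ U', Φ (E u) ≤ τ1 * ‖E u‖ ^ 2 ∧ (E u = 0 → u = 0) := by
    rintro u ⟨hu, hPu⟩
    have hPE : P (E u) = 0 := hPu
    set v := E u with hv
    set f := u - E u with hf
    have hEv : E v = v := hEE u
    have e1 : Φ u = Φ v + Φ f := by
      rw [hΦ, hΦ, hΦ, hv, hf]
      exact spj_add b _ φ u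
    have e2 : τ0 * ‖f‖ ^ 2 ≤ Φ f := by
      rw [hΦ, hf]
      exact spj_compl b _ φ τ0 (fun i hi => (not_le.1 hi).le) u
    have e3 : ‖u‖ ^ 2 = ‖v‖ ^ 2 + ‖f‖ ^ 2 := spj_pyth b _ u
    have e4 : Φ u + ‖h u - u‖ ^ 2 ≤ (τ1 + c) * ‖u‖ ^ 2 := hU u hu
    -- `v` is moved
    have e5 : (⟪h v, v⟫_ℂ).re ≤ 1 / 8 * ‖v‖ ^ 2 := by
      have h3 := spj_compl_le b' {i | 1 / 64 ≤ μ i} μ (1 / 64) (fun i hi => (not_le.1 hi).le) v
      rw [← hP, hPE, sub_zero, hZn, hEv, hla] at h3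
      have h4 : ‖E (h v)‖ ≤ 1 / 8 * ‖v‖ := by
        refine (pow_le_pow_iff_left₀ (norm_nonneg _) (by positivity) two_ne_zero).1 ?_
        rw [mul_pow]; linarith
      have h5 : ⟪h v, v⟫_ℂ = ⟪E (h v), v⟫_ℂ := by
        rw [hEs, hEv]
      rw [h5]
      refine (Complex.re_le_norm _).trans ((norm_inner_le_norm _ _).trans ?_)
      calc ‖E (h v)‖ * ‖v‖ ≤ 1 / 8 * ‖v‖ * ‖v‖ := mul_le_mul_of_nonneg_right h4 (norm_nonneg _)
        _ = 1 / 8 * ‖v‖ ^ 2 := by ring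
    have e6 : 7 / 4 * ‖v‖ ^ 2 ≤ ‖h v - v‖ ^ 2 := by
      have h3 := @norm_sub_sq ℂ _ _ _ _ (h v) v
      rw [h.norm_map] at h3
      have h4 : RCLike.re (⟪h v, v⟫_ℂ) = (⟪h v, v⟫_ℂ).re := rfl
      rw [h4] at h3
      linarith
    have e7 : ‖h v - v‖ ≤ ‖h u - u‖ + 2 * ‖f‖ := by
      have h3 : h v - v = (h u - u) - (h f - f) := by
        rw [hf, map_sub, ← hv]; abel
      rw [h3]
      refine (norm_sub_le _ _).trans ?_
      have h4 : ‖h f - f‖ ≤ ‖h f‖ + ‖f‖ := norm_sub_le _ _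
      rw [h.norm_map] at h4
      linarith
    have hf0 : 0 ≤ ‖f‖ ^ 2 := sq_nonneg _
    have hv0 : 0 ≤ ‖v‖ ^ 2 := sq_nonneg _
    have e8 : Φ v ≤ τ1 * ‖v‖ ^ 2 + c * ‖v‖ ^ 2 - 15 * (c * ‖f‖ ^ 2) - ‖h u - u‖ ^ 2 := by
      rw [e1, e3] at e4
      have h5 : (τ1 + 16 * c) * ‖f‖ ^ 2 ≤ τ0 * ‖f‖ ^ 2 := mul_le_mul_of_nonneg_right hτ hf0
      nlinarith
    refine ⟨?_, ?_⟩
    · rcases le_total (‖v‖ ^ 2) (15 * ‖f‖ ^ 2) with h3 | h3
      · have h4 : c * ‖v‖ ^ 2 ≤ c * (15 * ‖f‖ ^ 2) := mul_le_mul_of_nonneg_left h3 hc.le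
        have h5 := sq_nonneg ‖h u - u‖
        linarith
      · have h4 : c * ‖v‖ ^ 2 ≤ ‖h u - u‖ ^ 2 := by
          have h5 : ‖h v - v‖ ^ 2 ≤ (‖h u - u‖ + 2 * ‖f‖) ^ 2 :=
            pow_le_pow_left₀ (norm_nonneg _) e7 2
          have h6 : (‖h u - u‖ + 2 * ‖f‖) ^ 2 ≤ 7 / 4 * ‖h u - u‖ ^ 2 + 28 / 3 * ‖f‖ ^ 2 := by
            nlinarith [sq_nonneg (3 * ‖h u - u‖ - 8 * ‖f‖)]
          have h7 : c * ‖v‖ ^ 2 ≤ 1 / 2 * ‖v‖ ^ 2 := mul_le_mul_of_nonneg_right hc1 hv0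
          linarith
        have h5 : 0 ≤ c * ‖f‖ ^ 2 := by positivity
        linarith
    · intro h3
      rw [h3] at e8
      have h4 : Φ 0 = 0 := by
        rw [hΦ]; simp
      rw [h4, norm_zero] at e8
      have h5 := sq_nonneg ‖h u - u‖
      have h6 : c * ‖f‖ ^ 2 ≤ 0 := by linarith
      have h7 : ‖f‖ ^ 2 ≤ 0 := by
        by_contra hneg
        push Not at hneg
        have : 0 < c * ‖f‖ ^ 2 := by positivity
        linarith
      have h8 : ‖u‖ ^ 2 = 0 := by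
        rw [e3, h3, norm_zero]
        have : ‖f‖ ^ 2 = 0 := le_antisymm h7 hf0
        rw [this]; norm_num
      exact norm_eq_zero.1 ((pow_eq_zero_iff two_ne_zero).1 h8)
  have h3 := h1 (U'.map E) le_top (by
    rintro _ ⟨u, hu, rfl⟩
    exact (hkey u hu).1)
  have h4 : Module.finrank ℂ (U'.map E) = Module.finrank ℂ U' := by
    have e : (E.domRestrict U').range = U'.map E := by
      ext y
      simp only [LinearMap.mem_range, Submodule.mem_map, LinearMap.domRestrict_apply,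
        Subtype.exists]
      constructor
      · rintro ⟨a, ha, rfl⟩; exact ⟨a, ha, rfl⟩
      · rintro ⟨a, ha, rfl⟩; exact ⟨a, ha, rfl⟩
    rw [← e]
    apply LinearMap.finrank_range_of_inj
    rw [← LinearMap.ker_eq_bot, LinearMap.ker_eq_bot']
    intro z hz
    exact Subtype.ext ((hkey z z.2).2 hz)
  rw [h4, finrank_top] at h3
  rw [finrank_top]
  have h5 : (Module.finrank ℂ U : ℝ) ≤ Module.finrank ℂ U' +
      Module.finrank ℂ (LinearMap.range P) := by exact_mod_cast hdim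
  linarith

end CG45
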