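import Pool.Agent.H45.CG.Asm1
import Pool.Agent.H80.CG.Kill
import Pool.Agent.H96.CG.Amp

/-! The transitions of the induction. -/

set_option autoImplicit false

namespace CG45
open RC14 RC852 TE852 LL14 LG45 Finset Filter

/-- the loss factors -/
noncomputable def fc (ρ m : ℕ) (ε y : ℝ) (i : ℕ) : ℝ :=
  if i % m = 0 then (if i / m < ρ then 1 - ε else y) else 1

theorem fc_le {ρ m : ℕ} {ε y : ℝ} (hε : 0 ≤ ε) (hy : y ≤ 1) (i : ℕ) : fc ρ m ε y i ≤ 1 := by
  unfold fc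
  split_ifs <;> linarith

/-- hypotheses for a fixed `n` -/
structure Env (n ρ m : ℕ) (r : ℕ → ℕ) (c4 ε y : ℝ) : Prop where
  hm : 1 ≤ m
  hn : 2 ≤ n
  hε : 0 ≤ ε
  hy : y ≤ 1
  hc4 : 0 ≤ c4
  hl0 : 0 ≤ lamn n
  hlam : 3 * Real.log n ≤ lamn n * (5 / 4) ^ (m - 1)
  hWord : ∀ i < ρ, ∀ (k : ℕ) (x : Fin k → Alt n) (t τ1 c' B : ℝ), 0 < t → Good1 n (r i) t x →
    0 < c' → c' ≤ 1 / 2 → τ1 + 16 * c' ≤ (1 - ε) * t →
    RkL n (r i) (r (i + 1)) τ1 B (lamn n) x →
    (Nat.card {b : Fin 1 → Alt n //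
      ¬ RkL n (r i) (r (i + 1)) (τ1 + c') (B + 1) (lamn n) (Fin.append x b)} : ℝ) ≤
      1 / (n : ℝ) ^ 2 * Fintype.card (Fin 1 → Alt n)
  hSide : ∀ i < ρ, ∀ j : ℕ, r i < j → j ≤ r (i + 1) →
    64 * (n : ℝ) ^ 2 * (n : ℝ) ^ 3 * Real.exp (3 * Real.sqrt j) ≤
      Real.exp (3 / 4 * (lamn n * j))
  h2R : ∀ i < ρ, 2 * r (i + 1) + 2 ≤ n
  hHigh : ∀ k : ℕ, 1 ≤ k → ∀ x : Fin k → Alt n, ∀ t : ℝ, 0 < t → t ≤ k → Good1 n (r ρ) t x →
    ∀ W : Submodule ℂ (FA n), Irr (RR n) W → W ≤ HH (r ρ) n →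
    NRK W (En (RR n) x) (y * t) (Real.exp (-(c4 * n)))
  hSideH : 128 * (n : ℝ) ^ 2 * (n : ℝ) ^ 2 * Real.exp (3 * Real.sqrt n) ≤
    Real.exp (3 / 4 * (c4 * n))

theorem card_zero {Z : Type*} (P : Z → Prop) (h : ∀ z, P z) (b : ℝ) (hb : 0 ≤ b) :
    (Nat.card {z : Z // ¬ P z} : ℝ) ≤ b := by
  have : IsEmpty {z : Z // ¬ P z} := ⟨fun z => z.2 (h z.1)⟩
  rw [Nat.card_of_isEmpty]
  simpa using hb

namespace Env
variable {n ρ m : ℕ} {r : ℕ → ℕ} {c4 ε y : ℝ}

/-- the second half of the class of index `i + 1` -/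
theorem stepRk (e : Env n ρ m r c4 ε y) (i : ℕ) (hi : i < (ρ + 1) * m) (k : ℕ)
    (x : Fin k → Alt n) (t0 t1 c B : ℝ) (ht0 : 0 < t0) (htk : t0 ≤ k) (hc : 0 < c)
    (hc1 : c ≤ 1 / 2) (hB : 1 ≤ B) (hBn : B ≤ n) (ht : t1 + 16 * c ≤ fc ρ m ε y i * t0)
    (h0 : Pc n ρ m r c4 i k x t0 B) (h1 : Pc n ρ m r c4 (i + 1) k x t1 B) :
    (Nat.card {h : Fin 1 → Alt n //
      ¬ Rk2 n ρ (i / m) (i % m) r c4 (k + 1) (Fin.append x h) (t1 + c) (B + 1)} : ℝ) ≤
      1 / (n : ℝ) ^ 2 * Fintype.card (Fin 1 → Alt n) := by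
  have hm := e.hm
  have hB2 : B ^ 2 ≤ (n : ℝ) ^ 2 := pow_le_pow_left₀ (by linarith) hBn 2
  have hiρ : i / m ≤ ρ := by
    have := (Nat.div_lt_iff_lt_mul (show 0 < m by omega)).2 hi
    omega
  have h1' : Rk2 n ρ (i / m) (i % m) r c4 k x t1 B := by
    have := h1.2 (Nat.succ_pos i)
    rwa [Nat.add_sub_cancel] at this
  have hbd : (0 : ℝ) ≤ 1 / (n : ℝ) ^ 2 * Fintype.card (Fin 1 → Alt n) := by positivity
  by_cases him : i % m = 0
  · -- a new round
    have hG := Pc.good hm e.hn e.hlam CG80.part_KILL hBn x him hiρ h0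
    unfold fc at ht
    rw [if_pos him] at ht
    rw [him] at h1' ⊢
    unfold Rk2 at h1' ⊢
    rcases lt_or_ge (i / m) ρ with hlt | hge
    · rw [if_pos hlt] at ht
      simp only [if_pos hlt, pow_zero, mul_one] at h1' ⊢
      exact e.hWord (i / m) hlt k x t0 t1 c B ht0 hG hc hc1 ht h1'
    · have hρ : i / m = ρ := le_antisymm hiρ hge
      rw [if_neg (not_lt.2 hge)] at ht
      simp only [if_neg (not_lt.2 hge), pow_zero, mul_one] at h1' ⊢
      rw [hρ] at hG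
      have hk : 1 ≤ k := by
        have : (0 : ℝ) < k := ht0.trans_le htk
        exact_mod_cast this
      refine card_zero _ (fun h => ?_) _ hbd
      intro W hW hWL
      refine (e.hHigh k hk x t0 ht0 htk hG W hW hWL).mono (fun v _ => ?_) (by linarith) ?_
      · rw [En_append]
        have := RC14.En_nonneg (RR n) h v
        linarith
      · have := Real.exp_pos (-(c4 * n))
        nlinarith
  · -- amplification
    unfold fc at ht
    rw [if_neg him, one_mul] at ht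
    have hi0 : 0 < i := Nat.pos_of_ne_zero (fun h => him (by rw [h, Nat.zero_mod]))
    obtain ⟨q, l, hl, hql⟩ : ∃ q l, l + 1 < m ∧ i = m * q + (l + 1) := by
      have h1 := Nat.div_add_mod i m
      have h2 := Nat.mod_lt i (show 0 < m by omega)
      exact ⟨i / m, i % m - 1, by omega, by omega⟩
    have e1 : i / m = q := by
      rw [hql, Nat.mul_add_div (by omega), Nat.div_eq_of_lt (by omega), add_zero]
    have e2 : i % m = l + 1 := by
      rw [hql, Nat.mul_add_mod, Nat.mod_eq_of_lt (by omega)]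
    have e0 : i - 1 = m * q + l := by omega
    have e3 : (i - 1) / m = q := by
      rw [e0, Nat.mul_add_div (by omega), Nat.div_eq_of_lt (by omega), add_zero]
    have e4 : (i - 1) % m = l := by
      rw [e0, Nat.mul_add_mod, Nat.mod_eq_of_lt (by omega)]
    have h0' := h0.2 hi0
    rw [e3, e4] at h0'
    rw [e1] at hiρ
    rw [e1, e2] at h1' ⊢
    have hpl : (1 : ℝ) ≤ (5 / 4) ^ l := one_le_pow₀ (by norm_num)
    have hnR : (0 : ℝ) < n := by
      have := e.hn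
      exact_mod_cast (by omega : 0 < n)
    unfold Rk2 at h0' h1' ⊢
    rcases lt_or_ge q ρ with hlt | hge
    · simp only [if_pos hlt] at h0' h1' ⊢
      refine H96CG.ampl n (r q) (r (q + 1)) k x t0 t1 c B (lamn n * (5 / 4) ^ l)
        (lamn n * (5 / 4) ^ (l + 1)) (e.h2R q hlt) hc hc1 ht hB
        (mul_nonneg e.hl0 (by positivity)) (le_of_eq (by ring)) ?_ h0' h1'
      intro j hj1 hj2
      have h5 := e.hSide q hlt j hj1 hj2
      have h6 : lamn n * j ≤ lamn n * (5 / 4) ^ l * j := by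
        have : 0 ≤ lamn n * j := mul_nonneg e.hl0 (Nat.cast_nonneg _)
        nlinarith
      have h7 : Real.exp (3 / 4 * (lamn n * j)) ≤ Real.exp (3 / 4 * (lamn n * (5 / 4) ^ l * j)) :=
        Real.exp_le_exp.2 (by linarith)
      refine le_trans ?_ (h5.trans h7)
      gcongr
    · have hρ : q = ρ := le_antisymm hiρ hge
      simp only [if_neg (not_lt.2 hge)] at h0' h1' ⊢
      have hcn : 0 ≤ c4 * n := mul_nonneg e.hc4 (Nat.cast_nonneg _)
      refine H96CG.amph n (r ρ) k x t0 t1 c B (c4 * n * (5 / 4) ^ l)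
        (c4 * n * (5 / 4) ^ (l + 1)) (by have := e.hn; omega) hc hc1 ht hB
        (mul_nonneg hcn (by positivity)) (le_of_eq (by ring)) ?_ h0' h1'
      have h5 := e.hSideH
      have h6 : c4 * n ≤ c4 * n * (5 / 4) ^ l := by nlinarith
      have h7 : Real.exp (3 / 4 * (c4 * n)) ≤ Real.exp (3 / 4 * (c4 * n * (5 / 4) ^ l)) :=
        Real.exp_le_exp.2 (by linarith)
      refine le_trans ?_ (h5.trans h7)
      gcongr

/-- the gap on the levels -/
theorem stepGood (e : Env n ρ m r c4 ε y) (i : ℕ) (hi : i < (ρ + 1) * m) (k : ℕ)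
    (x : Fin k → Alt n) (t0 B : ℝ) (hBn : B ≤ n) (h0 : Pc n ρ m r c4 i k x t0 B) :
    Good1 n (r (i / m)) t0 x := by
  have hm := e.hm
  have hiρ : i / m ≤ ρ := by
    have := (Nat.div_lt_iff_lt_mul (show 0 < m by omega)).2 hi
    omega
  by_cases him : i % m = 0
  · exact Pc.good hm e.hn e.hlam CG80.part_KILL hBn x him hiρ h0
  · obtain ⟨q, l, hl, hql⟩ : ∃ q l, l + 1 < m ∧ i = m * q + (l + 1) := by
      have h1 := Nat.div_add_mod i m
      have h2 := Nat.mod_lt i (show 0 < m by omega)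
      exact ⟨i / m, i % m - 1, by omega, by omega⟩
    have e1 : i / m = q := by
      rw [hql, Nat.mul_add_div (by omega), Nat.div_eq_of_lt (by omega), add_zero]
    have e0 : i - 1 = m * q + l := by omega
    have e3 : (i - 1) / m = q := by
      rw [e0, Nat.mul_add_div (by omega), Nat.div_eq_of_lt (by omega), add_zero]
    have h1 := h0.1
    rw [e3] at h1
    rw [e1]
    exact h1

/-- one step -/
theorem step (e : Env n ρ m r c4 ε y) (i : ℕ) (hi : i < (ρ + 1) * m) (k : ℕ)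
    (x : Fin k → Alt n) (t0 t1 c B : ℝ) (ht0 : 0 < t0) (htk : t0 ≤ k) (hc : 0 < c)
    (hc1 : c ≤ 1 / 2) (hB : 1 ≤ B) (hBn : B ≤ n) (ht : t1 + 16 * c ≤ fc ρ m ε y i * t0)
    (h0 : Pc n ρ m r c4 i k x t0 B) (h1 : Pc n ρ m r c4 (i + 1) k x t1 B) :
    (Nat.card {h : Fin 1 → Alt n //
      ¬ Pc n ρ m r c4 (i + 1) (k + 1) (Fin.append x h) (t1 + c) (B + 1)} : ℝ) ≤
      1 / (n : ℝ) ^ 2 * Fintype.card (Fin 1 → Alt n) := by
  have hG := e.stepGood i hi k x t0 B hBn h0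
  have htt : t1 + c ≤ t0 := by
    have := fc_le e.hε e.hy (ρ := ρ) (m := m) i
    have : fc ρ m ε y i * t0 ≤ 1 * t0 := mul_le_mul_of_nonneg_right this ht0.le
    linarith
  have h := e.stepRk i hi k x t0 t1 c B ht0 htk hc hc1 hB hBn ht h0 h1
  refine le_trans (Nat.cast_le.2 (RC14.card_mono (Z := Fin 1 → Alt n) _ _ ?_)) h
  intro b hb hgood
  apply hb
  refine ⟨?_, fun _ => ?_⟩
  · rw [Nat.add_sub_cancel]
    exact Good1.mono (Good1.app b hG) htt
  · rw [Nat.add_sub_cancel]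
    exact hgood

end Env

end CG45
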