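import Pool.Agent.H45.CG.Asm2
import Pool.Agent.H96.CG.Chain

/-! The conclusion of the induction for a fixed `n`. -/

set_option autoImplicit false

namespace CG45
open RC14 RC852 TE852 LL14 LG45 Finset Filter

/-- the number of rounds begun before the step `i` -/
def zc (m i : ℕ) : ℕ := (i + m - 1) / m

/-- the loss of the thresholds -/
noncomputable def Kc (ρ m : ℕ) (ε y : ℝ) (i : ℕ) : ℝ :=
  (1 - ε) ^ (min (zc m i) ρ) * (if ρ < zc m i then y else 1)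

theorem Kc_pos {ρ m : ℕ} {ε y : ℝ} (hε : ε < 1) (hy : 0 < y) (i : ℕ) : 0 < Kc ρ m ε y i := by
  unfold Kc
  have : 0 < 1 - ε := by linarith
  split_ifs <;> positivity

theorem Kc_le {ρ m : ℕ} {ε y : ℝ} (hε0 : 0 ≤ ε) (hε : ε < 1) (hy : 0 < y) (hy1 : y ≤ 1) (i : ℕ) :
    Kc ρ m ε y i ≤ 1 := by
  unfold Kc
  have h1 : (1 - ε) ^ (min (zc m i) ρ) ≤ 1 := pow_le_one₀ (by linarith) (by linarith)
  have h0 : 0 ≤ (1 - ε) ^ (min (zc m i) ρ) := pow_nonneg (by linarith) _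
  split_ifs
  · nlinarith
  · linarith

theorem Kc_succ {ρ m : ℕ} {ε y : ℝ} (hm : 1 ≤ m) (hε0 : 0 ≤ ε) (hε : ε < 1)
    (i : ℕ) (hi : i < (ρ + 1) * m) : Kc ρ m ε y (i + 1) ≤ fc ρ m ε y i * Kc ρ m ε y i := by
  obtain ⟨q, l, hl, hql⟩ : ∃ q l, l < m ∧ i = m * q + l :=
    ⟨i / m, i % m, Nat.mod_lt i (by omega), (Nat.div_add_mod i m).symm⟩
  have e1 : i / m = q := by
    rw [hql, Nat.mul_add_div (by omega), Nat.div_eq_of_lt (by omega), add_zero]
  have e2 : i % m = l := by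
    rw [hql, Nat.mul_add_mod, Nat.mod_eq_of_lt (by omega)]
  have hiρ : q ≤ ρ := by
    have := (Nat.div_lt_iff_lt_mul (show 0 < m by omega)).2 hi
    omega
  have e3 : zc m (i + 1) = q + 1 := by
    unfold zc
    have : i + 1 + m - 1 = m * (q + 1) + l := by rw [mul_add, mul_one]; omega
    rw [this, Nat.mul_add_div (by omega), Nat.div_eq_of_lt (by omega), add_zero]
  unfold fc
  rw [e1, e2]
  unfold Kc
  rw [e3]
  rcases Nat.eq_zero_or_pos l with h0 | h0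
  · have e4 : zc m i = q := by
      unfold zc
      have : i + m - 1 = m * q + (m - 1) := by omega
      rw [this, Nat.mul_add_div (by omega), Nat.div_eq_of_lt (by omega), add_zero]
    rw [e4, if_pos h0]
    rcases lt_or_ge q ρ with h | h
    · rw [if_pos h, if_neg (by omega), if_neg (by omega), min_eq_left (by omega),
        min_eq_left (by omega), pow_succ]
      exact le_of_eq (by ring)
    · have : q = ρ := le_antisymm hiρ h
      subst this
      rw [if_neg (lt_irrefl _), if_pos (by omega), if_neg (lt_irrefl _), min_eq_right (by omega),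
        min_self]
      exact le_of_eq (by ring)
  · have e4 : zc m i = q + 1 := by
      unfold zc
      have : i + m - 1 = m * (q + 1) + (l - 1) := by rw [mul_add, mul_one]; omega
      rw [this, Nat.mul_add_div (by omega), Nat.div_eq_of_lt (by omega), add_zero]
    have hl0 : ¬ l = 0 := by omega
    rw [e4, if_neg hl0, one_mul]

theorem zc_top (ρ m : ℕ) (hm : 1 ≤ m) : zc m ((ρ + 1) * m) = ρ + 1 := by
  unfold zc
  have : (ρ + 1) * m + m - 1 = m * (ρ + 1) + (m - 1) := by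
    rw [mul_comm]; omega
  rw [this, Nat.mul_add_div (by omega), Nat.div_eq_of_lt (by omega), add_zero]

theorem Kc_top (ρ m : ℕ) (hm : 1 ≤ m) (ε y : ℝ) :
    Kc ρ m ε y ((ρ + 1) * m) = (1 - ε) ^ ρ * y := by
  unfold Kc
  rw [zc_top ρ m hm, min_eq_right (by omega), if_pos (by omega)]

/-- the conclusion for a fixed `n` -/
theorem Env.main {n ρ m : ℕ} {r : ℕ → ℕ} {c4 ε y : ℝ} (e : Env n ρ m r c4 ε y) (hε1 : ε < 1)
    (hy0 : 0 < y) (a0 : ℕ) (c1 p0 : ℝ) (hc1 : 0 < c1) (hc12 : c1 ≤ 1 / 2) (hp0 : 0 ≤ p0)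
    (hbase : (Nat.card {y : Fin a0 → Alt n // ¬ Good1 n (r 0) c1 y} : ℝ) ≤
      p0 * (Fintype.card (Alt n) : ℝ) ^ a0)
    (hH : (n + 3) * Real.log n ≤ c4 * n * (5 / 4) ^ (m - 1)) (M : ℕ) (hM : (M : ℝ) + 1 ≤ n) :
    (Nat.card {x : Fin ((a0 + 1) * M) → Alt n // ¬ (
        Good1 n (r ρ) (c1 * ((1 - ε) ^ ρ * y) * ((M : ℝ) - 16 * ((ρ + 1) * m : ℕ) - 1)) x ∧
        ∀ v ∈ HH (r ρ) n, c1 * ((1 - ε) ^ ρ * y) * ((M : ℝ) - 16 * ((ρ + 1) * m : ℕ) - 1) *
          ‖v‖ ^ 2 ≤ En (RR n) x v)} : ℝ) ≤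
      M * (p0 + ((ρ + 1) * m : ℕ) * (1 / (n : ℝ) ^ 2)) *
        (Fintype.card (Alt n) : ℝ) ^ ((a0 + 1) * M) := by
  have hm := e.hm
  have hn := e.hn
  have h := H96CH.chain n ((ρ + 1) * m) a0 (Pc n ρ m r c4) (fc ρ m ε y) (Kc ρ m ε y)
    (fun y => Good1 n (r 0) c1 y) c1 p0 (1 / (n : ℝ) ^ 2) hc1 hc12 hp0 (by positivity)
    (fun i _ => ⟨Kc_pos hε1 hy0 i, Kc_le e.hε hε1 hy0 e.hy i⟩)
    (fun i hi => ⟨Kc_succ hm e.hε hε1 i hi, fc_le e.hε e.hy i⟩)
    (fun i _ k l x y t B hP => hP.app y)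
    (fun i _ k x t t' B B' ht hB hP => hP.mono ht hB)
    (fun i _ k x t B ht hB => Pc.neg x ht (by linarith))
    hbase
    (fun k x y t B hy hP => Pc.base x y hy hP)
    (fun i hi k x t0 t1 c B ht0 htk hc hc1 hB hBn ht h0 h1 =>
      e.step i hi k x t0 t1 c B ht0 htk hc hc1 hB hBn ht h0 h1) M hM
  refine le_trans (Nat.cast_le.2 (RC14.card_mono (Z := Fin ((a0 + 1) * M) → Alt n) _ _ ?_)) h
  intro x hx hgood
  apply hx
  have h1 := hgood ((ρ + 1) * m) le_rfl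
  rw [Kc_top ρ m hm] at h1
  have hI : 0 < (ρ + 1) * m := Nat.mul_pos (by omega) (by omega)
  have e0 : (ρ + 1) * m - 1 = m * ρ + (m - 1) := by
    have h2 : (ρ + 1) * m = m * ρ + m := by ring
    rw [h2]
    omega
  have e2 : ((ρ + 1) * m - 1) / m = ρ := by
    rw [e0, Nat.mul_add_div (by omega), Nat.div_eq_of_lt (by omega), add_zero]
  have e3 : ((ρ + 1) * m - 1) % m = m - 1 := by
    rw [e0, Nat.mul_add_mod, Nat.mod_eq_of_lt (by omega)]
  have h2 := h1.1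
  have h3 := h1.2 hI
  rw [e2] at h2
  rw [e2, e3] at h3
  unfold Rk2 at h3
  rw [if_neg (lt_irrefl _)] at h3
  exact ⟨h2, CG80.part_KILLH n (r ρ) _ x _ _ _ hn hM hH h3⟩

end CG45
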