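import Pool.Agent.H45.CG.Asm3
import Pool.Agent.H96.CG.Sched
import Pool.Agent.H96.CG.Fin
import Pool.Agent.H87.CG.High
import Pool.Graph.R_seed8.H852R2.TE.MAIN
import Pool.Graph.R_seed8.H477R2.TE.GAPE

/-! The main theorem: `C (log log n)²` random elements of `A_n` have a constant gap. -/

set_option autoImplicit false

namespace CG45
open RC14 RC852 TE852 LL14 LG45 Finset Filter

theorem exp15 : Real.exp (1 / 5) ≤ 5 / 4 := by
  have h1 : Real.exp (1 / 5) ^ 5 ≤ (5 / 4) ^ 5 := by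
    rw [← Real.exp_nat_mul]
    have := Real.exp_one_lt_d9
    norm_num at this ⊢
    linarith
  exact le_of_pow_le_pow_left₀ (by norm_num) (by norm_num) h1

namespace NFx
variable {n : ℕ} {w L LL : ℝ}

theorem pow54 (h : NFx n w L LL) : L ^ 20 ≤ (5 / 4 : ℝ) ^ ⌈100 * LL⌉₊ := by
  have hL := h.L10
  have h1 : L ^ 20 = Real.exp (20 * LL) := by
    rw [h.hLL, show (20 : ℝ) * Real.log L = ((20 : ℕ) : ℝ) * Real.log L by norm_num,
      Real.exp_nat_mul, Real.exp_log (by linarith)]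
  rw [h1]
  calc Real.exp (20 * LL) ≤ Real.exp ((⌈100 * LL⌉₊ : ℕ) * (1 / 5)) := by
        apply Real.exp_le_exp.2
        have := Nat.le_ceil (100 * LL)
        linarith
    _ = Real.exp (1 / 5) ^ ⌈100 * LL⌉₊ := by rw [Real.exp_nat_mul]
    _ ≤ (5 / 4) ^ ⌈100 * LL⌉₊ := pow_le_pow_left₀ (Real.exp_pos _).le exp15 _

theorem lam54 (h : NFx n w L LL) (hL : 100 ≤ L) :
    3 * Real.log n ≤ lamn n * (5 / 4) ^ ⌈100 * LL⌉₊ := by
  have h1 := h.pow54
  have h10 := h.h10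
  have hLL := h.hLL'
  have h2 := mul_le_mul_of_nonneg_left h1 h.lamn_pos.le
  refine le_trans ?_ h2
  rw [← h.hL, h.lamn_eq, one_div_mul_eq_div, le_div_iff₀ (by positivity)]
  have h3 : L ^ 20 = L ^ 16 * L ^ 4 := by ring
  rw [h3]
  have h4 : 3 * L * (1024 * LL) ≤ L ^ 4 := by
    have e1 : L * LL ≤ L * L := mul_le_mul_of_nonneg_left hLL (by linarith)
    have e2 : (100 : ℝ) ^ 2 ≤ L ^ 2 := pow_le_pow_left₀ (by norm_num) hL 2
    have e3 : L ^ 4 = L ^ 2 * (L * L) := by ring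
    rw [e3]
    have e4 : 3072 * (L * L) ≤ L ^ 2 * (L * L) := by
      apply mul_le_mul_of_nonneg_right _ (by positivity)
      norm_num at e2
      linarith
    linarith
  calc 3 * L * (1024 * LL * L ^ 16) = (3 * L * (1024 * LL)) * L ^ 16 := by ring
    _ ≤ L ^ 4 * L ^ 16 := mul_le_mul_of_nonneg_right h4 (by positivity)
    _ = _ := by ring

theorem high54 (h : NFx n w L LL) (c4 : ℝ) (hc4 : 0 < c4) (hL : 2 ≤ c4 * L) :
    (n + 3) * Real.log n ≤ c4 * n * (5 / 4) ^ ⌈100 * LL⌉₊ := by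
  have h1 := h.pow54
  have hL10 := h.L10
  have hn := h.n0
  have hw := h.hw
  have h3 : (3 : ℝ) ≤ n := by
    rw [← h.hn]
    calc (3 : ℝ) ≤ 10 ^ 6 := by norm_num
      _ ≤ w := hw
      _ = w ^ 1 := (pow_one w).symm
      _ ≤ w ^ 32 := pow_le_pow_right₀ (by linarith [show (1:ℝ) < 10 ^ 6 by norm_num])
        (by norm_num)
  have h2 := mul_le_mul_of_nonneg_left h1 (show 0 ≤ c4 * n by positivity)
  refine le_trans ?_ h2
  rw [← h.hL]
  have h5 : L ≤ L ^ 19 := by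
    calc L = L ^ 1 := (pow_one L).symm
      _ ≤ L ^ 19 := pow_le_pow_right₀ (by linarith) (by norm_num)
  calc (n + 3) * L ≤ (2 * n) * L := by nlinarith
    _ = 2 * (n * L) := by ring
    _ ≤ (c4 * L) * (n * L) := mul_le_mul_of_nonneg_right hL (by positivity)
    _ = (c4 * L * n) * L := by ring
    _ ≤ (c4 * L ^ 19 * n) * L := by gcongr
    _ = c4 * n * L ^ 20 := by ring

theorem side (h : NFx n w L LL) (j : ℕ) (hj : w ^ 24 - 1 ≤ j) :
    64 * (n : ℝ) ^ 2 * (n : ℝ) ^ 3 * Real.exp (3 * Real.sqrt j) ≤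
      Real.exp (3 / 4 * (lamn n * j)) := by
  have hw := h.hw
  norm_num at hw
  have hL := h.L10
  have hLw := h.Lw
  have hn := h.n0
  obtain ⟨z, hz⟩ : ∃ z : ℝ, z = Real.sqrt j := ⟨_, rfl⟩
  have hzz : z * z = j := by rw [hz]; exact Real.mul_self_sqrt (Nat.cast_nonneg _)
  have hp11 : w ^ 2 ≤ w ^ 11 := pow_le_pow_right₀ (by linarith) (by norm_num)
  have hw2 : 1000000 * w ≤ w ^ 2 := by nlinarith
  have hz11 : w ^ 11 ≤ z := by
    rw [hz]
    apply Real.le_sqrt_of_sq_le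
    refine le_trans ?_ hj
    have e1 : w ^ 24 = (w ^ 11) ^ 2 * w ^ 2 := by ring
    rw [e1]
    have e2 : 1 ≤ (w ^ 11) ^ 2 := one_le_pow₀ (one_le_pow₀ (by linarith))
    nlinarith
  have hlam : 5 * z ≤ 3 / 4 * (lamn n * j) := by
    have e1 := h.lamn_ge
    have e2 : 1 / (1024 * w) * j ≤ lamn n * j := mul_le_mul_of_nonneg_right e1 (Nat.cast_nonneg _)
    have e3 : 7 * z ≤ 1 / (1024 * w) * j := by
      rw [one_div_mul_eq_div, le_div_iff₀ (by positivity), ← hzz]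
      have e4 : 7 * (1024 * w) ≤ z := by nlinarith
      have hz0 : 0 ≤ z := by nlinarith
      calc 7 * z * (1024 * w) = (7 * (1024 * w)) * z := by ring
        _ ≤ z * z := mul_le_mul_of_nonneg_right e4 hz0
    have hz0 : 0 ≤ z := by nlinarith
    linarith
  have e64 : (64 : ℝ) ≤ Real.exp 7 := by linarith [exp7]
  have en : (n : ℝ) ^ 2 * (n : ℝ) ^ 3 = Real.exp (5 * L) := by
    rw [← pow_add, ← h.expL, ← Real.exp_nat_mul]
    norm_num
  rw [mul_assoc 64, en, ← hz]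
  calc 64 * Real.exp (5 * L) * Real.exp (3 * z) ≤
      Real.exp 7 * Real.exp (5 * L) * Real.exp (3 * z) := by gcongr
    _ = Real.exp (7 + 5 * L + 3 * z) := by rw [← Real.exp_add, ← Real.exp_add]
    _ ≤ _ := by
        apply Real.exp_le_exp.2
        nlinarith

theorem sideH (h : NFx n w L LL) (c4 : ℝ) (hc4 : 32 ≤ c4 * w) :
    128 * (n : ℝ) ^ 2 * (n : ℝ) ^ 2 * Real.exp (3 * Real.sqrt n) ≤
      Real.exp (3 / 4 * (c4 * n)) := by
  have hw := h.hw
  norm_num at hw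
  have hL := h.L10
  have hLw := h.Lw
  have hn := h.n0
  have hs : Real.sqrt n = w ^ 16 := by
    rw [← h.hn, show w ^ 32 = (w ^ 16) ^ 2 by ring, Real.sqrt_sq (by positivity)]
  have e64 : (128 : ℝ) ≤ Real.exp 7 := by linarith [exp7]
  have en : (n : ℝ) ^ 2 * (n : ℝ) ^ 2 = Real.exp (4 * L) := by
    rw [← pow_add, ← h.expL, ← Real.exp_nat_mul]
    norm_num
  rw [mul_assoc 128, en, hs]
  calc 128 * Real.exp (4 * L) * Real.exp (3 * w ^ 16) ≤
      Real.exp 7 * Real.exp (4 * L) * Real.exp (3 * w ^ 16) := by gcongr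
    _ = Real.exp (7 + 4 * L + 3 * w ^ 16) := by rw [← Real.exp_add, ← Real.exp_add]
    _ ≤ _ := by
        apply Real.exp_le_exp.2
        have e1 : w ≤ w ^ 16 := by
          calc w = w ^ 1 := (pow_one w).symm
            _ ≤ w ^ 16 := pow_le_pow_right₀ (by linarith) (by norm_num)
        have e2 : w ^ 32 = w * (w ^ 15 * w ^ 16) := by ring
        have e3 : (1 : ℝ) ≤ w ^ 15 := one_le_pow₀ (by linarith)
        have e4 : 32 * w ^ 16 ≤ c4 * n := by
          rw [← h.hn, e2]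
          calc 32 * w ^ 16 ≤ (c4 * w) * w ^ 16 := mul_le_mul_of_nonneg_right hc4 (by positivity)
            _ = (c4 * w) * (1 * w ^ 16) := by ring
            _ ≤ (c4 * w) * (w ^ 15 * w ^ 16) := by
                apply mul_le_mul_of_nonneg_left _ (by linarith)
                exact mul_le_mul_of_nonneg_right e3 (by positivity)
            _ = _ := by ring
        linarith

end NFx


set_option maxHeartbeats 4000000 in
/-- the family of the final step -/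
theorem CORE : ∃ C c : ℝ, 0 < C ∧ 0 < c ∧ ∀ᶠ n : ℕ in atTop, ∃ (kn r : ℕ) (t : ℝ), 1 ≤ kn ∧
    (kn : ℝ) ≤ C * (Real.log (Real.log n)) ^ 2 ∧ c * kn ≤ t ∧
    (Nat.card {x : Fin kn → Alt n // ¬ (Good1 n r t x ∧
      ∀ v ∈ HH r n, t * ‖v‖ ^ 2 ≤ En (RR n) x v)} : ℝ) ≤
      1 / Real.sqrt n * (Fintype.card (Alt n) : ℝ) ^ kn := by
  obtain ⟨G0, hG0, hW⟩ := WORDN
  obtain ⟨D1, C, hD1, hC, hS⟩ := H96CG.part G0 hG0
  obtain ⟨y, c4, hy0, hy1, hc4, hH⟩ := H87CG.part D1 hD1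
  obtain ⟨a0, ha0⟩ := GAPE (3 / 4) (TEMAIN (3 / 4) (by norm_num))
  obtain ⟨c0, hc0, B0, hB0, hbase⟩ := ha0 a0 le_rfl
  obtain ⟨c1, hc1⟩ : ∃ c1 : ℝ, c1 = min c0 (1 / 2) := ⟨_, rfl⟩
  have hc10 : 0 < c1 := by rw [hc1]; exact lt_min hc0 (by norm_num)
  have hc12 : c1 ≤ 1 / 2 := by rw [hc1]; exact min_le_right _ _
  have hc1c : c1 ≤ c0 := by rw [hc1]; exact min_le_left _ _
  obtain ⟨C', hC'⟩ : ∃ C' : ℝ, C' = 102 * (C + 1) := ⟨_, rfl⟩
  have hC'1 : 102 ≤ C' := by rw [hC']; linarith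
  have ha00 : (0 : ℝ) ≤ a0 := Nat.cast_nonneg _
  refine ⟨(a0 + 1) * 32 * C', c1 * (Real.exp (-2 * C) * y) / (4 * (a0 + 1)), by positivity,
    by positivity, ?_⟩
  have t2 : Tendsto (fun n : ℕ => (n : ℝ)) atTop atTop := tendsto_natCast_atTop_atTop
  have t1 : Tendsto (fun n : ℕ => Real.log (n : ℝ)) atTop atTop :=
    Real.tendsto_log_atTop.comp t2
  have t4 : Tendsto (fun n : ℕ => (n : ℝ) ^ (1 / 32 : ℝ)) atTop atTop :=
    (tendsto_rpow_atTop (by norm_num)).comp t2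
  filter_upwards [NFx_ev, hW, hS, hH, hbase, t1.eventually_ge_atTop (max 100 (2 / c4)),
    t4.eventually_ge_atTop (max (32 / c4) (max (33 * C') (32 * (B0 + 1) * C' ^ 2)))] with
    n h hW hS hH hbase hL hwn
  obtain ⟨w, hwd⟩ : ∃ w : ℝ, w = (n : ℝ) ^ (1 / 32 : ℝ) := ⟨_, rfl⟩
  obtain ⟨L, hLd⟩ : ∃ L : ℝ, L = Real.log n := ⟨_, rfl⟩
  obtain ⟨LL, hLLd⟩ : ∃ LL : ℝ, LL = Real.log (Real.log n) := ⟨_, rfl⟩
  rw [← hwd, ← hLLd, ← hLd] at h
  rw [← hwd] at hwn
  rw [← hLd] at hL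
  rw [← hLLd] at hW hS ⊢
  have hL100 : 100 ≤ L := (le_max_left _ _).trans hL
  have hLc4 : 2 ≤ c4 * L := by
    have := (le_max_right _ _).trans hL
    rw [div_le_iff₀ hc4] at this
    linarith
  have hw32 : 32 ≤ c4 * w := by
    have := (le_max_left _ _).trans hwn
    rw [div_le_iff₀ hc4] at this
    linarith
  have hw33 : 33 * C' ≤ w := ((le_max_left _ _).trans (le_max_right _ _)).trans hwn
  have hwB : 32 * (B0 + 1) * C' ^ 2 ≤ w := ((le_max_right _ _).trans (le_max_right _ _)).trans hwn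
  have h10 := h.h10
  have hLLL := h.hLL'
  have hw := h.hw
  norm_num at hw
  have hn := h.n0
  have hLL0 : 0 < LL := by linarith
  obtain ⟨ρ, r, G, hρ, hr0, hrG, hDr, h2r⟩ := hS
  obtain ⟨m, hm⟩ : ∃ m : ℕ, m = ⌈100 * LL⌉₊ + 1 := ⟨_, rfl⟩
  have hm1 : m - 1 = ⌈100 * LL⌉₊ := by omega
  have hmR : (m : ℝ) ≤ 102 * LL := by
    rw [hm]
    push_cast
    have := Nat.ceil_lt_add_one (show 0 ≤ 100 * LL by positivity)
    linarith
  have hrmono : ∀ i, i ≤ ρ → Rr (3 / 4) n ≤ r i := by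
    intro i
    induction i with
    | zero => intro _; rw [hr0]
    | succ i ih =>
      intro hi
      obtain ⟨g1, g2, g3, g4⟩ := hrG i (by omega)
      rw [g4]
      exact (ih (by omega)).trans (Nat.le_mul_of_pos_right _ (Nat.pos_of_ne_zero (by
        have : 0 < G i := by omega
        positivity)))
  have hRr : w ^ 24 - 1 ≤ (Rr (3 / 4) n : ℝ) := by
    have h1 : w ^ 24 = (n : ℝ) ^ (3 / 4 : ℝ) := by
      rw [hwd, ← Real.rpow_natCast, ← Real.rpow_mul (Nat.cast_nonneg n)]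
      norm_num
    have h2 := Nat.lt_floor_add_one ((n : ℝ) ^ (3 / 4 : ℝ))
    unfold Rr
    rw [h1]
    linarith
  have hw24 : w ≤ w ^ 24 := by
    calc w = w ^ 1 := (pow_one w).symm
      _ ≤ w ^ 24 := pow_le_pow_right₀ (by linarith) (by norm_num)
  have hn2 : 2 ≤ n := by omega
  have hnR2 : (1 : ℝ) ≤ n := by exact_mod_cast (by omega : 1 ≤ n)
  have env : Env n ρ m r c4 (1 / LL) y := by
    refine ⟨by omega, hn2, by positivity, hy1, hc4.le, h.lamn_pos.le, ?_, ?_, ?_, ?_, ?_, ?_⟩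
    · rw [hm1]; exact h.lam54 hL100
    · intro i hi k x t τ1 c' B ht hx hc' hc1' hτ1 hR
      obtain ⟨g1, g2, g3, g4⟩ := hrG i hi
      rw [g4] at hR ⊢
      exact hW (G i) (r i) g1 g2 (hrmono i hi.le) g3 k x t τ1 c' B ht hx hc' hc1' hτ1 hR
    · intro i hi j hj1 _
      apply h.side j
      have h1 : ((Rr (3 / 4) n : ℕ) : ℝ) ≤ r i := by exact_mod_cast hrmono i hi.le
      have h2 : (r i : ℝ) ≤ j := by exact_mod_cast hj1.le
      linarith
    · intro i hi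
      obtain ⟨g1, g2, g3, g4⟩ := hrG i hi
      rw [g4]
      have hG2 : 2 ≤ G i := hG0.trans g1
      have hri : 1 ≤ r i := by
        have h1 := hrmono i hi.le
        have h2 : (1 : ℝ) ≤ (Rr (3 / 4) n : ℝ) := by linarith
        have h3 : 1 ≤ Rr (3 / 4) n := by exact_mod_cast h2
        omega
      have h4 : 4 * G i ^ 8 ≤ G i ^ 256 := by
        calc 4 * G i ^ 8 = 2 ^ 2 * G i ^ 8 := by norm_num
          _ ≤ G i ^ 2 * G i ^ 8 := Nat.mul_le_mul_right _ (Nat.pow_le_pow_left hG2 2)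
          _ = G i ^ 10 := by rw [← pow_add]
          _ ≤ G i ^ 256 := Nat.pow_le_pow_right (by omega) (by norm_num)
      have h5 : 1 ≤ G i ^ 8 := Nat.one_le_pow _ _ (by omega)
      have h6 : 1 ≤ r i * G i ^ 8 := Nat.mul_le_mul hri h5
      have h7 : r i * (4 * G i ^ 8) ≤ n := (Nat.mul_le_mul_left _ h4).trans g2
      have h8 : r i * (4 * G i ^ 8) = 4 * (r i * G i ^ 8) := by ring
      omega
    · intro k hk x t ht htk hx W hWi hWL
      exact hH (r ρ) hDr h2r k hk x t ht htk hx W hWi hWL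
    · exact h.sideH c4 hw32
  obtain ⟨I, hI⟩ : ∃ I : ℕ, I = (ρ + 1) * m := ⟨_, rfl⟩
  have hI1 : 1 ≤ I := by
    rw [hI]; exact Nat.mul_pos (by omega) (by omega)
  have hI1' : (1 : ℝ) ≤ I := by exact_mod_cast hI1
  have hIR : (I : ℝ) ≤ C' * LL ^ 2 := by
    rw [hI]
    push_cast
    have h1 : (ρ : ℝ) + 1 ≤ (C + 1) * LL := by nlinarith
    calc ((ρ : ℝ) + 1) * m ≤ ((C + 1) * LL) * (102 * LL) :=
          mul_le_mul h1 hmR (Nat.cast_nonneg _) (by positivity)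
      _ = C' * LL ^ 2 := by rw [hC']; ring
  -- powers of `LL`
  have hLL17 : LL ^ 4 ≤ w := by
    refine le_trans ?_ h.h17
    calc LL ^ 4 ≤ L ^ 4 := pow_le_pow_left₀ (by linarith) hLLL 4
      _ ≤ L ^ 17 := pow_le_pow_right₀ (by linarith) (by norm_num)
  have hLL2 : LL ^ 2 ≤ w := by
    refine le_trans ?_ hLL17
    exact pow_le_pow_right₀ (by linarith) (by norm_num)
  obtain ⟨M, hM⟩ : ∃ M : ℕ, M = 32 * I := ⟨_, rfl⟩
  have hMR : (M : ℝ) = 32 * I := by rw [hM]; push_cast; rfl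
  have hMn : (M : ℝ) + 1 ≤ n := by
    calc (M : ℝ) + 1 ≤ 33 * I := by rw [hMR]; linarith
      _ ≤ 33 * (C' * LL ^ 2) := by linarith
      _ = (33 * C') * LL ^ 2 := by ring
      _ ≤ w * w := mul_le_mul hw33 hLL2 (by positivity) (by linarith)
      _ = w ^ 2 := by ring
      _ ≤ w ^ 32 := pow_le_pow_right₀ (by linarith) (by norm_num)
      _ = n := h.hn
  have hε1 : 1 / LL < 1 := by
    rw [div_lt_one hLL0]; linarith
  have hbase' : (Nat.card {y : Fin a0 → Alt n // ¬ Good1 n (r 0) c1 y} : ℝ) ≤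
      B0 / n * (Fintype.card (Alt n) : ℝ) ^ a0 := by
    refine le_trans (Nat.cast_le.2 (RC14.card_mono (Z := Fin a0 → Alt n) _ _ ?_)) hbase
    intro z hz hcon
    rw [hr0] at hz
    exact hz (Good1.mono hcon hc1c)
  have key := env.main hε1 hy0 a0 c1 (B0 / n) hc10 hc12 (by positivity) hbase'
    (by rw [hm1]; exact h.high54 c4 hc4 hLc4) M hMn
  rw [← hI] at key
  -- the threshold
  obtain ⟨T, hT⟩ : ∃ T : ℝ, T = c1 * ((1 - 1 / LL) ^ ρ * y) * ((M : ℝ) - 16 * I - 1) := ⟨_, rfl⟩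
  rw [← hT] at key
  have hpow : Real.exp (-2 * C) ≤ (1 - 1 / LL) ^ ρ := by
    have h1 : Real.exp (-(2 / LL)) ≤ 1 - 1 / LL := by
      have h2 := Real.add_one_le_exp (2 / LL)
      have h3 : 1 ≤ (1 - 1 / LL) * Real.exp (2 / LL) := by
        refine le_trans ?_ (mul_le_mul_of_nonneg_left h2 (by linarith))
        have e1 : (1 - 1 / LL) * (2 / LL + 1) = 1 + 1 / LL - 2 / LL * (1 / LL) := by ring
        rw [e1]
        have e2 : 2 / LL ≤ 1 := by
          rw [div_le_one hLL0]; linarith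
        have e3 : 0 < 1 / LL := by positivity
        nlinarith
      rw [Real.exp_neg, inv_le_iff_one_le_mul₀ (Real.exp_pos _)]
      exact h3
    calc Real.exp (-2 * C) ≤ Real.exp (ρ * (-(2 / LL))) := by
          apply Real.exp_le_exp.2
          have : (ρ : ℝ) * (2 / LL) ≤ 2 * C := by
            rw [mul_div_assoc', div_le_iff₀ hLL0]
            linarith
          linarith
      _ = Real.exp (-(2 / LL)) ^ ρ := by rw [Real.exp_nat_mul]
      _ ≤ (1 - 1 / LL) ^ ρ := pow_le_pow_left₀ (Real.exp_pos _).le h1 ρ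
  refine ⟨(a0 + 1) * M, r ρ, T, ?_, ?_, ?_, ?_⟩
  · exact Nat.mul_pos (by omega) (by omega)
  · push_cast
    rw [hMR]
    calc ((a0 : ℝ) + 1) * (32 * I) ≤ (a0 + 1) * (32 * (C' * LL ^ 2)) := by gcongr
      _ = _ := by ring
  · push_cast
    have h1 : c1 * (Real.exp (-2 * C) * y) / (4 * (a0 + 1)) * ((a0 + 1) * M) =
        c1 * (Real.exp (-2 * C) * y) * (M / 4) := by
      field_simp
    rw [h1, hT]
    apply mul_le_mul _ _ (by positivity) (by
      have : 0 ≤ 1 - 1 / LL := by linarith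
      positivity)
    · apply mul_le_mul_of_nonneg_left _ hc10.le
      exact mul_le_mul_of_nonneg_right hpow hy0.le
    · rw [hMR]
      linarith
  · refine key.trans ?_
    apply mul_le_mul_of_nonneg_right _ (by positivity)
    have hsn : Real.sqrt n = w ^ 16 := by
      rw [← h.hn, show w ^ 32 = (w ^ 16) ^ 2 by ring, Real.sqrt_sq (by positivity)]
    have h1 : 1 / (n : ℝ) ^ 2 ≤ 1 / n := by
      apply one_div_le_one_div_of_le hn
      nlinarith
    have h2 : (M : ℝ) * (B0 / n + I * (1 / (n : ℝ) ^ 2)) ≤ 32 * (B0 + 1) * (I : ℝ) ^ 2 / n := by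
      rw [hMR]
      calc 32 * (I : ℝ) * (B0 / n + I * (1 / (n : ℝ) ^ 2)) ≤
          32 * (I : ℝ) * (B0 * I / n + I * (1 / n)) := by
            gcongr
            nlinarith
        _ = 32 * (B0 + 1) * (I : ℝ) ^ 2 / n := by ring
    refine h2.trans ?_
    rw [hsn]
    rw [div_le_div_iff₀ hn (by positivity), one_mul]
    have h3 : (I : ℝ) ^ 2 ≤ C' ^ 2 * LL ^ 4 := by
      calc (I : ℝ) ^ 2 ≤ (C' * LL ^ 2) ^ 2 := pow_le_pow_left₀ (by linarith) hIR 2
        _ = _ := by ring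
    calc 32 * (B0 + 1) * (I : ℝ) ^ 2 * w ^ 16 ≤
        32 * (B0 + 1) * (C' ^ 2 * LL ^ 4) * w ^ 16 := by gcongr
      _ = (32 * (B0 + 1) * C' ^ 2) * LL ^ 4 * w ^ 16 := by ring
      _ ≤ w * w * w ^ 16 := by gcongr
      _ = w ^ 18 := by ring
      _ ≤ w ^ 32 := pow_le_pow_right₀ (by linarith) (by norm_num)
      _ = n := h.hn

/-- main theorem: `C (log log n)²` random elements of `A_n` have a constant spectral gap -/
theorem MAINC : ∃ C ε0 : ℝ, 0 < C ∧ 0 < ε0 ∧ ∀ᶠ n : ℕ in atTop, ∀ k : ℕ,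
    C * (Real.log (Real.log n)) ^ 2 ≤ k →
    (Nat.card {x : Fin k → Alt n // ¬ Expanding ε0 x} : ℝ) ≤
      2 / Real.sqrt n * (Fintype.card (Alt n) : ℝ) ^ k := H96FN.fin CORE

end CG45
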