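import Pool.Agent.H45.CG.Rep
import Pool.Agent.H31.CG.NBT

/-! Few letters `b` make many words with many fixed points. -/

set_option autoImplicit false
set_option linter.unusedSectionVars false

namespace CG45
open RC14 RC852 TE852 LL14 LG45 Finset
open scoped InnerProductSpace

variable {n : ℕ}

theorem bad_nonneg (Fx : ℕ) (c : ℕ → Alt n → ℝ) (J s : ℕ) (b : Fin 1 → Alt n) :
    0 ≤ bad Fx c J s b := by
  unfold bad
  refine Finset.sum_nonneg fun w _ => mul_nonneg (Finset.prod_nonneg fun _ _ => abs_nonneg _) ?_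
  split_ifs <;> norm_num

theorem nd_of_gt (Dg : ℕ) (a : Alt n → ℝ) (g : Alt n) (h : Dg < nfix (cp g)) : nd Dg a g = 0 := by
  unfold nd
  rw [if_neg (not_le.2 h)]

theorem sum_bad (Fx Dg : ℕ) (c : ℕ → Alt n → ℝ) (J s : ℕ)
    (hc : ∀ t g, Dg < nfix (cp g) → c t g = 0) (Y : ℝ)
    (hY : ∀ w : Fin J → Alt n, (∀ t, nfix (cp (w t)) ≤ Dg) →
      (Nat.card {b : Fin 1 → Alt n // Fx ≤ nfw s w b} : ℝ) ≤
        Y * Fintype.card (Fin 1 → Alt n)) :
    ∑ b, bad Fx c J s b ≤ (∏ t : Fin J, nrm1 (c t)) * (Y * Fintype.card (Fin 1 → Alt n)) := by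
  classical
  unfold bad
  rw [Finset.sum_comm, ← sum_prod_abs, Finset.sum_mul]
  refine Finset.sum_le_sum fun w _ => ?_
  rw [← Finset.mul_sum]
  by_cases hw : ∀ t, nfix (cp (w t)) ≤ Dg
  · apply mul_le_mul_of_nonneg_left _ (Finset.prod_nonneg fun _ _ => abs_nonneg _)
    refine le_trans (le_of_eq ?_) (hY w hw)
    rw [Nat.card_eq_fintype_card, Fintype.card_subtype, Finset.card_filter]
    push_cast
    rfl
  · push Not at hw
    obtain ⟨t, ht⟩ := hw
    have : ∏ t : Fin J, |c t (w t)| = 0 := by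
      apply Finset.prod_eq_zero (Finset.mem_univ t)
      rw [hc t (w t) ht, abs_zero]
    rw [this, zero_mul, zero_mul]

theorem markov_bad (Fx : ℕ) (c : ℕ → Alt n → ℝ) (J s : ℕ) (X : ℝ) :
    (Nat.card {b : Fin 1 → Alt n // ¬ bad Fx c J s b ≤ X} : ℝ) * X ≤ ∑ b, bad Fx c J s b := by
  classical
  rw [Nat.card_eq_fintype_card, Fintype.card_subtype, ← nsmul_eq_mul, ← Finset.sum_const]
  refine le_trans (Finset.sum_le_sum fun b hb => ?_)
    (Finset.sum_le_sum_of_subset_of_nonneg (Finset.subset_univ _) fun b _ _ =>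
      bad_nonneg Fx c J s b)
  exact (not_le.1 (Finset.mem_filter.1 hb).2).le

/-- for most `b` all the weights of bad words are small -/
theorem BADALL (Fx Dg P : ℕ) (a : Alt n → ℝ) (M1 Y Q : ℝ) (hM1 : 1 ≤ M1) (hM : nrm1 a ≤ M1)
    (hY0 : 0 < Y) (hQ0 : 0 < Q)
    (hY : ∀ k, k + 1 ≤ 2 * P → ∀ s < 2, ∀ w : Fin (2 * k + 2) → Alt n,
      (∀ t, nfix (cp (w t)) ≤ Dg) →
      (Nat.card {b : Fin 1 → Alt n // Fx ≤ nfw s w b} : ℝ) ≤
        Y * Fintype.card (Fin 1 → Alt n)) :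
    (Nat.card {b : Fin 1 → Alt n // ¬ ∀ k, k + 1 ≤ 2 * P → ∀ s < 2,
      bad Fx (cseq k (nd Dg a) (nd Dg (conv (nd Dg a) (nd Dg a)))) (2 * k + 2) s b ≤
        M1 ^ (4 * k + 4) * (Y * Q)} : ℝ) ≤
      4 * P / Q * Fintype.card (Fin 1 → Alt n) := by
  classical
  set A : ℝ := (Fintype.card (Fin 1 → Alt n) : ℝ) with hA
  have hA0 : 0 ≤ A := Nat.cast_nonneg _
  have hone : ∀ k, k + 1 ≤ 2 * P → ∀ s < 2, (Nat.card {b : Fin 1 → Alt n //
      ¬ bad Fx (cseq k (nd Dg a) (nd Dg (conv (nd Dg a) (nd Dg a)))) (2 * k + 2) s b ≤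
        M1 ^ (4 * k + 4) * (Y * Q)} : ℝ) ≤ 1 / Q * A := by
    intro k hk s hs
    have h1 := markov_bad Fx (cseq k (nd Dg a) (nd Dg (conv (nd Dg a) (nd Dg a)))) (2 * k + 2) s
      (M1 ^ (4 * k + 4) * (Y * Q))
    have h2 := sum_bad Fx Dg (cseq k (nd Dg a) (nd Dg (conv (nd Dg a) (nd Dg a)))) (2 * k + 2) s
      (fun t g hg => by
        unfold cseq
        split_ifs <;> exact nd_of_gt Dg _ g hg) Y (hY k hk s hs)
    have h3 : nrm1 (nd Dg a) ≤ M1 := (nrm1_nd_le _ _).trans hM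
    have h4 := prod_cseq_le k (nd Dg a) (nd Dg (conv (nd Dg a) (nd Dg a))) M1 hM1 h3 (by
      refine (nrm1_nd_le _ _).trans ((nrm1_conv _ _).trans ?_)
      rw [sq]
      exact mul_le_mul h3 h3 (nrm1_nonneg _) (by linarith))
    have hp : 0 < M1 ^ (4 * k + 4) * (Y * Q) := by positivity
    have h5 := h1.trans (h2.trans (mul_le_mul_of_nonneg_right h4 (by positivity)))
    rw [← le_div_iff₀ hp] at h5
    refine h5.trans (le_of_eq ?_)
    have hM0 : M1 ^ (4 * k + 4) ≠ 0 := by positivity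
    rw [← hA]
    field_simp
  have hU := RC14.card_union_fin (Z := Fin 1 → Alt n) (Finset.range (2 * P) ×ˢ Finset.range 2)
    (fun b => ¬ ∀ k, k + 1 ≤ 2 * P → ∀ s < 2,
      bad Fx (cseq k (nd Dg a) (nd Dg (conv (nd Dg a) (nd Dg a)))) (2 * k + 2) s b ≤
        M1 ^ (4 * k + 4) * (Y * Q))
    (fun z b => ¬ bad Fx (cseq z.1 (nd Dg a) (nd Dg (conv (nd Dg a) (nd Dg a)))) (2 * z.1 + 2) z.2
      b ≤ M1 ^ (4 * z.1 + 4) * (Y * Q)) (by
      intro b hb
      by_contra hcon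
      push Not at hcon
      apply hb
      intro k hk s hs
      exact hcon (k, s) (by
        rw [Finset.mem_product, Finset.mem_range, Finset.mem_range]
        exact ⟨by omega, hs⟩))
  refine (Nat.cast_le.2 hU).trans ?_
  push_cast
  have hS : ∑ z ∈ Finset.range (2 * P) ×ˢ Finset.range 2, (Nat.card {b : Fin 1 → Alt n //
      ¬ bad Fx (cseq z.1 (nd Dg a) (nd Dg (conv (nd Dg a) (nd Dg a)))) (2 * z.1 + 2) z.2 b ≤
        M1 ^ (4 * z.1 + 4) * (Y * Q)} : ℝ) ≤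
      ∑ _z ∈ Finset.range (2 * P) ×ˢ Finset.range 2, 1 / Q * A := by
    refine Finset.sum_le_sum fun z hz => ?_
    rw [Finset.mem_product, Finset.mem_range, Finset.mem_range] at hz
    exact hone z.1 (by omega) z.2 hz.2
  refine hS.trans (le_of_eq ?_)
  rw [Finset.sum_const, Finset.card_product, Finset.card_range, Finset.card_range, nsmul_eq_mul]
  push_cast
  ring

end CG45
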