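import Pool.Agent.H45.CG.Sv

/-! Operators of functions on the group, expansion of alternating products into words. -/

set_option autoImplicit false
set_option linter.unusedSectionVars false

namespace CG45
open RC14 RC852 TE852 LL14 LG45 Finset
open scoped InnerProductSpace

section fn
variable {G : Type*} [Group G] [Fintype G]

theorem sum_conv_mul (a b : G → ℝ) (φ : G → ℝ) :
    ∑ g, conv a b g * φ g = ∑ h, ∑ k, a h * b k * φ (h * k) := by
  unfold conv
  simp only [Finset.sum_mul]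
  rw [Finset.sum_comm]
  refine Finset.sum_congr rfl fun h _ => ?_
  rw [← Equiv.sum_comp (Equiv.mulLeft h)]
  refine Finset.sum_congr rfl fun k _ => ?_
  simp

theorem conv_nonneg (a b : G → ℝ) (ha : ∀ g, 0 ≤ a g) (hb : ∀ g, 0 ≤ b g) (g : G) :
    0 ≤ conv a b g := Finset.sum_nonneg fun _ _ => mul_nonneg (ha _) (hb _)

theorem abs_conv_le (a b : G → ℝ) (g : G) :
    |conv a b g| ≤ conv (fun g => |a g|) (fun g => |b g|) g := by
  unfold conv
  refine (Finset.abs_sum_le_sum_abs _ _).trans (le_of_eq ?_)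
  exact Finset.sum_congr rfl fun h _ => abs_mul _ _

theorem conv_mono (a b a' b' : G → ℝ) (ha : ∀ g, 0 ≤ a g) (hb : ∀ g, 0 ≤ b g)
    (haa : ∀ g, a g ≤ a' g) (hbb : ∀ g, b g ≤ b' g) (g : G) : conv a b g ≤ conv a' b' g := by
  unfold conv
  exact Finset.sum_le_sum fun h _ => mul_le_mul (haa _) (hbb _) (hb _) ((ha _).trans (haa _))

theorem nrm1_nonneg (a : G → ℝ) : 0 ≤ nrm1 a := Finset.sum_nonneg fun _ _ => abs_nonneg _

theorem nrm1_conv (a b : G → ℝ) : nrm1 (conv a b) ≤ nrm1 a * nrm1 b := by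
  have h1 : nrm1 (conv a b) ≤ ∑ g, conv (fun g => |a g|) (fun g => |b g|) g * 1 := by
    unfold nrm1
    refine Finset.sum_le_sum fun g _ => ?_
    rw [mul_one]
    exact abs_conv_le a b g
  refine h1.trans (le_of_eq ?_)
  rw [sum_conv_mul]
  unfold nrm1
  rw [Finset.sum_mul_sum]
  simp

end fn

section op
variable {G : Type*} [Group G] [Fintype G]
variable {V : Type*} [NormedAddCommGroup V] [InnerProductSpace ℂ V] [FiniteDimensional ℂ V]

theorem opf_apply (ρ : G →* (V ≃ₗᵢ[ℂ] V)) (a : G → ℝ) (v : V) :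
    opf ρ a v = ∑ g, (a g : ℂ) • ρ g v := by
  unfold opf
  rw [LinearMap.sum_apply]
  rfl

theorem opf_conv (ρ : G →* (V ≃ₗᵢ[ℂ] V)) (a b : G → ℝ) :
    opf ρ (conv a b) = opf ρ a * opf ρ b := by
  unfold opf
  rw [Finset.sum_mul_sum]
  have h1 : ∀ g, (conv a b g : ℂ) • op ρ g = ∑ h, ((a h * b (h⁻¹ * g) : ℝ) : ℂ) • op ρ g := by
    intro g
    unfold conv
    rw [← Finset.sum_smul]
    push_cast
    rfl
  simp only [h1]
  rw [Finset.sum_comm]
  refine Finset.sum_congr rfl fun h _ => ?_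
  rw [← Equiv.sum_comp (Equiv.mulLeft h)]
  refine Finset.sum_congr rfl fun k _ => ?_
  rw [Equiv.coe_mulLeft, inv_mul_cancel_left, op_mul, smul_mul_smul_comm]
  push_cast
  rfl

theorem opf_add (ρ : G →* (V ≃ₗᵢ[ℂ] V)) (a b : G → ℝ) :
    opf ρ (fun g => a g + b g) = opf ρ a + opf ρ b := by
  unfold opf
  rw [← Finset.sum_add_distrib]
  refine Finset.sum_congr rfl fun g _ => ?_
  rw [← add_smul]
  push_cast
  rfl

theorem opf_sub (ρ : G →* (V ≃ₗᵢ[ℂ] V)) (a b : G → ℝ) :
    opf ρ (fun g => a g - b g) = opf ρ a - opf ρ b := by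
  unfold opf
  rw [← Finset.sum_sub_distrib]
  refine Finset.sum_congr rfl fun g _ => ?_
  rw [← sub_smul]
  push_cast
  rfl

theorem opf_sum {κ : Type*} (s : Finset κ) (ρ : G →* (V ≃ₗᵢ[ℂ] V)) (α : κ → ℝ) (a : κ → G → ℝ) :
    opf ρ (fun g => ∑ k ∈ s, α k * a k g) = ∑ k ∈ s, (α k : ℂ) • opf ρ (a k) := by
  unfold opf
  simp only [Finset.smul_sum]
  rw [Finset.sum_comm]
  refine Finset.sum_congr rfl fun g _ => ?_
  simp only [smul_smul]
  rw [← Finset.sum_smul]
  push_cast
  rfl

theorem opf_norm (ρ : G →* (V ≃ₗᵢ[ℂ] V)) (a : G → ℝ) (v : V) : ‖opf ρ a v‖ ≤ nrm1 a * ‖v‖ := by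
  rw [opf_apply]
  refine (norm_sum_le _ _).trans (le_of_eq ?_)
  unfold nrm1
  rw [Finset.sum_mul]
  refine Finset.sum_congr rfl fun g _ => ?_
  rw [norm_smul, (ρ g).norm_map, Complex.norm_real, Real.norm_eq_abs]

theorem opf_symm (ρ : G →* (V ≃ₗᵢ[ℂ] V)) (a : G → ℝ) (ha : ∀ g, a g⁻¹ = a g) :
    (opf ρ a).IsSymmetric := by
  intro v w
  rw [opf_apply, opf_apply, sum_inner, inner_sum, ← Equiv.sum_comp (Equiv.inv G)]
  refine Finset.sum_congr rfl fun g _ => ?_
  rw [inner_smul_left, inner_smul_right, Complex.conj_ofReal, Equiv.inv_apply, ha]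
  congr 1
  rw [map_inv]
  exact inner_symm' (ρ g) v w

end op

section words
variable {G : Type*} [Group G] [Fintype G]
variable {V : Type*} [NormedAddCommGroup V] [InnerProductSpace ℂ V] [FiniteDimensional ℂ V]

/-- `g` or its conjugate `h⁻¹ g h` -/
def gq (h g : G) (i : ℕ) : G := if i % 2 = 0 then g else h⁻¹ * g * h

/-- value of an alternating word -/
def gw (h : G) (s : ℕ) {J : ℕ} (w : Fin J → G) : G :=
  (List.ofFn fun t : Fin J => gq h (w t) (s + t)).prod

theorem bq_op (ρ : G →* (V ≃ₗᵢ[ℂ] V)) (h g : G) (i : ℕ) :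
    bq (ρ h) (op ρ g) i = op ρ (gq h g i) := by
  unfold bq gq
  split_ifs
  · rfl
  · rw [op_mul, op_mul]
    congr 2
    ext v
    rw [lo_apply, op_apply, map_inv]
    rfl

theorem bq_opf (ρ : G →* (V ≃ₗᵢ[ℂ] V)) (h : G) (a : G → ℝ) (i : ℕ) :
    bq (ρ h) (opf ρ a) i = ∑ g, (a g : ℂ) • op ρ (gq h g i) := by
  have h1 : bq (ρ h) (opf ρ a) i = ∑ g, (a g : ℂ) • bq (ρ h) (op ρ g) i := by
    unfold bq opf
    split_ifs
    · rfl
    · rw [Finset.mul_sum, Finset.sum_mul]
      refine Finset.sum_congr rfl fun g _ => ?_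
      rw [mul_smul_comm, smul_mul_assoc]
  rw [h1]
  exact Finset.sum_congr rfl fun g _ => by rw [bq_op]

/-- expansion of an alternating product -/
theorem altp_expand (ρ : G →* (V ≃ₗᵢ[ℂ] V)) (h : G) (s : ℕ) (J : ℕ) : ∀ (σ : ℕ) (c : ℕ → G → ℝ),
    altp (fun t => bq (ρ h) (opf ρ (c t)) (s + t)) σ J =
      ∑ w : Fin J → G, ((∏ t : Fin J, c (σ + t) (w t) : ℝ) : ℂ) • op ρ (gw h (s + σ) w) := by
  induction J with
  | zero =>
    intro σ c
    simp [altp, gw, op_one]
  | succ J ih =>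
    intro σ c
    rw [altp_succ, ih (σ + 1) c, bq_opf, Finset.sum_mul_sum]
    rw [← Equiv.sum_comp (Fin.consEquiv (fun _ : Fin (J + 1) => G))]
    rw [Fintype.sum_prod_type]
    refine Finset.sum_congr rfl fun g _ => Finset.sum_congr rfl fun w _ => ?_
    rw [smul_mul_smul_comm, ← op_mul]
    have e1 : ((Fin.consEquiv fun _ : Fin (J + 1) => G) (g, w)) = Fin.cons g w := rfl
    rw [e1]
    have e2 : gw h (s + σ) (Fin.cons g w : Fin (J + 1) → G) = gq h g (s + σ) * gw h (s + (σ + 1)) w := by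
      unfold gw
      rw [List.ofFn_succ, List.prod_cons]
      congr 1
      congr 1
      congr 1
      funext t
      rw [Fin.cons_succ, Fin.val_succ]
      congr 1
      ring
    rw [e2]
    congr 1
    rw [Fin.prod_univ_succ]
    push_cast
    congr 1
    refine Finset.prod_congr rfl fun t _ => ?_
    have e5 : σ + ((t.succ : Fin (J + 1)) : ℕ) = σ + 1 + t := by
      rw [Fin.val_succ]; ring
    rw [Fin.cons_succ, e5]

/-- the trace of an alternating product -/
theorem abs_rtr_altp (ρ : G →* (V ≃ₗᵢ[ℂ] V)) (h : G) (s J : ℕ) (c : ℕ → G → ℝ) :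
    |rtr (altp (fun t => bq (ρ h) (opf ρ (c t)) (s + t)) 0 J)| ≤
      ∑ w : Fin J → G, (∏ t : Fin J, |c t (w t)|) * |rtr (op ρ (gw h s w))| := by
  rw [altp_expand]
  simp only [zero_add, add_zero]
  unfold rtr
  rw [map_sum, Complex.re_sum]
  refine (Finset.abs_sum_le_sum_abs _ _).trans (Finset.sum_le_sum fun w _ => ?_)
  rw [map_smul, smul_eq_mul, Complex.re_ofReal_mul, abs_mul, Finset.abs_prod]

end words

section alt
variable {n : ℕ}

/-- conjugation to the words with alternating exponents -/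
theorem gw_conj (b : Fin 1 → Alt n) (s : ℕ) {J : ℕ} (w : Fin J → Alt n) :
    cp (if s % 2 = 0 then b 0 else 1) * cp (gw (b 0) s w) =
      bwd cp (fun i => cp (b i)) (altw s w) * cp (if (s + J) % 2 = 0 then b 0 else 1) := by
  induction J generalizing s with
  | zero =>
    simp [gw, bwd, cp]
  | succ J ih =>
    obtain ⟨g, w', rfl⟩ : ∃ g w', w = Fin.cons g w' := ⟨w 0, Fin.tail w, (Fin.cons_self_tail w).symm⟩
    have e2 : gw (b 0) s (Fin.cons g w' : Fin (J + 1) → Alt n) =
        gq (b 0) g s * gw (b 0) (s + 1) w' := by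
      unfold gw
      rw [List.ofFn_succ, List.prod_cons]
      congr 1
      congr 1
      congr 1
      funext t
      rw [Fin.cons_succ, Fin.val_succ]
      congr 1
      ring
    have e3 : bwd cp (fun i => cp (b i)) (altw s (Fin.cons g w' : Fin (J + 1) → Alt n)) =
        blk cp (fun i => cp (b i)) (g, (0, decide (s % 2 = 0))) *
          bwd cp (fun i => cp (b i)) (altw (s + 1) w') := by
      unfold bwd
      rw [List.ofFn_succ, List.prod_cons]
      congr 1
      · simp [altw]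
      · congr 1
        congr 1
        funext t
        have : altw s (Fin.cons g w' : Fin (J + 1) → Alt n) t.succ = altw (s + 1) w' t := by
          unfold altw
          rw [Fin.cons_succ]
          congr 3
          rw [Fin.val_succ]
          ring_nf
        rw [this]
    have h1 := ih (s + 1) w'
    have e4 : s + 1 + J = s + (J + 1) := by ring
    rw [e4] at h1
    rw [e2, e3]
    have hmul : ∀ x y : Alt n, cp (x * y) = cp x * cp y := fun x y => rfl
    rw [hmul, mul_assoc, ← h1]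
    rw [← mul_assoc, ← mul_assoc]
    congr 1
    unfold gq blk sl
    rcases Nat.mod_two_eq_zero_or_one s with h2 | h2
    · have h3 : (s + 1) % 2 ≠ 0 := by omega
      simp only [h2, if_true, h3, if_false, decide_true]
      simp [cp]
    · have h3 : (s + 1) % 2 = 0 := by omega
      simp only [h2, h3, if_true, one_ne_zero, if_false, decide_false]
      simp [cp, mul_assoc]

theorem nfix_conj (u g : Equiv.Perm (Fin n)) : nfix (u * g * u⁻¹) = nfix g := by
  unfold nfix
  refine Finset.card_bij (fun a _ => u⁻¹ a) ?_ ?_ ?_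
  · intro a ha
    rw [Finset.mem_filter] at ha ⊢
    refine ⟨Finset.mem_univ _, ?_⟩
    have h1 := ha.2
    simp only [Equiv.Perm.mul_apply] at h1
    have := congrArg (fun x => u⁻¹ x) h1
    simpa using this
  · intro a _ b _ h
    exact u⁻¹.injective h
  · intro b hb
    rw [Finset.mem_filter] at hb
    refine ⟨u b, ?_, by simp⟩
    rw [Finset.mem_filter]
    refine ⟨Finset.mem_univ _, ?_⟩
    simp [Equiv.Perm.mul_apply, hb.2]

/-- for words of even length -/
theorem nfix_gw (b : Fin 1 → Alt n) (s J : ℕ) (hJ : Even J) (w : Fin J → Alt n) :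
    nfix (cp (gw (b 0) s w)) = nfw s w b := by
  have h1 := gw_conj b s w
  have h2 : (s + J) % 2 = s % 2 := by
    obtain ⟨m, rfl⟩ := hJ
    omega
  rw [h2] at h1
  unfold nfw
  set u := cp (if s % 2 = 0 then b 0 else 1) with hu
  have h3 : bwd cp (fun i => cp (b i)) (altw s w) = u * cp (gw (b 0) s w) * u⁻¹ := by
    rw [h1, mul_inv_cancel_right]
  rw [h3, nfix_conj]

end alt

end CG45
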