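import Pool.Agent.H45.CG.Stp

/-! The mass of the elements with many fixed points. -/

set_option autoImplicit false
set_option linter.unusedSectionVars false

namespace CG45
open RC14 RC852 TE852 LL14 LG45 Finset
open scoped InnerProductSpace

variable {n : ℕ}

/-- mass of the elements with more than `Dg` fixed points -/
noncomputable def dgm (Dg : ℕ) (a : Alt n → ℝ) : ℝ :=
  ∑ g, if nfix (cp g) ≤ Dg then 0 else a g

theorem dgm_cpow (μ k Dg : ℕ) (hμ : μ ≤ Dg) (x : Fin k → Alt n) (η t : ℝ) (hη : 0 ≤ η)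
    (hη1 : 4 * k * η ≤ 1)
    (hgap : ∀ f : RC14.V μ n, ∑ a, f a = 0 → t * ‖f‖ ^ 2 ≤ En (repA μ n) x f) (m : ℕ) :
    dgm Dg (cpow (stp η x) m) ≤
      (1 + Fintype.card (Tup μ n) * Real.exp (-(η * t * m))) / (Dg.descFactorial μ : ℝ) := by
  classical
  have hD : (0 : ℝ) < (Dg.descFactorial μ : ℝ) := by exact_mod_cast Nat.descFactorial_pos.mpr hμ
  have hk0 : (0 : ℝ) ≤ k := Nat.cast_nonneg _
  have hη2 : 2 * k * η ≤ 1 := by nlinarith [mul_nonneg hk0 hη]
  have hPn : ∀ g, 0 ≤ cpow (stp η x) m g := cpow_nonneg _ (stp_nonneg η hη hη2 x) m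
  rw [le_div_iff₀ hD]
  have h1 := RET.pow_trace (opf (repA μ n) (stp η x))
    (opf_symm _ _ (stp_inv η x)) (by
      rw [opf_apply]
      simp only [RET.rep_one]
      rw [← Finset.sum_smul]
      have := sum_stp η x
      have h2 : ∑ g, ((stp η x g : ℝ) : ℂ) = 1 := by
        rw [← Complex.ofReal_sum, this, Complex.ofReal_one]
      rw [h2, one_smul]) (η * t) (fun f _ => by
      rw [stp_energy]
      have h3 := RET.En_le (repA μ n) x f
      have h4 := mul_le_mul_of_nonneg_left h3 hη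
      have h5 : η * (4 * k * ‖f‖ ^ 2) = (4 * k * η) * ‖f‖ ^ 2 := by ring
      have h6 : (4 * k * η) * ‖f‖ ^ 2 ≤ 1 * ‖f‖ ^ 2 :=
        mul_le_mul_of_nonneg_right hη1 (sq_nonneg _)
      linarith) (fun f hf => by
      rw [stp_energy]
      have h3 := mul_le_mul_of_nonneg_left (hgap f hf) hη
      linarith) m
  refine le_trans ?_ h1
  rw [← opf_cpow]
  have h2 : rtr (opf (repA μ n) (cpow (stp η x) m)) =
      ∑ g, cpow (stp η x) m g * ((nfix (cp g)).descFactorial μ : ℝ) := by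
    unfold opf rtr
    rw [map_sum, Complex.re_sum]
    refine Finset.sum_congr rfl fun g _ => ?_
    rw [map_smul, smul_eq_mul, Complex.re_ofReal_mul]
    have h3 := RET.chr_repA (m := μ) g
    unfold chr at h3
    rw [h3, Complex.natCast_re]
    rfl
  rw [h2]
  unfold dgm
  rw [Finset.sum_mul]
  refine Finset.sum_le_sum fun g _ => ?_
  split_ifs with h3
  · rw [zero_mul]
    exact mul_nonneg (hPn g) (Nat.cast_nonneg _)
  · apply mul_le_mul_of_nonneg_left _ (hPn g)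
    exact_mod_cast Nat.descFactorial_le μ (by omega)

/-- numerical form -/
theorem dgm_cpow2 (r k Dg : ℕ) (hn : 2 ≤ n) (x : Fin k → Alt n) (η t ε c : ℝ) (hη : 0 ≤ η)
    (hη1 : 4 * k * η ≤ 1) (hε : 0 ≤ ε) (hε1 : ε ≤ 8) (hc : 0 ≤ c) (hx : Good1 n r t x)
    (hr : r + 2 ≤ n) (δ i : ℕ) (hδ : c ≤ η * t * δ)
    (hμ : c * i / Real.log n + 1 ≤ r)
    (hD : (n : ℝ) ≤ (n : ℝ) ^ (ε / 8) * ((Dg : ℝ) - r)) :
    dgm Dg (cpow (stp η x) (δ * i)) ≤ 2 * n * Real.exp (-((1 - ε / 8) * c)) ^ i := by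
  have hn0 : (0 : ℝ) < n := by exact_mod_cast (by omega : 0 < n)
  have hn1 : (1 : ℝ) < n := by exact_mod_cast (by omega : 1 < n)
  set L := Real.log n with hL
  have hL0 : 0 < L := Real.log_pos hn1
  set μ := ⌈c * i / L⌉₊ with hμd
  have hci : 0 ≤ c * i / L := by positivity
  have h1 : c * i / L ≤ μ := Nat.le_ceil _
  have h2 : (μ : ℝ) ≤ c * i / L + 1 := (Nat.ceil_lt_add_one hci).le
  have h3 : μ ≤ r := by
    have : (μ : ℝ) ≤ r := h2.trans hμ
    exact_mod_cast this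
  have hDr : (0 : ℝ) < (Dg : ℝ) - r := by
    by_contra hcon
    push Not at hcon
    have h4 : 0 < (n : ℝ) ^ (ε / 8) := Real.rpow_pos_of_pos hn0 _
    nlinarith
  have hDr' : r < Dg := by
    have : (r : ℝ) < Dg := by linarith
    exact_mod_cast this
  have hgap := FRV n μ k (by omega) x t (fun j hj1 hj2 f hf => hx j hj1 (hj2.trans h3) f hf)
  have h4 := dgm_cpow μ k Dg (by omega) x η t hη hη1 hgap (δ * i)
  refine h4.trans ?_
  -- the denominator
  have h5 : ((Dg : ℝ) - r) ^ μ ≤ (Dg.descFactorial μ : ℝ) := by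
    have h6 : ((Dg + 1 - μ : ℕ) : ℝ) ^ μ ≤ (Dg.descFactorial μ : ℝ) := by
      exact_mod_cast Nat.pow_sub_le_descFactorial Dg μ
    refine le_trans (pow_le_pow_left₀ hDr.le ?_ μ) h6
    rw [Nat.cast_sub (by omega)]
    push_cast
    have : (μ : ℝ) ≤ r := by exact_mod_cast h3
    linarith
  have h6 : (Fintype.card (Tup μ n) : ℝ) ≤ (n : ℝ) ^ μ := by exact_mod_cast card_Tup_le μ n
  have h7 : Real.exp (-(η * t * ((δ * i : ℕ) : ℝ))) ≤ Real.exp (-(c * i)) := by
    apply Real.exp_le_exp.2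
    push_cast
    have : c * i ≤ η * t * δ * i := mul_le_mul_of_nonneg_right hδ (Nat.cast_nonneg _)
    linarith
  have h8 : 1 ≤ (n : ℝ) ^ μ * Real.exp (-(c * i)) := by
    have e1 : (n : ℝ) ^ μ = Real.exp (L * μ) := by
      rw [mul_comm, Real.exp_nat_mul, Real.exp_log hn0]
    rw [e1, ← Real.exp_add]
    apply Real.one_le_exp
    rw [div_le_iff₀ hL0] at h1
    linarith
  have h9 : (1 + Fintype.card (Tup μ n) * Real.exp (-(η * t * ((δ * i : ℕ) : ℝ)))) ≤
      2 * ((n : ℝ) ^ μ * Real.exp (-(c * i))) := by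
    have : (Fintype.card (Tup μ n) : ℝ) * Real.exp (-(η * t * ((δ * i : ℕ) : ℝ))) ≤
        (n : ℝ) ^ μ * Real.exp (-(c * i)) :=
      mul_le_mul h6 h7 (Real.exp_pos _).le (by positivity)
    linarith
  have h10 : 0 < ((Dg : ℝ) - r) ^ μ := by positivity
  have h11 : (1 + Fintype.card (Tup μ n) * Real.exp (-(η * t * ((δ * i : ℕ) : ℝ)))) /
      (Dg.descFactorial μ : ℝ) ≤ 2 * ((n : ℝ) ^ μ * Real.exp (-(c * i))) / ((Dg : ℝ) - r) ^ μ := by
    apply div_le_div₀ (by positivity) h9 h10 h5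
  refine h11.trans ?_
  have h12 : (n : ℝ) ^ μ ≤ ((n : ℝ) ^ (ε / 8)) ^ μ * ((Dg : ℝ) - r) ^ μ := by
    rw [← mul_pow]
    exact pow_le_pow_left₀ hn0.le hD μ
  have h13 : ((n : ℝ) ^ (ε / 8)) ^ μ ≤ Real.exp (ε / 8 * (c * i)) * n := by
    have e1 : ((n : ℝ) ^ (ε / 8)) ^ μ = Real.exp (ε / 8 * (L * μ)) := by
      rw [← Real.rpow_natCast, ← Real.rpow_mul hn0.le, Real.rpow_def_of_pos hn0]
      congr 1
      ring
    have e2 : Real.exp (ε / 8 * (c * i)) * n = Real.exp (ε / 8 * (c * i) + L) := by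
      rw [Real.exp_add, Real.exp_log hn0]
    rw [e1, e2]
    apply Real.exp_le_exp.2
    have e3 : L * μ ≤ c * i + L := by
      have := mul_le_mul_of_nonneg_left h2 hL0.le
      have e4 : L * (c * i / L + 1) = c * i + L := by field_simp
      linarith
    have e5 : ε / 8 * (L * μ) ≤ ε / 8 * (c * i + L) :=
      mul_le_mul_of_nonneg_left e3 (by positivity)
    have e6 : ε / 8 * L ≤ L := by nlinarith
    linarith
  rw [div_le_iff₀ h10]
  have h14 : Real.exp (-((1 - ε / 8) * c)) ^ i =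
      Real.exp (-(c * i)) * Real.exp (ε / 8 * (c * i)) := by
    rw [← Real.exp_nat_mul, ← Real.exp_add]
    congr 1
    ring
  rw [h14]
  have h15 := h12.trans (mul_le_mul_of_nonneg_right h13 h10.le)
  have h16 := mul_le_mul_of_nonneg_right h15 (Real.exp_pos (-(c * i))).le
  calc 2 * ((n : ℝ) ^ μ * Real.exp (-(c * i)))
      ≤ 2 * (Real.exp (ε / 8 * (c * i)) * n * ((Dg : ℝ) - r) ^ μ * Real.exp (-(c * i))) := by
        linarith
    _ = _ := by ring

end CG45
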