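import Pool.Agent.H45.CG.Defs

/-! Operators which are diagonal in an orthonormal basis. -/

set_option autoImplicit false

namespace CG45
open RC14 RC852 TE852 LL14 LG45 Finset
open scoped InnerProductSpace

variable {V : Type*} [NormedAddCommGroup V] [InnerProductSpace ℂ V]
variable {ι : Type*} [Fintype ι]

/-- the operator with eigenvectors `b i` and eigenvalues `c i` -/
noncomputable def dg (b : OrthonormalBasis ι ℂ V) (c : ι → ℝ) : Module.End ℂ V :=
  b.toBasis.constr ℂ (fun i => (c i : ℂ) • b i)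

theorem dg_basis (b : OrthonormalBasis ι ℂ V) (c : ι → ℝ) (i : ι) :
    dg b c (b i) = (c i : ℂ) • b i := by
  have := b.toBasis.constr_basis ℂ (fun i => (c i : ℂ) • b i) i
  rwa [OrthonormalBasis.coe_toBasis] at this

theorem inner_dg (b : OrthonormalBasis ι ℂ V) (c : ι → ℝ) (i : ι) (v : V) :
    ⟪b i, dg b c v⟫_ℂ = (c i : ℂ) * ⟪b i, v⟫_ℂ := by
  classical
  conv_lhs => rw [← b.sum_repr v]
  rw [map_sum, inner_sum]
  simp only [map_smul, dg_basis, inner_smul_right]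
  rw [Finset.sum_eq_single i]
  · rw [b.inner_eq_one i, mul_one, b.repr_apply_apply]
    ring
  · intro j _ hji
    rw [b.inner_eq_zero (Ne.symm hji), mul_zero, mul_zero]
  · simp

theorem ext_inner' (b : OrthonormalBasis ι ℂ V) {v w : V} (h : ∀ i, ⟪b i, v⟫_ℂ = ⟪b i, w⟫_ℂ) :
    v = w := by
  rw [← b.sum_repr v, ← b.sum_repr w]
  refine Finset.sum_congr rfl fun i _ => ?_
  rw [b.repr_apply_apply, b.repr_apply_apply, h i]

theorem dg_eq (b : OrthonormalBasis ι ℂ V) (c : ι → ℝ) (A : Module.End ℂ V)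
    (h : ∀ i, A (b i) = (c i : ℂ) • b i) : A = dg b c := by
  apply b.toBasis.ext
  intro i
  rw [OrthonormalBasis.coe_toBasis, h, dg_basis]

theorem dg_mul (b : OrthonormalBasis ι ℂ V) (c d : ι → ℝ) :
    dg b c * dg b d = dg b (fun i => c i * d i) := by
  apply dg_eq
  intro i
  rw [Module.End.mul_apply, dg_basis, map_smul, dg_basis, smul_smul]
  congr 1
  push_cast
  ring

theorem dg_one (b : OrthonormalBasis ι ℂ V) : dg b (fun _ => 1) = 1 := by
  symm
  apply dg_eq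
  intro i
  simp

theorem dg_pow (b : OrthonormalBasis ι ℂ V) (c : ι → ℝ) (m : ℕ) :
    dg b c ^ m = dg b (fun i => c i ^ m) := by
  induction m with
  | zero => simp [dg_one]
  | succ m ih =>
    rw [pow_succ, ih, dg_mul]
    congr 1

theorem dg_add (b : OrthonormalBasis ι ℂ V) (c d : ι → ℝ) :
    dg b c + dg b d = dg b (fun i => c i + d i) := by
  apply dg_eq
  intro i
  rw [LinearMap.add_apply, dg_basis, dg_basis, ← add_smul]
  congr 1
  push_cast
  ring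

theorem dg_smul (b : OrthonormalBasis ι ℂ V) (a : ℝ) (c : ι → ℝ) :
    (a : ℂ) • dg b c = dg b (fun i => a * c i) := by
  apply dg_eq
  intro i
  rw [LinearMap.smul_apply, dg_basis, smul_smul]
  congr 1
  push_cast
  ring

theorem dg_sum {κ : Type*} (s : Finset κ) (b : OrthonormalBasis ι ℂ V) (a : κ → ℝ)
    (c : κ → ι → ℝ) :
    ∑ k ∈ s, (a k : ℂ) • dg b (c k) = dg b (fun i => ∑ k ∈ s, a k * c k i) := by
  apply dg_eq
  intro i
  rw [LinearMap.sum_apply]
  simp only [LinearMap.smul_apply, dg_basis, smul_smul]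
  rw [← Finset.sum_smul]
  congr 1
  push_cast
  rfl

theorem dg_symm (b : OrthonormalBasis ι ℂ V) (c : ι → ℝ) : (dg b c).IsSymmetric := by
  intro v w
  rw [← b.sum_inner_mul_inner (dg b c v) w, ← b.sum_inner_mul_inner v (dg b c w)]
  refine Finset.sum_congr rfl fun i _ => ?_
  rw [inner_dg, ← inner_conj_symm (dg b c v) (b i), inner_dg, map_mul, Complex.conj_ofReal,
    inner_conj_symm]
  ring

theorem nsq (b : OrthonormalBasis ι ℂ V) (v : V) : ‖v‖ ^ 2 = ∑ i, ‖⟪b i, v⟫_ℂ‖ ^ 2 :=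
  (b.sum_sq_norm_inner_right v).symm

theorem nsq_dg (b : OrthonormalBasis ι ℂ V) (c : ι → ℝ) (v : V) :
    ‖dg b c v‖ ^ 2 = ∑ i, c i ^ 2 * ‖⟪b i, v⟫_ℂ‖ ^ 2 := by
  rw [nsq b]
  refine Finset.sum_congr rfl fun i _ => ?_
  rw [inner_dg, norm_mul, mul_pow, Complex.norm_real, Real.norm_eq_abs, sq_abs]

theorem re_dg (b : OrthonormalBasis ι ℂ V) (c : ι → ℝ) (v : V) :
    (⟪dg b c v, v⟫_ℂ).re = ∑ i, c i * ‖⟪b i, v⟫_ℂ‖ ^ 2 := by
  rw [← b.sum_inner_mul_inner (dg b c v) v, Complex.re_sum]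
  refine Finset.sum_congr rfl fun i _ => ?_
  rw [← inner_conj_symm (dg b c v) (b i), inner_dg, map_mul, Complex.conj_ofReal, mul_assoc,
    mul_comm (starRingEnd ℂ _) _, Complex.mul_conj, ← Complex.ofReal_mul, Complex.ofReal_re,
    Complex.normSq_eq_norm_sq]

theorem dg_norm_le (b : OrthonormalBasis ι ℂ V) (c : ι → ℝ) (hc : ∀ i, |c i| ≤ 1) (v : V) :
    ‖dg b c v‖ ≤ ‖v‖ := by
  refine (pow_le_pow_iff_left₀ (norm_nonneg _) (norm_nonneg _) two_ne_zero).1 ?_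
  rw [nsq_dg, nsq b v]
  refine Finset.sum_le_sum fun i _ => ?_
  have h1 : c i ^ 2 ≤ 1 := by
    rw [← sq_abs]
    exact pow_le_one₀ (abs_nonneg _) (hc i)
  have h2 : 0 ≤ ‖⟪b i, v⟫_ℂ‖ ^ 2 := by positivity
  nlinarith

open Classical in
/-- spectral projection -/
noncomputable def spj (b : OrthonormalBasis ι ℂ V) (s : Set ι) : Module.End ℂ V :=
  dg b (fun i => if i ∈ s then 1 else 0)

theorem spj_symIdem (b : OrthonormalBasis ι ℂ V) (s : Set ι) : SymIdem (spj b s) := by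
  refine ⟨dg_symm _ _, ?_⟩
  unfold spj
  rw [dg_mul]
  congr 1
  funext i
  split_ifs <;> simp

theorem spj_idem (b : OrthonormalBasis ι ℂ V) (s : Set ι) (v : V) :
    spj b s (spj b s v) = spj b s v := by
  have := congrArg (fun A : Module.End ℂ V => A v) (spj_symIdem b s).2
  exact this

theorem spj_norm_le (b : OrthonormalBasis ι ℂ V) (s : Set ι) (v : V) : ‖spj b s v‖ ≤ ‖v‖ := by
  apply dg_norm_le
  intro i
  split_ifs <;> simp

/-- orthogonal decomposition -/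
theorem spj_pyth (b : OrthonormalBasis ι ℂ V) (s : Set ι) (v : V) :
    ‖v‖ ^ 2 = ‖spj b s v‖ ^ 2 + ‖v - spj b s v‖ ^ 2 := by
  rw [nsq b v, nsq b (spj b s v), nsq b (v - spj b s v), ← Finset.sum_add_distrib]
  refine Finset.sum_congr rfl fun i _ => ?_
  rw [inner_sub_right, spj, inner_dg]
  split_ifs <;> simp

/-- additivity of a diagonal form -/
theorem spj_add (b : OrthonormalBasis ι ℂ V) (s : Set ι) (c : ι → ℝ) (v : V) :
    ∑ i, c i * ‖⟪b i, v⟫_ℂ‖ ^ 2 = ∑ i, c i * ‖⟪b i, spj b s v⟫_ℂ‖ ^ 2 +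
      ∑ i, c i * ‖⟪b i, v - spj b s v⟫_ℂ‖ ^ 2 := by
  rw [← Finset.sum_add_distrib]
  refine Finset.sum_congr rfl fun i _ => ?_
  rw [inner_sub_right, spj, inner_dg]
  split_ifs <;> simp

/-- a diagonal form on the range -/
theorem spj_le (b : OrthonormalBasis ι ℂ V) (s : Set ι) (c : ι → ℝ) (τ : ℝ)
    (hs : ∀ i ∈ s, c i ≤ τ) (v : V) :
    ∑ i, c i * ‖⟪b i, spj b s v⟫_ℂ‖ ^ 2 ≤ τ * ‖spj b s v‖ ^ 2 := by
  rw [nsq b (spj b s v), Finset.mul_sum]
  refine Finset.sum_le_sum fun i _ => ?_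
  rw [spj, inner_dg]
  split_ifs with h
  · exact mul_le_mul_of_nonneg_right (hs i h) (by positivity)
  · simp

theorem le_spj (b : OrthonormalBasis ι ℂ V) (s : Set ι) (c : ι → ℝ) (τ : ℝ)
    (hs : ∀ i ∈ s, τ ≤ c i) (v : V) :
    τ * ‖spj b s v‖ ^ 2 ≤ ∑ i, c i * ‖⟪b i, spj b s v⟫_ℂ‖ ^ 2 := by
  rw [nsq b (spj b s v), Finset.mul_sum]
  refine Finset.sum_le_sum fun i _ => ?_
  rw [spj, inner_dg]
  split_ifs with h
  · exact mul_le_mul_of_nonneg_right (hs i h) (by positivity)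
  · simp

/-- a diagonal form on the complement of the range -/
theorem spj_compl (b : OrthonormalBasis ι ℂ V) (s : Set ι) (c : ι → ℝ) (τ : ℝ)
    (hs : ∀ i, i ∉ s → τ ≤ c i) (v : V) :
    τ * ‖v - spj b s v‖ ^ 2 ≤ ∑ i, c i * ‖⟪b i, v - spj b s v⟫_ℂ‖ ^ 2 := by
  rw [nsq b (v - spj b s v), Finset.mul_sum]
  refine Finset.sum_le_sum fun i _ => ?_
  rw [inner_sub_right, spj, inner_dg]
  split_ifs with h
  · simp
  · exact mul_le_mul_of_nonneg_right (hs i h) (by positivity)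

theorem spj_compl_le (b : OrthonormalBasis ι ℂ V) (s : Set ι) (c : ι → ℝ) (τ : ℝ)
    (hs : ∀ i, i ∉ s → c i ≤ τ) (v : V) :
    ∑ i, c i * ‖⟪b i, v - spj b s v⟫_ℂ‖ ^ 2 ≤ τ * ‖v - spj b s v‖ ^ 2 := by
  rw [nsq b (v - spj b s v), Finset.mul_sum]
  refine Finset.sum_le_sum fun i _ => ?_
  rw [inner_sub_right, spj, inner_dg]
  split_ifs with h
  · simp
  · exact mul_le_mul_of_nonneg_right (hs i h) (by positivity)

/-- diagonalisation of a symmetric operator -/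
theorem exists_dg [FiniteDimensional ℂ V] (T : Module.End ℂ V) (hT : T.IsSymmetric) :
    ∃ (b : OrthonormalBasis (Fin (Module.finrank ℂ V)) ℂ V)
      (μ : Fin (Module.finrank ℂ V) → ℝ), T = dg b μ := by
  refine ⟨hT.eigenvectorBasis rfl, hT.eigenvalues rfl, dg_eq _ _ _ fun i => ?_⟩
  exact hT.apply_eigenvectorBasis rfl i

end CG45
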