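import Pool.Agent.H45.CG.AmpN

/-! Alternating products and their Hilbert-Schmidt norms. -/

set_option autoImplicit false

namespace CG45
open RC14 RC852 TE852 LL14 LG45 Finset
open scoped InnerProductSpace

section monoid
variable {R : Type*} [Monoid R]

theorem altp_succ (B : ℕ → R) (σ k : ℕ) : altp B σ (k + 1) = B σ * altp B (σ + 1) k := rfl

theorem altp_succ' (B : ℕ → R) (σ k : ℕ) : altp B σ (k + 1) = altp B σ k * B (σ + k) := by
  induction k generalizing σ with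
  | zero => simp [altp]
  | succ k ih =>
    rw [altp_succ, ih, altp_succ, mul_assoc]
    congr 3
    ring_nf

/-- the product in the opposite order -/
def altr (B : ℕ → R) : ℕ → ℕ → R
  | _, 0 => 1
  | σ, k + 1 => altr B (σ + 1) k * B σ

end monoid

variable {V : Type*} [NormedAddCommGroup V] [InnerProductSpace ℂ V] [FiniteDimensional ℂ V]

theorem adj_altp (B : ℕ → Module.End ℂ V) (hB : ∀ i, (B i).IsSymmetric) (σ k : ℕ) :
    LinearMap.adjoint (altp B σ k) = altr B σ k := by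
  induction k generalizing σ with
  | zero =>
    change LinearMap.adjoint (1 : Module.End ℂ V) = 1
    exact HSL.adjoint_symm _ (fun v w => rfl)
  | succ k ih =>
    have h1 := LinearMap.adjoint_comp (B σ) (altp B (σ + 1) k)
    rw [HSL.adjoint_symm _ (hB σ), ih] at h1
    exact h1

theorem hs_mul_le (A B : Module.End ℂ V) (c : ℝ) (hc : ∀ v, ‖A v‖ ≤ c * ‖v‖) :
    hs (A * B) ≤ c ^ 2 * hs B := by
  rw [hs_eq_sum (stdOrthonormalBasis ℂ V), hs_eq_sum (stdOrthonormalBasis ℂ V), Finset.mul_sum]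
  refine Finset.sum_le_sum fun i _ => ?_
  rw [Module.End.mul_apply, ← mul_pow]
  exact pow_le_pow_left₀ (norm_nonneg _) (hc _) 2

theorem norm_tr_le (A B : Module.End ℂ V) (c d X : ℝ) (hc : 0 ≤ c) (hd : 0 ≤ d) (hX : 0 ≤ X)
    (hA : hs A ≤ c ^ 2 * X) (hB : hs B ≤ d ^ 2 * X) : |rtr (A * B)| ≤ c * d * X := by
  have h1 := trace_mul_le A B
  have h2 : |rtr (A * B)| ≤ ‖LinearMap.trace ℂ V (A * B)‖ := Complex.abs_re_le_norm _
  have h3 : ‖LinearMap.trace ℂ V (A * B)‖ ^ 2 ≤ (c * d * X) ^ 2 := by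
    refine h1.trans ?_
    calc hs A * hs B ≤ (c ^ 2 * X) * (d ^ 2 * X) :=
          mul_le_mul hA hB (hs_nonneg _) (by positivity)
      _ = (c * d * X) ^ 2 := by ring
  exact h2.trans ((pow_le_pow_iff_left₀ (norm_nonneg _) (by positivity) two_ne_zero).1 h3)

/-- one step of the recursion -/
theorem HSREC1 (B N Z : ℕ → Module.End ℂ V) (hB : ∀ i, (B i).IsSymmetric)
    (hsq : ∀ i, B i * B i = N i + Z i) (ζ : ℝ) (hζ : 0 ≤ ζ) (hZ : ∀ i v, ‖Z i v‖ ≤ ζ * ‖v‖)
    (hN : ∀ i v, ‖N i v‖ ≤ 2 * ‖v‖) (σ k : ℕ) :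
    hs (altp B σ (k + 2)) ≤ ζ * hs (altp B σ (k + 1)) + 2 * ζ * hs (altp B (σ + 1) k) +
      |rtr (N (σ + k + 1) * (altr B (σ + 1) k * (N σ * altp B (σ + 1) k)))| := by
  obtain ⟨C, hC⟩ : ∃ C, C = altp B (σ + 1) k := ⟨_, rfl⟩
  obtain ⟨l, hl⟩ : ∃ l, l = σ + k + 1 := ⟨_, rfl⟩
  have hCa : altr B (σ + 1) k = LinearMap.adjoint C := by rw [hC, adj_altp B hB]
  have e1 : altp B σ (k + 1) = B σ * C := by rw [altp_succ, hC]
  have e2 : altp B σ (k + 2) = B σ * C * B l := by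
    rw [altp_succ' B σ (k + 1), e1, hl, add_assoc]
  have hadj : LinearMap.adjoint (B σ * C) = LinearMap.adjoint C * B σ := by
    have h1 := LinearMap.adjoint_comp (B σ) C
    rw [HSL.adjoint_symm _ (hB σ)] at h1
    exact h1
  -- the value
  have h1 : hs (B σ * C * B l) =
      rtr (N l * (LinearMap.adjoint C * (N σ * C))) + rtr (N l * LinearMap.adjoint C * (Z σ * C)) +
      rtr (Z l * LinearMap.adjoint (B σ * C) * (B σ * C)) := by
    have h2 : LinearMap.adjoint (B σ * C * B l) = B l * LinearMap.adjoint (B σ * C) := by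
      have h1 := LinearMap.adjoint_comp (B σ * C) (B l)
      rw [HSL.adjoint_symm _ (hB l)] at h1
      exact h1
    unfold hs
    rw [h2]
    have h3 : rtr (B l * LinearMap.adjoint (B σ * C) * (B σ * C * B l)) =
        rtr (B l * B l * (LinearMap.adjoint (B σ * C) * (B σ * C))) := by
      unfold rtr
      rw [← mul_assoc, LinearMap.trace_mul_comm]
      simp only [mul_assoc]
    rw [h3, hsq l, add_mul, LG45.rtr_add, hadj]
    have h4 : LinearMap.adjoint C * B σ * (B σ * C) = LinearMap.adjoint C * (N σ * C) +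
        LinearMap.adjoint C * (Z σ * C) := by
      rw [← mul_add, ← add_mul, ← hsq]
      simp only [mul_assoc]
    rw [show N l * (LinearMap.adjoint C * B σ * (B σ * C)) = N l * (LinearMap.adjoint C * (N σ * C)) +
        N l * LinearMap.adjoint C * (Z σ * C) by rw [h4, mul_add]; simp only [mul_assoc],
      LG45.rtr_add]
    congr 2
  -- the first error
  have hX : 0 ≤ hs (B σ * C) := hs_nonneg _
  have hX2 : 0 ≤ hs C := hs_nonneg _
  have h2 : |rtr (Z l * LinearMap.adjoint (B σ * C) * (B σ * C))| ≤ ζ * hs (B σ * C) := by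
    have := norm_tr_le (Z l * LinearMap.adjoint (B σ * C)) (B σ * C) ζ 1 (hs (B σ * C)) hζ
      zero_le_one hX (by
        have := hs_mul_le (Z l) (LinearMap.adjoint (B σ * C)) ζ (hZ l)
        rwa [hs_adjoint] at this) (by rw [one_pow, one_mul])
    rwa [mul_one] at this
  have h3 : |rtr (N l * LinearMap.adjoint C * (Z σ * C))| ≤ 2 * ζ * hs C := by
    exact norm_tr_le (N l * LinearMap.adjoint C) (Z σ * C) 2 ζ (hs C) (by norm_num)
      hζ hX2 (by
        have := hs_mul_le (N l) (LinearMap.adjoint C) 2 (hN l)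
        rwa [hs_adjoint] at this) (hs_mul_le (Z σ) C ζ (hZ σ))
  rw [e2, e1, ← hC, hCa, ← hl, h1]
  have a1 := abs_le.1 h2
  have a2 := abs_le.1 h3
  have a3 := le_abs_self (rtr (N l * (LinearMap.adjoint C * (N σ * C))))
  linarith [a1.2, a2.2]

theorem HSREC (B N Z : ℕ → Module.End ℂ V) (hB : ∀ i, (B i).IsSymmetric)
    (hsq : ∀ i, B i * B i = N i + Z i) (ζ : ℝ) (hζ : 0 ≤ ζ) (hζ1 : 6 * ζ ≤ 1)
    (hZ : ∀ i v, ‖Z i v‖ ≤ ζ * ‖v‖) (hN : ∀ i v, ‖N i v‖ ≤ 2 * ‖v‖)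
    (hBn : ∀ i v, ‖B i v‖ ≤ 2 * ‖v‖) (K : ℕ) (ω : ℝ) (hω0 : 0 ≤ ω)
    (hω : ∀ σ k, k + 2 ≤ K →
      |rtr (N (σ + k + 1) * (altr B (σ + 1) k * (N σ * altp B (σ + 1) k)))| ≤
        ω * Module.finrank ℂ V) (m : ℕ) :
    (2 * m ≤ K → ∀ σ, hs (altp B σ (2 * m)) ≤ (4 * (3 * ζ) ^ m + 2 * ω) * Module.finrank ℂ V) ∧
    (2 * m + 1 ≤ K → ∀ σ, hs (altp B σ (2 * m + 1)) ≤
      (4 * (3 * ζ) ^ m + 2 * ω) * Module.finrank ℂ V) := by
  obtain ⟨D, hD⟩ : ∃ D : ℝ, D = Module.finrank ℂ V := ⟨_, rfl⟩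
  have hD0 : 0 ≤ D := by rw [hD]; positivity
  rw [← hD] at hω ⊢
  induction m with
  | zero =>
    refine ⟨fun _ σ => ?_, fun _ σ => ?_⟩
    · have : altp B σ (2 * 0) = 1 := rfl
      rw [this, hs_one, ← hD]
      nlinarith
    · have : altp B σ (2 * 0 + 1) = B σ * 1 := rfl
      rw [this]
      have h1 := hs_mul_le (B σ) 1 2 (hBn σ)
      rw [hs_one, ← hD] at h1
      have : 0 ≤ 2 * ω * D := by positivity
      rw [pow_zero]
      linarith
  | succ m ih =>
    obtain ⟨ih1, ih2⟩ := ih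
    obtain ⟨q, hq⟩ : ∃ q, q = (3 * ζ) ^ m := ⟨_, rfl⟩
    have hq0 : 0 ≤ q := by rw [hq]; positivity
    rw [← hq] at ih1 ih2
    have hq1 : (3 * ζ) ^ (m + 1) = 3 * ζ * q := by rw [pow_succ, hq]; ring
    have hzq : ζ * q * D ≤ q * D / 6 := by
      have : 0 ≤ q * D := by positivity
      nlinarith
    have hzo : ζ * (ω * D) ≤ ω * D / 6 := by
      have : 0 ≤ ω * D := by positivity
      nlinarith
    have hωD : 0 ≤ ω * D := by positivity
    have hqD : 0 ≤ q * D := by positivity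
    have hzq0 : 0 ≤ ζ * q * D := by positivity
    have key : 2 * (m + 1) ≤ K → ∀ σ, hs (altp B σ (2 * (m + 1))) ≤
        (4 * (3 * ζ * q) + 2 * ω) * D := by
      intro hK σ
      have h1 := HSREC1 B N Z hB hsq ζ hζ hZ hN σ (2 * m)
      have h2 := ih2 (by omega) σ
      have h3 := ih1 (by omega) (σ + 1)
      have h4 := hω σ (2 * m) (by omega)
      have h5 : ζ * hs (altp B σ (2 * m + 1)) ≤ ζ * ((4 * q + 2 * ω) * D) :=
        mul_le_mul_of_nonneg_left h2 hζ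
      have h6 : 2 * ζ * hs (altp B (σ + 1) (2 * m)) ≤ 2 * ζ * ((4 * q + 2 * ω) * D) :=
        mul_le_mul_of_nonneg_left h3 (by positivity)
      have e : 2 * (m + 1) = 2 * m + 2 := by ring
      rw [e]
      nlinarith
    rw [hq1]
    refine ⟨key, fun hK σ => ?_⟩
    have h1 := HSREC1 B N Z hB hsq ζ hζ hZ hN σ (2 * m + 1)
    have h2 := key (by omega) σ
    have h3 := ih2 (by omega) (σ + 1)
    have h4 := hω σ (2 * m + 1) (by omega)
    have e0 : 2 * (m + 1) = 2 * m + 1 + 1 := by ring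
    rw [e0] at h2
    have h5 : ζ * hs (altp B σ (2 * m + 1 + 1)) ≤ ζ * ((4 * (3 * ζ * q) + 2 * ω) * D) :=
      mul_le_mul_of_nonneg_left h2 hζ
    have h6 : 2 * ζ * hs (altp B (σ + 1) (2 * m + 1)) ≤ 2 * ζ * ((4 * q + 2 * ω) * D) :=
      mul_le_mul_of_nonneg_left h3 (by positivity)
    have e : 2 * (m + 1) + 1 = 2 * m + 1 + 2 := by ring
    rw [e]
    have h7 : ζ * (ζ * q * D) ≤ (ζ * q * D) / 6 := by nlinarith
    nlinarith

end CG45
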