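import Pool.Agent.H45.CG.AmpN
import Pool.Agent.H45.CG.Iface

/-!
Second interface of the project CG (helper45), MP_75608d_al.
-/

namespace CG45
open RC14 RC852 TE852 LL14 LG45 Finset Equiv Filter
open scoped InnerProductSpace

/-- relative rank of the vectors of energy at most `t` on the levels `r < j ≤ R` -/
def RkL (n r R : ℕ) (t B lam : ℝ) {k : ℕ} (x : Fin k → Alt n) : Prop :=
  ∀ j, r < j → j ≤ R → ∀ W : Submodule ℂ (RC14.V j n), Irr (repA j n) W → W ≤ Lvl j n →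
    NRK W (En (repA j n) x) t (B * Real.exp (-(lam * j)))

/-- relative rank of the vectors of energy at most `t` on the high part -/
def RkH (n r : ℕ) (t B lam : ℝ) {k : ℕ} (x : Fin k → Alt n) : Prop :=
  ∀ W : Submodule ℂ (FA n), Irr (RR n) W → W ≤ HH r n →
    NRK W (En (RR n) x) t (B * Real.exp (-lam))

/-- Part AMPL: amplification by one fresh letter on the levels. -/
def StmtAMPL : Prop := ∀ (n r R k : ℕ) (x : Fin k → Alt n) (τ0 τ1 c B lam lam' : ℝ),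
  2 * R + 2 ≤ n → 0 < c → c ≤ 1 / 2 → τ1 + 16 * c ≤ τ0 → 1 ≤ B → 0 ≤ lam →
  lam' ≤ 5 / 4 * lam →
  (∀ j : ℕ, r < j → j ≤ R →
    64 * B ^ 2 * (n : ℝ) ^ 3 * Real.exp (3 * Real.sqrt j) ≤ Real.exp (3 / 4 * (lam * j))) →
  RkL n r R τ0 B lam x → RkL n r R τ1 B lam' x →
  (Nat.card {h : Fin 1 → Alt n // ¬ RkL n r R (τ1 + c) (B + 1) lam' (Fin.append x h)} : ℝ) ≤
    1 / (n : ℝ) ^ 2 * Fintype.card (Fin 1 → Alt n)

/-- Part AMPH: amplification by one fresh letter on the high part. -/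
def StmtAMPH : Prop := ∀ (n r k : ℕ) (x : Fin k → Alt n) (τ0 τ1 c B lam lam' : ℝ), 1 ≤ n →
  0 < c → c ≤ 1 / 2 → τ1 + 16 * c ≤ τ0 → 1 ≤ B → 0 ≤ lam → lam' ≤ 5 / 4 * lam →
  128 * B ^ 2 * (n : ℝ) ^ 2 * Real.exp (3 * Real.sqrt n) ≤ Real.exp (3 / 4 * lam) →
  RkH n r τ0 B lam x → RkH n r τ1 B lam' x →
  (Nat.card {h : Fin 1 → Alt n // ¬ RkH n r (τ1 + c) (B + 1) lam' (Fin.append x h)} : ℝ) ≤
    1 / (n : ℝ) ^ 2 * Fintype.card (Fin 1 → Alt n)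

/-- Part SCHED: the sequence of levels. -/
def StmtSCHED : Prop := ∀ G0 : ℕ, 2 ≤ G0 → ∃ (D1 : ℕ) (C : ℝ), 100 ≤ D1 ∧ 0 < C ∧
  ∀ᶠ n : ℕ in atTop, ∃ (I : ℕ) (r G : ℕ → ℕ), (I : ℝ) ≤ C * Real.log (Real.log n) ∧
    r 0 = Rr (3 / 4) n ∧
    (∀ i < I, G0 ≤ G i ∧ r i * G i ^ 256 ≤ n ∧
      ((G i : ℝ)) ^ 256 ≤ (n : ℝ) ^ (1 / Real.log (Real.log n)) ∧ r (i + 1) = r i * G i ^ 8) ∧
    n ≤ D1 * r I ∧ 2 * r I + 2 ≤ n

end CG45
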