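import Pool.Agent.H45.CG.WordL
import Pool.Graph.R_seed8.H14R2.LL.S.RTEH

/-! Numerical estimates for the word round. -/

set_option autoImplicit false

namespace CG45
open RC14 RC852 TE852 LL14 LG45 Finset Filter

/-- the rate -/
noncomputable def lamn (n : ℕ) : ℝ := 1 / (1024 * Real.log (Real.log n) * (Real.log n) ^ 16)

/-- `n` is large: `w = n^{1/32}`, `L = log n`, `LL = log log n` -/
structure NFx (n : ℕ) (w L LL : ℝ) : Prop where
  hw : (10 : ℝ) ^ 6 ≤ w
  hn : w ^ 32 = n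
  hL : L = Real.log n
  hLL : LL = Real.log L
  h17 : L ^ 17 ≤ w
  h10 : 10 ≤ LL
  hLL' : LL ≤ L

theorem NFx_ev : ∀ᶠ n : ℕ in atTop,
    NFx n ((n : ℝ) ^ (1 / 32 : ℝ)) (Real.log n) (Real.log (Real.log n)) := by
  have t2 : Tendsto (fun n : ℕ => (n : ℝ)) atTop atTop := tendsto_natCast_atTop_atTop
  have t1 : Tendsto (fun n : ℕ => Real.log (n : ℝ)) atTop atTop :=
    Real.tendsto_log_atTop.comp t2
  have t3 : Tendsto (fun n : ℕ => Real.log (Real.log (n : ℝ))) atTop atTop :=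
    Real.tendsto_log_atTop.comp t1
  have t4 : Tendsto (fun n : ℕ => (n : ℝ) ^ (1 / 32 : ℝ)) atTop atTop :=
    (tendsto_rpow_atTop (by norm_num)).comp t2
  have p1 : ∀ᶠ y : ℝ in atTop, (Real.log y) ^ 17 ≤ y ^ (1 / 32 : ℝ) := by
    have h := (isLittleO_log_rpow_atTop (show (0 : ℝ) < 1 / 544 by norm_num)).bound
      (show (0 : ℝ) < 1 by norm_num)
    filter_upwards [h, eventually_ge_atTop 1] with y hy hy1
    have h0 : 0 ≤ Real.log y := Real.log_nonneg hy1
    rw [Real.norm_of_nonneg h0, Real.norm_of_nonneg (by positivity), one_mul] at hy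
    calc (Real.log y) ^ 17 ≤ (y ^ (1 / 544 : ℝ)) ^ 17 := pow_le_pow_left₀ h0 hy 17
      _ = y ^ (1 / 32 : ℝ) := by
          rw [← Real.rpow_natCast, ← Real.rpow_mul (by linarith)]
          norm_num
  filter_upwards [t4.eventually_ge_atTop (10 ^ 6), t2.eventually p1, t3.eventually_ge_atTop 10,
    t1.eventually_ge_atTop 1] with n h1 h2 h3 h4
  refine ⟨h1, ?_, rfl, rfl, h2, h3, ?_⟩
  · rw [← Real.rpow_natCast, ← Real.rpow_mul (Nat.cast_nonneg n)]
    norm_num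
  · have := Real.log_le_sub_one_of_pos (show 0 < Real.log (n : ℝ) by linarith)
    linarith

namespace NFx
variable {n : ℕ} {w L LL : ℝ}

theorem w0 (h : NFx n w L LL) : 0 < w := by have := h.hw; linarith [show (0:ℝ) < 10 ^ 6 by norm_num]

theorem L10 (h : NFx n w L LL) : 10 ≤ L := h.h10.trans h.hLL'

theorem Lw (h : NFx n w L LL) : L ≤ w := by
  have h1 := h.L10
  calc L = L ^ 1 := (pow_one L).symm
    _ ≤ L ^ 17 := pow_le_pow_right₀ (by linarith) (by norm_num)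
    _ ≤ w := h.h17

theorem n0 (h : NFx n w L LL) : (0 : ℝ) < n := by
  rw [← h.hn]
  have := h.w0
  positivity

theorem expL (h : NFx n w L LL) : Real.exp L = n := by
  rw [h.hL, Real.exp_log h.n0]

theorem expLL (h : NFx n w L LL) : Real.exp (16 * LL) = L ^ 16 := by
  have h1 := h.L10
  rw [h.hLL, show (16 : ℝ) * Real.log L = ((16 : ℕ) : ℝ) * Real.log L by norm_num,
    Real.exp_nat_mul, Real.exp_log (by linarith)]

theorem lamn_eq (h : NFx n w L LL) : lamn n = 1 / (1024 * LL * L ^ 16) := by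
  unfold lamn
  rw [← h.hL, ← h.hLL]

theorem lamn_pos (h : NFx n w L LL) : 0 < lamn n := by
  rw [h.lamn_eq]
  have h1 := h.L10
  have h2 := h.h10
  positivity

theorem lamn_ge (h : NFx n w L LL) : 1 / (1024 * w) ≤ lamn n := by
  rw [h.lamn_eq]
  have h1 := h.L10
  have h2 := h.h10
  apply one_div_le_one_div_of_le (by positivity)
  have h3 : LL * L ^ 16 ≤ L * L ^ 16 := mul_le_mul_of_nonneg_right h.hLL' (by positivity)
  have h4 : L * L ^ 16 = L ^ 17 := by ring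
  have := h.h17
  linarith

theorem lamn_le (h : NFx n w L LL) : lamn n ≤ 1 / 1024 := by
  rw [h.lamn_eq]
  have h1 := h.L10
  have h2 := h.h10
  apply one_div_le_one_div_of_le (by norm_num)
  have h3 : 1 ≤ L ^ 16 := one_le_pow₀ (by linarith)
  have h4 : 1 ≤ LL * L ^ 16 := by nlinarith
  linarith

/-- the size of `s` -/
theorem s_ge (h : NFx n w L LL) (r : ℕ) (hr : w ^ 24 - 1 ≤ r) :
    w ^ 8 ≤ (⌊(r : ℝ) * lamn n⌋₊ : ℝ) ∧ ((⌊(r : ℝ) * lamn n⌋₊ : ℕ) : ℝ) ≤ r * lamn n ∧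
      (r : ℝ) * lamn n ≤ 2 * ⌊(r : ℝ) * lamn n⌋₊ := by
  have hw := h.hw
  have hw0 := h.w0
  have h0 : 0 ≤ (r : ℝ) * lamn n := mul_nonneg (Nat.cast_nonneg _) h.lamn_pos.le
  have h1 : (r : ℝ) * lamn n < ⌊(r : ℝ) * lamn n⌋₊ + 1 := Nat.lt_floor_add_one _
  have h2 : w ^ 8 + 1 ≤ (r : ℝ) * lamn n := by
    have h3 : (w ^ 24 - 1) * (1 / (1024 * w)) ≤ r * lamn n :=
      mul_le_mul hr h.lamn_ge (by positivity) (Nat.cast_nonneg _)
    refine le_trans ?_ h3
    rw [mul_one_div, le_div_iff₀ (by positivity)]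
    have h4 : w ^ 8 * (1024 * w) + 1024 * w + 1 ≤ w ^ 24 := by
      have e1 : w ^ 24 = w ^ 9 * w ^ 15 := by ring
      have e2 : (2048 : ℝ) ≤ w ^ 15 := by
        calc (2048 : ℝ) ≤ 10 ^ 6 := by norm_num
          _ ≤ w := hw
          _ = w ^ 1 := (pow_one w).symm
          _ ≤ w ^ 15 := pow_le_pow_right₀ (by linarith) (by norm_num)
      have e3 : w ^ 9 * 2048 ≤ w ^ 9 * w ^ 15 := mul_le_mul_of_nonneg_left e2 (by positivity)
      have e4 : w ^ 2 ≤ w ^ 9 := pow_le_pow_right₀ (by linarith) (by norm_num)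
      have e5 : w ^ 8 * (1024 * w) = 1024 * w ^ 9 := by ring
      nlinarith
    linarith
  refine ⟨by linarith, Nat.floor_le h0, ?_⟩
  have : (1 : ℝ) ≤ w ^ 8 := one_le_pow₀ (by linarith)
  linarith

end NFx

end CG45
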