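import Pool.Agent.H45.CG.Num

/-! Numerical estimates for the word round, second part. -/

set_option autoImplicit false

namespace CG45
open RC14 RC852 TE852 LL14 LG45 Finset Filter

theorem exp8 : (2900 : ℝ) ≤ Real.exp 8 := by
  have h1 := Real.exp_one_gt_d9
  have h2 : Real.exp 8 = Real.exp 1 ^ 8 := by
    rw [← Real.exp_nat_mul]; norm_num
  rw [h2]
  calc (2900 : ℝ) ≤ 2.718 ^ 8 := by norm_num
    _ ≤ Real.exp 1 ^ 8 := pow_le_pow_left₀ (by norm_num) (by linarith) 8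

theorem exp6 : (400 : ℝ) ≤ Real.exp 6 := by
  have h1 := Real.exp_one_gt_d9
  have h2 : Real.exp 6 = Real.exp 1 ^ 6 := by
    rw [← Real.exp_nat_mul]; norm_num
  rw [h2]
  calc (400 : ℝ) ≤ 2.718 ^ 6 := by norm_num
    _ ≤ Real.exp 1 ^ 6 := pow_le_pow_left₀ (by norm_num) (by linarith) 6

theorem exp2 : Real.exp 2 ≤ 8 := by
  have h1 := Real.exp_one_lt_d9
  have h2 : Real.exp 2 = Real.exp 1 ^ 2 := by
    rw [← Real.exp_nat_mul]; norm_num
  rw [h2]
  calc Real.exp 1 ^ 2 ≤ 2.8 ^ 2 := pow_le_pow_left₀ (Real.exp_pos _).le (by linarith) 2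
    _ ≤ 8 := by norm_num

theorem exp7 : (1024 : ℝ) ≤ Real.exp 7 := by
  have h1 := Real.exp_one_gt_d9
  have h2 : Real.exp 7 = Real.exp 1 ^ 7 := by
    rw [← Real.exp_nat_mul]; norm_num
  rw [h2]
  calc (1024 : ℝ) ≤ 2.718 ^ 7 := by norm_num
    _ ≤ Real.exp 1 ^ 7 := pow_le_pow_left₀ (by norm_num) (by linarith) 7

namespace NFx
variable {n : ℕ} {w L LL : ℝ}

theorem expLL8 (h : NFx n w L LL) : Real.exp (16 * LL - 8) * Real.exp 8 = L ^ 16 := by
  rw [← Real.exp_add, sub_add_cancel, h.expLL]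

theorem s1 (h : NFx n w L LL) {s : ℕ} (hs : w ^ 8 ≤ s) : (10 : ℝ) ^ 6 ≤ s := by
  have hw := h.hw
  calc (10 : ℝ) ^ 6 ≤ w := hw
    _ = w ^ 1 := (pow_one w).symm
    _ ≤ w ^ 8 := pow_le_pow_right₀ (by linarith [show (0:ℝ) < 10 ^ 6 by norm_num]) (by norm_num)
    _ ≤ s := hs

theorem e16 (h : NFx n w L LL) : 1 ≤ Real.exp (16 * LL - 8) := by
  apply Real.one_le_exp
  have := h.h10
  linarith

theorem N_facts (h : NFx n w L LL) (r s N : ℕ) (hs1 : w ^ 8 ≤ s) (hs2 : (s : ℝ) ≤ r * lamn n)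
    (hN : N = ⌈2 * (s : ℝ) * Real.exp (16 * LL - 8)⌉₊) :
    s ≤ N ∧ 2 * (s : ℝ) ≤ N * Real.exp (-((16 * LL) * (1 - (1 / LL) / 2))) ∧
      (N : ℝ) ≤ 3 * s * Real.exp (16 * LL - 8) ∧ LL * N * 900000 ≤ r := by
  have h10 := h.h10
  have hs := h.s1 hs1
  have he := h.e16
  have hL := h.L10
  have h1 : 2 * (s : ℝ) * Real.exp (16 * LL - 8) ≤ N := by
    rw [hN]; exact Nat.le_ceil _
  have h2 : (N : ℝ) ≤ 2 * (s : ℝ) * Real.exp (16 * LL - 8) + 1 := by
    rw [hN]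
    exact (Nat.ceil_lt_add_one (by positivity)).le
  have h3 : (N : ℝ) ≤ 3 * s * Real.exp (16 * LL - 8) := by
    have : 1 ≤ (s : ℝ) * Real.exp (16 * LL - 8) := by nlinarith
    linarith
  refine ⟨?_, ?_, h3, ?_⟩
  · have : (s : ℝ) ≤ N := by
      refine le_trans ?_ h1
      nlinarith
    exact_mod_cast this
  · have e1 : (16 * LL) * (1 - (1 / LL) / 2) = 16 * LL - 8 := by
      field_simp
      ring
    rw [e1, Real.exp_neg, ← div_eq_mul_inv, le_div_iff₀ (Real.exp_pos _)]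
    exact h1
  · rw [h.lamn_eq] at hs2
    have h4 : (s : ℝ) * (1024 * LL * L ^ 16) ≤ r := by
      rw [mul_one_div, le_div_iff₀ (by positivity)] at hs2
      exact hs2
    have h5 := h.expLL8
    have h6 := exp8
    have h7 : Real.exp (16 * LL - 8) * 2900 ≤ L ^ 16 := by
      rw [← h5]
      exact mul_le_mul_of_nonneg_left h6 (Real.exp_pos _).le
    have h8 : LL * N ≤ LL * (3 * s * Real.exp (16 * LL - 8)) :=
      mul_le_mul_of_nonneg_left h3 (by linarith)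
    have h9 : (s : ℝ) * LL * (Real.exp (16 * LL - 8) * 2900) ≤ s * LL * L ^ 16 :=
      mul_le_mul_of_nonneg_left h7 (by positivity)
    nlinarith

/-- condition (a) -/
theorem condE (h : NFx n w L LL) (s N : ℕ) (hN : (N : ℝ) ≤ 3 * s * Real.exp (16 * LL - 8)) :
    Real.exp (-2 * s) *
      Real.exp ((Real.exp 2 + 1) * Real.exp (-((1 - (1 / LL) / 8) * (16 * LL))) * N) ≤
      Real.exp (-s) := by
  have h10 := h.h10
  have hs0 : (0 : ℝ) ≤ s := Nat.cast_nonneg _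
  rw [← Real.exp_add]
  apply Real.exp_le_exp.2
  have e1 : (1 - (1 / LL) / 8) * (16 * LL) = 16 * LL - 2 := by
    field_simp
    ring
  rw [e1]
  have h1 : Real.exp (-(16 * LL - 2)) * N ≤ 3 * s * Real.exp (-6) := by
    have h2 := mul_le_mul_of_nonneg_left hN (Real.exp_pos (-(16 * LL - 2))).le
    refine h2.trans (le_of_eq ?_)
    have h3 : Real.exp (-(16 * LL - 2)) * Real.exp (16 * LL - 8) = Real.exp (-6) := by
      rw [← Real.exp_add]
      congr 1
      ring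
    calc Real.exp (-(16 * LL - 2)) * (3 * s * Real.exp (16 * LL - 8)) =
        3 * s * (Real.exp (-(16 * LL - 2)) * Real.exp (16 * LL - 8)) := by ring
      _ = _ := by rw [h3]
  have h2 := exp2
  have h3 : Real.exp (-6) ≤ 1 / 400 := by
    rw [Real.exp_neg, ← one_div]
    exact one_div_le_one_div_of_le (by norm_num) exp6
  have h4 : (Real.exp 2 + 1) * (Real.exp (-(16 * LL - 2)) * N) ≤ 9 * (3 * s * (1 / 400)) := by
    apply mul_le_mul (by linarith) (h1.trans (mul_le_mul_of_nonneg_left h3 (by positivity)))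
      (by positivity) (by norm_num)
  nlinarith

theorem logle (h : NFx n w L LL) {s : ℕ} (hs : w ^ 8 ≤ s) : 16 * L + 16 * w + 64 ≤ s := by
  have hw := h.hw
  have hLw := h.Lw
  refine le_trans ?_ hs
  have h1 : w ^ 2 ≤ w ^ 8 :=
    pow_le_pow_right₀ (by linarith [show (1:ℝ) < 10 ^ 6 by norm_num]) (by norm_num)
  have h2 : (10 : ℝ) ^ 6 * w ≤ w ^ 2 := by
    rw [sq]; exact mul_le_mul_of_nonneg_right hw h.w0.le
  have h3 := h.w0
  norm_num at hw h2
  linarith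

/-- `e^{-s}` is tiny -/
theorem exps (h : NFx n w L LL) {s : ℕ} (hs : w ^ 8 ≤ s) (a b : ℝ) (hab : a * L + b ≤ s) :
    (n : ℝ) ^ a * Real.exp b * Real.exp (-(s : ℝ)) ≤ 1 := by
  have hn := h.n0
  rw [Real.rpow_def_of_pos hn, ← Real.exp_add, ← Real.exp_add]
  apply Real.exp_le_one_iff.2
  rw [← h.hL]
  linarith

end NFx

end CG45
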