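import Pool.Agent.H45.CG.Num2

/-! Numerical estimates for the word round, third part. -/

set_option autoImplicit false

namespace CG45
open RC14 RC852 TE852 LL14 LG45 Finset Filter

namespace NFx
variable {n : ℕ} {w L LL : ℝ}

theorem condμ (h : NFx n w L LL) (r N : ℕ) (hr : w ^ 24 - 1 ≤ r) (hN : LL * N * 900000 ≤ r) :
    4 * ((16 * LL) * N) / Real.log n + 1 ≤ r := by
  have hL := h.L10
  have hw := h.hw
  have h1 : (10 : ℝ) ^ 6 ≤ w ^ 24 := by
    calc (10 : ℝ) ^ 6 ≤ w := hw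
      _ = w ^ 1 := (pow_one w).symm
      _ ≤ w ^ 24 := pow_le_pow_right₀ (by linarith [show (0:ℝ) < 10 ^ 6 by norm_num]) (by norm_num)
  have hr2 : (2 : ℝ) ≤ r := by norm_num at h1; linarith
  have h2 : 4 * ((16 * LL) * N) / Real.log n ≤ r / 2 := by
    rw [← h.hL, div_le_iff₀ (by linarith)]
    have : (0 : ℝ) ≤ r := by linarith
    nlinarith
  linarith

theorem G8 (h : NFx n w L LL) (G : ℕ) (hG : (G : ℝ) ^ 256 ≤ n) : (G : ℝ) ^ 8 ≤ w := by
  have h1 : ((G : ℝ) ^ 8) ^ 32 ≤ w ^ 32 := by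
    rw [← pow_mul, h.hn]
    exact hG
  exact le_of_pow_le_pow_left₀ (by norm_num) h.w0.le h1

theorem condD (h : NFx n w L LL) (G r : ℕ) (hG : 12 ≤ G) (hr : r * G ^ 256 ≤ n)
    (hGn : (G : ℝ) ^ 256 ≤ (n : ℝ) ^ (1 / LL)) :
    (n : ℝ) ≤ (n : ℝ) ^ ((1 / LL) / 8) * (((n / (8 * G ^ 16) : ℕ) : ℝ) - r) := by
  have hG' : (12 : ℝ) ≤ G := by exact_mod_cast hG
  have hn := h.n0
  have h1 : (G : ℝ) ^ 32 ≤ (n : ℝ) ^ ((1 / LL) / 8) := by
    have e1 : (n : ℝ) ^ ((1 / LL) / 8) = ((n : ℝ) ^ (1 / LL)) ^ ((1 : ℝ) / 8) := by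
      rw [← Real.rpow_mul hn.le]
      congr 1
      ring
    rw [e1]
    have e2 : (G : ℝ) ^ 32 = ((G : ℝ) ^ 256) ^ ((1 : ℝ) / 8) := by
      rw [← Real.rpow_natCast, ← Real.rpow_natCast, ← Real.rpow_mul (by linarith)]
      norm_num
    rw [e2]
    exact Real.rpow_le_rpow (by positivity) hGn (by norm_num)
  obtain ⟨D, hD⟩ : ∃ D : ℕ, D = n / (8 * G ^ 16) := ⟨_, rfl⟩
  rw [← hD]
  have h2 : (n : ℝ) ≤ (D + 1) * (8 * (G : ℝ) ^ 16) := by
    have : n < (D + 1) * (8 * G ^ 16) := by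
      rw [hD]
      have hpos : 0 < 8 * G ^ 16 := by positivity
      have h3 := Nat.lt_div_mul_add hpos (a := n)
      calc n < n / (8 * G ^ 16) * (8 * G ^ 16) + 8 * G ^ 16 := h3
        _ = _ := by ring
    exact_mod_cast this.le
  have hr' : (r : ℝ) * (G : ℝ) ^ 256 ≤ n := by exact_mod_cast hr
  obtain ⟨g, hg⟩ : ∃ g : ℝ, g = (G : ℝ) ^ 16 := ⟨_, rfl⟩
  have e32 : (G : ℝ) ^ 32 = g ^ 2 := by rw [hg]; ring
  have e256 : (G : ℝ) ^ 256 = g ^ 16 := by rw [hg]; ring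
  rw [← hg] at h2
  rw [e256] at hr'
  rw [e32] at h1
  have hg1 : (10000 : ℝ) ≤ g := by
    rw [hg]
    calc (10000 : ℝ) ≤ 12 ^ 16 := by norm_num
      _ ≤ (G : ℝ) ^ 16 := pow_le_pow_left₀ (by norm_num) hG' 16
  have hgn : g ^ 2 ≤ n / 1000 := by
    have h8 := h.G8 G (by
      refine hGn.trans ?_
      calc (n : ℝ) ^ (1 / LL) ≤ (n : ℝ) ^ (1 : ℝ) := by
            apply Real.rpow_le_rpow_of_exponent_le
            · rw [← h.hn]
              exact one_le_pow₀ (by linarith [h.hw, show (1:ℝ) < 10 ^ 6 by norm_num])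
            · rw [div_le_one (by linarith [h.h10])]
              linarith [h.h10]
        _ = n := Real.rpow_one _)
    have hgw : g ≤ w ^ 2 := by
      rw [hg]
      calc (G : ℝ) ^ 16 = ((G : ℝ) ^ 8) ^ 2 := by ring
        _ ≤ w ^ 2 := pow_le_pow_left₀ (by positivity) h8 2
    have hw := h.hw
    calc g ^ 2 ≤ (w ^ 2) ^ 2 := pow_le_pow_left₀ (by linarith) hgw 2
      _ = w ^ 4 * 1 := by ring
      _ ≤ w ^ 4 * (w ^ 28 / 1000) := by
          apply mul_le_mul_of_nonneg_left _ (by positivity)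
          rw [le_div_iff₀ (by norm_num)]
          calc (1 : ℝ) * 1000 ≤ 10 ^ 6 := by norm_num
            _ ≤ w := hw
            _ = w ^ 1 := (pow_one w).symm
            _ ≤ w ^ 28 := pow_le_pow_right₀ (by linarith [show (1:ℝ) < 10 ^ 6 by norm_num])
              (by norm_num)
      _ = n / 1000 := by rw [← h.hn]; ring
  have hrn : (r : ℝ) * g ^ 2 ≤ n / 1000 := by
    have h4 : (1000 : ℝ) ≤ g ^ 14 := by
      calc (1000 : ℝ) ≤ g := by linarith
        _ = g ^ 1 := (pow_one g).symm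
        _ ≤ g ^ 14 := pow_le_pow_right₀ (by linarith) (by norm_num)
    have h5 : (r : ℝ) * g ^ 2 * 1000 ≤ r * g ^ 2 * g ^ 14 :=
      mul_le_mul_of_nonneg_left h4 (by positivity)
    have h6 : (r : ℝ) * g ^ 2 * g ^ 14 = r * g ^ 16 := by ring
    linarith
  have h7 : (n : ℝ) ≤ g ^ 2 * ((D : ℝ) - r) := by
    have h8 : (n : ℝ) * g ≤ (D + 1) * (8 * g) * g := mul_le_mul_of_nonneg_right h2 (by linarith)
    have h9 : 10000 * (n : ℝ) ≤ n * g := by nlinarith
    nlinarith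
  have h8 : 0 ≤ (D : ℝ) - r := by
    by_contra hcon
    push Not at hcon
    nlinarith [sq_nonneg g]
  exact h7.trans (mul_le_mul_of_nonneg_right h1 h8)

theorem condζ (h : NFx n w L LL) {s : ℕ} (hs : w ^ 8 ≤ s) :
    2 * n * Real.exp (-(s : ℝ)) ^ 2 ≤ 1 / 10 := by
  have h1 := h.logle hs
  have h2 := h.exps hs 1 5 (by linarith [h.L10, h.w0])
  have he := Real.exp_pos (-(s : ℝ))
  have he1 : Real.exp (-(s : ℝ)) ≤ 1 := by
    apply Real.exp_le_one_iff.2
    have : (0 : ℝ) ≤ s := Nat.cast_nonneg _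
    linarith
  rw [Real.rpow_one] at h2
  have h3 : (20 : ℝ) ≤ Real.exp 5 := by
    have h1 := Real.exp_one_gt_d9
    have h2 : Real.exp 5 = Real.exp 1 ^ 5 := by
      rw [← Real.exp_nat_mul]; norm_num
    rw [h2]
    calc (20 : ℝ) ≤ 2.7 ^ 5 := by norm_num
      _ ≤ Real.exp 1 ^ 5 := pow_le_pow_left₀ (by norm_num) (by linarith) 5
  have h4 : (n : ℝ) * 20 * Real.exp (-(s : ℝ)) ≤ 1 := by
    refine le_trans ?_ h2
    have := h.n0
    gcongr
  have h5 : Real.exp (-(s : ℝ)) ^ 2 ≤ Real.exp (-(s : ℝ)) := by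
    rw [sq]; nlinarith
  have := h.n0
  nlinarith

theorem condp (h : NFx n w L LL) {s : ℕ} (hs : w ^ 8 ≤ s) (P p : ℕ) (hP : (P : ℝ) ≤ w + 1)
    (hp : p ≤ P) : (1 + 2 * n * Real.exp (-(s : ℝ)) ^ 2) ^ (2 * p + 1) - 1 ≤
      (1 / 1024 : ℝ) ^ (p + 1) / 2 := by
  have hn := h.n0
  have hw := h.hw
  norm_num at hw
  have hpP : (p : ℝ) ≤ w + 1 := le_trans (by exact_mod_cast hp) hP
  obtain ⟨z, hz⟩ : ∃ z : ℝ, z = 2 * n * Real.exp (-(s : ℝ)) ^ 2 := ⟨_, rfl⟩
  rw [← hz]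
  have hz0 : 0 ≤ z := by rw [hz]; positivity
  -- `16 n² e^{7 (p+1)} e^{-2s} ≤ 1`
  have h1 := h.logle hs
  have h2 := h.exps hs 1 (7 * (p + 1)) (by nlinarith [h.L10])
  have h3 := h.exps hs 1 7 (by nlinarith [h.L10])
  rw [Real.rpow_one] at h2 h3
  have h4 : ((1024 : ℝ)) ^ (p + 1) ≤ Real.exp (7 * (p + 1)) := by
    have e1 : Real.exp (7 * (p + 1)) = Real.exp 7 ^ (p + 1) := by
      rw [← Real.exp_nat_mul]
      push_cast
      congr 1
      ring
    rw [e1]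
    exact pow_le_pow_left₀ (by norm_num) exp7 _
  have h5 := exp7
  have he := Real.exp_pos (-(s : ℝ))
  have hm : (2 * p + 1 : ℝ) ≤ n := by
    rw [← h.hn]
    have e1 : w * w ≤ w ^ 32 := by
      calc w * w = w ^ 2 := by ring
        _ ≤ w ^ 32 := pow_le_pow_right₀ (by linarith) (by norm_num)
    nlinarith
  -- the product
  have h6 : (8 * (2 * p + 1)) * z * 1024 ^ (p + 1) ≤ 1 := by
    have h7 : (n : ℝ) * 1024 ^ (p + 1) * Real.exp (-(s : ℝ)) ≤ 1 := by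
      refine le_trans ?_ h2
      gcongr
    have h8 : (n : ℝ) * 1024 * Real.exp (-(s : ℝ)) ≤ 1 := by
      refine le_trans ?_ h3
      gcongr
    have h9 : (n : ℝ) * 16 * Real.exp (-(s : ℝ)) ≤ 1 := by
      refine le_trans ?_ h8
      have : 0 ≤ (n : ℝ) * Real.exp (-(s : ℝ)) := by positivity
      nlinarith
    have hA : 0 ≤ (n : ℝ) * 1024 ^ (p + 1) * Real.exp (-(s : ℝ)) := by positivity
    have hB : 0 ≤ (n : ℝ) * 16 * Real.exp (-(s : ℝ)) := by positivity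
    have h10 := mul_le_mul h7 h9 hB zero_le_one
    rw [one_mul] at h10
    refine le_trans ?_ h10
    rw [hz]
    have e1 : 8 * (2 * (p : ℝ) + 1) * (2 * n * Real.exp (-(s : ℝ)) ^ 2) * 1024 ^ (p + 1) =
        (2 * (p : ℝ) + 1) * (n * 1024 ^ (p + 1) * Real.exp (-(s : ℝ)) * (16 *
          Real.exp (-(s : ℝ)))) := by ring
    have e2 : (n : ℝ) * 1024 ^ (p + 1) * Real.exp (-(s : ℝ)) * (n * 16 * Real.exp (-(s : ℝ))) =
        n * (n * 1024 ^ (p + 1) * Real.exp (-(s : ℝ)) * (16 * Real.exp (-(s : ℝ)))) := by ring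
    rw [e1, e2]
    exact mul_le_mul_of_nonneg_right hm (by positivity)
  have h10 : 1 ≤ (1024 : ℝ) ^ (p + 1) := one_le_pow₀ (by norm_num)
  have hmz : (2 * p + 1) * z ≤ 1 := by
    have h11 : 0 ≤ (2 * p + 1) * z := by positivity
    nlinarith
  have h12 : (1 + z) ^ (2 * p + 1) ≤ 1 + 2 * ((2 * p + 1) * z) := by
    have h13 : (1 + z) ^ (2 * p + 1) ≤ Real.exp ((2 * p + 1) * z) := by
      have e1 : Real.exp ((2 * p + 1) * z) = Real.exp z ^ (2 * p + 1) := by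
        rw [← Real.exp_nat_mul]
        push_cast
        ring_nf
      rw [e1]
      apply pow_le_pow_left₀ (by linarith)
      linarith [Real.add_one_le_exp z]
    have h14 : Real.exp ((2 * p + 1) * z) ≤ 1 + 2 * ((2 * p + 1) * z) := by
      have h15 := Real.exp_bound_div_one_sub_of_interval (x := (2 * p + 1) * z / 2) (by positivity)
        (by linarith)
      have h16 : Real.exp ((2 * p + 1) * z) = Real.exp ((2 * p + 1) * z / 2) ^ 2 := by
        rw [← Real.exp_nat_mul]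
        congr 1
        push_cast
        ring
      have h17 := abs_le.1 (Real.abs_exp_sub_one_le (x := (2 * p + 1) * z) (by
        rw [abs_of_nonneg (by positivity)]; exact hmz))
      rw [abs_of_nonneg (show 0 ≤ (2 * (p : ℝ) + 1) * z by positivity)] at h17
      linarith [h17.2]
    exact h13.trans h14
  have h18 : (1 / 1024 : ℝ) ^ (p + 1) = 1 / 1024 ^ (p + 1) := by rw [one_div_pow]
  rw [h18]
  have h19 : 2 * ((2 * p + 1) * z) ≤ 1 / 1024 ^ (p + 1) / 2 := by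
    rw [div_div, le_div_iff₀ (by positivity)]
    nlinarith
  linarith

end NFx

end CG45
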