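import Pool.Agent.H45.CG.Num3

/-! Numerical estimates for the word round, fourth part. -/

set_option autoImplicit false

namespace CG45
open RC14 RC852 TE852 LL14 LG45 Finset Filter

/-- few `b` -/
theorem condY (n G : ℕ) (hG : 12 ≤ G) (hGn : G ^ 256 ≤ n) (k : ℕ) (hk : k + 1 ≤ 2 * (G ^ 8 + 1))
    (σ : ℕ) (wd : Fin (2 * k + 2) → Alt n) (hw : ∀ t, nfix (cp (wd t)) ≤ n / (8 * G ^ 16)) :
    (Nat.card {b : Fin 1 → Alt n // 2 * FH G n ≤ nfw σ wd b} : ℝ) ≤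
      ((n : ℝ) ^ 2 * Real.exp (-(2 * ((n / (2 ^ 15 * G ^ 32) : ℕ) : ℝ)))) *
        Fintype.card (Fin 1 → Alt n) := by
  obtain ⟨u, hu⟩ : ∃ u : ℕ, u = n / (2 ^ 15 * G ^ 32) := ⟨_, rfl⟩
  obtain ⟨D, hD⟩ : ∃ D : ℕ, D = n / (8 * G ^ 16) := ⟨_, rfl⟩
  rw [← hu]
  rw [← hD] at hw
  have hGp : ∀ k : ℕ, 1 ≤ G ^ k := fun k => Nat.one_le_pow _ _ (by omega)
  have hu1 : 2 ^ 15 * G ^ 32 * u ≤ n := by rw [hu]; exact Nat.mul_div_le _ _
  have hD1 : 8 * G ^ 16 * D ≤ n := by rw [hD]; exact Nat.mul_div_le _ _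
  obtain ⟨g, hg⟩ : ∃ g : ℕ, g = G ^ 8 := ⟨_, rfl⟩
  have hg4 : 100000 ≤ g := by
    rw [hg]
    calc 100000 ≤ 12 ^ 8 := by norm_num
      _ ≤ G ^ 8 := Nat.pow_le_pow_left hG 8
  have e16 : G ^ 16 = g ^ 2 := by rw [hg, ← pow_mul]
  have e32 : G ^ 32 = g ^ 4 := by rw [hg, ← pow_mul]
  have e256 : G ^ 256 = g ^ 32 := by rw [hg, ← pow_mul]
  rw [← hg] at hk
  rw [e16] at hD1
  rw [e32] at hu1
  rw [e256] at hGn
  have hu0 : 1 ≤ u := by
    rw [hu, Nat.one_le_div_iff (by positivity), e32]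
    refine le_trans ?_ hGn
    calc 2 ^ 15 * g ^ 4 ≤ g ^ 1 * g ^ 4 := Nat.mul_le_mul_right _ (by rw [pow_one]; omega)
      _ = g ^ 5 := by ring
      _ ≤ g ^ 32 := Nat.pow_le_pow_right (by omega) (by norm_num)
  obtain ⟨J, hJ⟩ : ∃ J : ℕ, J = 2 * k + 2 := ⟨_, rfl⟩
  have hJ5 : J ≤ 5 * g := by omega
  have hJ2 : J * J ≤ 25 * (g * g) := by nlinarith
  have hF1 : 4 * ((2 * u + 1) * (3 * (2 * k + 2) + 1) + 16 * u * g) ≤ 256 * (u * g) := by
    rw [← hJ]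
    have h1 : 3 * J + 1 ≤ 16 * g := by omega
    have h2 : (2 * u + 1) * (3 * J + 1) ≤ (3 * u) * (16 * g) := Nat.mul_le_mul (by omega) h1
    nlinarith
  have hFx : (2 * k + 2) * D + (2 * (2 * k + 2) ^ 2 + 1) * (256 * (u * g)) ≤ 2 * FH G n := by
    rw [← hJ]
    have h1 : J * D ≤ n / G ^ 8 := by
      rw [Nat.le_div_iff_mul_le (by positivity), ← hg]
      calc J * D * g ≤ 5 * g * D * g := by gcongr
        _ = 5 * (g ^ 2 * D) := by ring
        _ ≤ 8 * g ^ 2 * D := by nlinarith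
        _ ≤ n := hD1
    have h2 : (2 * J ^ 2 + 1) * (256 * (u * g)) ≤ n / G ^ 8 := by
      rw [Nat.le_div_iff_mul_le (by positivity), ← hg]
      have h3 : 2 * J ^ 2 + 1 ≤ 51 * (g * g) := by
        have : 1 ≤ g * g := Nat.one_le_iff_ne_zero.2 (by positivity)
        nlinarith
      calc (2 * J ^ 2 + 1) * (256 * (u * g)) * g ≤ 51 * (g * g) * (256 * (u * g)) * g := by gcongr
        _ = 13056 * (g ^ 4 * u) := by ring
        _ ≤ 2 ^ 15 * (g ^ 4 * u) := Nat.mul_le_mul_right _ (by norm_num)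
        _ = 2 ^ 15 * g ^ 4 * u := by ring
        _ ≤ n := hu1
    unfold FH
    omega
  have h := H31CG.NBT n (2 * k + 2) D (2 * FH G n) (256 * (u * g)) (2 * u + 1) (16 * u * g) σ
    (by omega) ⟨u, rfl⟩ wd hw hF1 hFx
  -- real form
  have hR : (Nat.card {b : Fin 1 → Alt n // 2 * FH G n ≤ nfw σ wd b} : ℝ) *
      ((16 * u * g : ℕ) : ℝ) ^ (2 * u + 1) ≤
      (n : ℝ) ^ 2 * Fintype.card (Fin 1 → Alt n) := by
    have h1 : (2 * (2 * k + 2) ^ 2 + 1) * (Fintype.card (Alt n) ^ 1 * ((2 * k + 2) * n)) ≤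
        n ^ 2 * Fintype.card (Fin 1 → Alt n) := by
      rw [Fintype.card_fun, Fintype.card_fin, ← hJ]
      have h3 : 2 * J ^ 2 + 1 ≤ 51 * (g * g) := by
        have : 1 ≤ g * g := Nat.one_le_iff_ne_zero.2 (by positivity)
        nlinarith
      have h4 : 255 * g ^ 3 ≤ n := by
        refine le_trans ?_ hGn
        calc 255 * g ^ 3 ≤ g * g ^ 3 := Nat.mul_le_mul_right _ (by omega)
          _ = g ^ 4 := by ring
          _ ≤ g ^ 32 := Nat.pow_le_pow_right (by omega) (by norm_num)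
      calc (2 * J ^ 2 + 1) * (Fintype.card (Alt n) ^ 1 * (J * n)) ≤
          51 * (g * g) * (Fintype.card (Alt n) ^ 1 * (5 * g * n)) := by gcongr
        _ = (255 * g ^ 3) * n * Fintype.card (Alt n) ^ 1 := by ring
        _ ≤ n * n * Fintype.card (Alt n) ^ 1 := by gcongr
        _ = n ^ 2 * Fintype.card (Alt n) ^ 1 := by ring
    have h2 := h.trans h1
    exact_mod_cast h2
  have hK : Real.exp (2 * (u : ℝ)) ≤ ((16 * u * g : ℕ) : ℝ) ^ (2 * u + 1) := by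
    have e1 : Real.exp (2 * (u : ℝ)) = Real.exp 2 ^ u := by
      rw [← Real.exp_nat_mul]; ring_nf
    rw [e1]
    have h8 : (8 : ℝ) ≤ ((16 * u * g : ℕ) : ℝ) := by
      have : 8 ≤ 16 * u * g := by nlinarith
      exact_mod_cast this
    calc Real.exp 2 ^ u ≤ ((16 * u * g : ℕ) : ℝ) ^ u :=
          pow_le_pow_left₀ (Real.exp_pos _).le (exp2.trans h8) u
      _ ≤ ((16 * u * g : ℕ) : ℝ) ^ (2 * u + 1) :=
          pow_le_pow_right₀ (by linarith) (by omega)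
  have h5 : (Nat.card {b : Fin 1 → Alt n // 2 * FH G n ≤ nfw σ wd b} : ℝ) *
      Real.exp (2 * (u : ℝ)) ≤ (n : ℝ) ^ 2 * Fintype.card (Fin 1 → Alt n) :=
    (mul_le_mul_of_nonneg_left hK (Nat.cast_nonneg _)).trans hR
  rw [Real.exp_neg]
  rw [← le_div_iff₀ (Real.exp_pos _)] at h5
  refine h5.trans (le_of_eq ?_)
  ring

namespace NFx
variable {n : ℕ} {w L LL : ℝ}

set_option maxHeartbeats 4000000 in
theorem condF (h : NFx n w L LL) (G r s N u j : ℕ) (hG : 12 ≤ G) (hr : w ^ 24 - 1 ≤ r)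
    (hrn : r * G ^ 256 ≤ n) (hs1 : w ^ 8 ≤ s) (hs2 : (s : ℝ) ≤ r * lamn n)
    (hs3 : (r : ℝ) * lamn n ≤ 2 * s) (hN : LL * N * 900000 ≤ r)
    (hu : (n : ℝ) ≤ (u + 1) * (2 ^ 15 * (G : ℝ) ^ 32)) (hj1 : r < j) (hj2 : j ≤ r * G ^ 8)
    (hG8 : (G : ℝ) ^ 8 ≤ w) :
    4 * 1024 ^ (2 * (j / r + 1 + 1)) *
      (4 * (3 * (2 * n * Real.exp (-(s : ℝ)) ^ 4)) ^ (j / r + 1) +
        2 * ((1 / (G : ℝ)) ^ j * (9 ^ N) ^ (8 * (j / r + 1)) + (9 ^ N) ^ (8 * (j / r + 1)) *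
          (((n : ℝ) ^ 2 * Real.exp (-(2 * (u : ℝ)))) * (4 * ((G : ℝ) ^ 8 + 1) * (n : ℝ) ^ 2)))) ≤
      Real.exp (-(lamn n * j)) := by
  have hG' : (12 : ℝ) ≤ G := by exact_mod_cast hG
  have hn := h.n0
  have hw := h.hw
  have hL := h.L10
  have hLw := h.Lw
  have hs' := h.s1 hs1
  have hs : (1000000 : ℝ) ≤ s := by linarith [show (10 : ℝ) ^ 6 = 1000000 by norm_num]
  have h10 := h.h10
  norm_num at hw
  have hw24 : w ≤ w ^ 24 := by
    calc w = w ^ 1 := (pow_one w).symm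
      _ ≤ w ^ 24 := pow_le_pow_right₀ (by linarith) (by norm_num)
  have hr0 : (0 : ℝ) < r := by linarith
  obtain ⟨q, hq⟩ : ∃ q : ℝ, q = (j : ℝ) / r := ⟨_, rfl⟩
  have hrq : r * q = j := by rw [hq]; field_simp
  have hjr : (r : ℝ) ≤ j := by exact_mod_cast hj1.le
  have hq1 : 1 ≤ q := by
    rw [hq, le_div_iff₀ hr0, one_mul]; exact hjr
  obtain ⟨p, hp⟩ : ∃ p : ℕ, p = j / r + 1 := ⟨_, rfl⟩
  rw [← hp]
  have hr0' : 0 < r := by exact_mod_cast hr0
  have hp1 : (p : ℝ) ≤ q + 1 := by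
    rw [hp, hq]
    push_cast
    have := @Nat.cast_div_le ℝ _ _ _ j r
    linarith
  have hp2 : q ≤ p := by
    rw [hp, hq, div_le_iff₀ hr0]
    have h1 := Nat.lt_div_mul_add hr0' (a := j)
    have h2 : (j : ℝ) < (j / r : ℕ) * r + r := by exact_mod_cast h1
    push_cast
    nlinarith
  -- (1)
  have b1 : (1024 : ℝ) ^ (2 * (p + 1)) ≤ Real.exp (42 * q) := by
    calc (1024 : ℝ) ^ (2 * (p + 1)) ≤ Real.exp 7 ^ (2 * (p + 1)) :=
          pow_le_pow_left₀ (by norm_num) exp7 _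
      _ = Real.exp (14 * (p + 1)) := by
          rw [← Real.exp_nat_mul]
          push_cast
          congr 1
          ring
      _ ≤ Real.exp (42 * q) := Real.exp_le_exp.2 (by linarith)
  -- (2)
  have b2 : (3 * (2 * n * Real.exp (-(s : ℝ)) ^ 4)) ^ p ≤ Real.exp (-(3 * (s * q))) := by
    have c1 : 3 * (2 * n * Real.exp (-(s : ℝ)) ^ 4) ≤ Real.exp (-(3 * (s : ℝ))) := by
      have c2 := h.exps hs1 1 7 (by
        have := h.logle hs1
        linarith [h.w0])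
      rw [Real.rpow_one] at c2
      have c3 := exp7
      have c4 : (n : ℝ) * 6 * Real.exp (-(s : ℝ)) ≤ 1 := by
        refine le_trans ?_ c2
        have : (6 : ℝ) ≤ Real.exp 7 := by linarith
        gcongr
      have c5 : Real.exp (-(s : ℝ)) ^ 3 = Real.exp (-(3 * (s : ℝ))) := by
        rw [← Real.exp_nat_mul]
        congr 1
        push_cast
        ring
      calc 3 * (2 * n * Real.exp (-(s : ℝ)) ^ 4) =
          (n * 6 * Real.exp (-(s : ℝ))) * Real.exp (-(s : ℝ)) ^ 3 := by ring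
        _ ≤ 1 * Real.exp (-(s : ℝ)) ^ 3 := mul_le_mul_of_nonneg_right c4 (by positivity)
        _ = _ := by rw [one_mul, c5]
    calc (3 * (2 * n * Real.exp (-(s : ℝ)) ^ 4)) ^ p ≤ Real.exp (-(3 * (s : ℝ))) ^ p :=
          pow_le_pow_left₀ (by positivity) c1 p
      _ = Real.exp (-(3 * (s * p))) := by
          rw [← Real.exp_nat_mul]
          congr 1
          ring
      _ ≤ Real.exp (-(3 * (s * q))) := by
          apply Real.exp_le_exp.2
          have : (s : ℝ) * q ≤ s * p := mul_le_mul_of_nonneg_left hp2 (by linarith)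
          linarith
  -- (3)
  have b3 : ((9 : ℝ) ^ N) ^ (8 * p) ≤ Real.exp (j / 4) := by
    have c1 : (9 : ℝ) ≤ Real.exp 3 := by
      have h1 := Real.exp_one_gt_d9
      have h2 : Real.exp 3 = Real.exp 1 ^ 3 := by
        rw [← Real.exp_nat_mul]; norm_num
      rw [h2]
      calc (9 : ℝ) ≤ 2.7 ^ 3 := by norm_num
        _ ≤ Real.exp 1 ^ 3 := pow_le_pow_left₀ (by norm_num) (by linarith) 3
    calc ((9 : ℝ) ^ N) ^ (8 * p) = 9 ^ (N * (8 * p)) := by rw [← pow_mul]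
      _ ≤ Real.exp 3 ^ (N * (8 * p)) := pow_le_pow_left₀ (by norm_num) c1 _
      _ = Real.exp (24 * (N * p)) := by
          rw [← Real.exp_nat_mul]
          push_cast
          congr 1
          ring
      _ ≤ Real.exp (j / 4) := by
          apply Real.exp_le_exp.2
          have hN0 : (0 : ℝ) ≤ N := Nat.cast_nonneg _
          have c2 : (N : ℝ) * p ≤ N * (2 * q) := mul_le_mul_of_nonneg_left (by linarith) hN0
          have c3 : (N : ℝ) * 9000000 ≤ r := by nlinarith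
          have c4 : (N : ℝ) * 9000000 * q ≤ r * q := mul_le_mul_of_nonneg_right c3 (by linarith)
          rw [hrq] at c4
          nlinarith
  -- (4)
  have b4 : (1 / (G : ℝ)) ^ j ≤ Real.exp (-(2 * j)) := by
    have c1 : 1 / (G : ℝ) ≤ Real.exp (-2) := by
      rw [Real.exp_neg, ← one_div]
      exact one_div_le_one_div_of_le (Real.exp_pos _) (exp2.trans (by linarith))
    calc (1 / (G : ℝ)) ^ j ≤ Real.exp (-2) ^ j := pow_le_pow_left₀ (by positivity) c1 j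
      _ = Real.exp (-(2 * j)) := by
          rw [← Real.exp_nat_mul]
          congr 1
          ring
  -- (5)
  have hju : 4 * (j : ℝ) ≤ u + 1 := by
    have c1 : (j : ℝ) ≤ r * (G : ℝ) ^ 8 := by exact_mod_cast hj2
    have c2 : (r : ℝ) * (G : ℝ) ^ 256 ≤ n := by exact_mod_cast hrn
    have c3 : (j : ℝ) * (G : ℝ) ^ 248 ≤ n := by
      calc (j : ℝ) * (G : ℝ) ^ 248 ≤ r * (G : ℝ) ^ 8 * (G : ℝ) ^ 248 :=
            mul_le_mul_of_nonneg_right c1 (by positivity)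
        _ = r * (G : ℝ) ^ 256 := by ring
        _ ≤ n := c2
    have c4 : (2 : ℝ) ^ 17 ≤ (G : ℝ) ^ 216 := by
      calc (2 : ℝ) ^ 17 ≤ 12 ^ 216 := by norm_num
        _ ≤ (G : ℝ) ^ 216 := pow_le_pow_left₀ (by norm_num) hG' _
    have c5 : (j : ℝ) * (2 ^ 17 * (G : ℝ) ^ 32) ≤ (u + 1) * (2 ^ 15 * (G : ℝ) ^ 32) := by
      refine le_trans ?_ (c3.trans hu)
      have e1 : (G : ℝ) ^ 248 = (G : ℝ) ^ 216 * (G : ℝ) ^ 32 := by rw [← pow_add]
      rw [e1]
      gcongr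
    have c6 : (0 : ℝ) < 2 ^ 15 * (G : ℝ) ^ 32 := by positivity
    have c7 : 4 * (j : ℝ) * (2 ^ 15 * (G : ℝ) ^ 32) ≤ (u + 1) * (2 ^ 15 * (G : ℝ) ^ 32) := by
      refine le_trans (le_of_eq ?_) c5
      ring
    exact le_of_mul_le_mul_right c7 c6
  have b5 : ((n : ℝ) ^ 2 * Real.exp (-(2 * (u : ℝ)))) * (4 * ((G : ℝ) ^ 8 + 1) * (n : ℝ) ^ 2) ≤
      Real.exp (-(2 * j)) := by
    have c1 : 4 * ((G : ℝ) ^ 8 + 1) ≤ n := by
      rw [← h.hn]
      have : w * w ≤ w ^ 32 := by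
        calc w * w = w ^ 2 := by ring
          _ ≤ w ^ 32 := pow_le_pow_right₀ (by linarith) (by norm_num)
      nlinarith
    have c2 : ((n : ℝ) ^ 2 * Real.exp (-(2 * (u : ℝ)))) * (4 * ((G : ℝ) ^ 8 + 1) * (n : ℝ) ^ 2) ≤
        ((n : ℝ) ^ 2 * Real.exp (-(2 * (u : ℝ)))) * (n * (n : ℝ) ^ 2) := by gcongr
    refine c2.trans ?_
    have c3 : (n : ℝ) ^ 2 * Real.exp (-(2 * (u : ℝ))) * (n * (n : ℝ) ^ 2) =
        (n : ℝ) ^ 5 * Real.exp (-(2 * (u : ℝ))) := by ring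
    have c4 : (n : ℝ) ^ 5 = Real.exp (5 * L) := by
      rw [← h.expL, ← Real.exp_nat_mul]
      norm_num
    rw [c3, c4, ← Real.exp_add]
    apply Real.exp_le_exp.2
    linarith
  -- (6)
  have b6 : lamn n * j ≤ 2 * (s * q) := by
    have : lamn n * j = (r * lamn n) * q := by rw [← hrq]; ring
    rw [this]
    have := mul_le_mul_of_nonneg_right hs3 (show 0 ≤ q by linarith)
    linarith
  have hsr : 1024 * (s : ℝ) ≤ r := by
    have := mul_le_mul_of_nonneg_left h.lamn_le hr0.le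
    linarith
  have e4 : (32 : ℝ) ≤ Real.exp 4 := by
    have h1 := Real.exp_one_gt_d9
    have h2 : Real.exp 4 = Real.exp 1 ^ 4 := by
      rw [← Real.exp_nat_mul]; norm_num
    rw [h2]
    calc (32 : ℝ) ≤ 2.7 ^ 4 := by norm_num
      _ ≤ Real.exp 1 ^ 4 := pow_le_pow_left₀ (by norm_num) (by linarith) 4
  have b7 : 32 * Real.exp (42 * q - 3 * (s * q)) ≤ Real.exp (-(2 * (s * q))) := by
    calc 32 * Real.exp (42 * q - 3 * (s * q)) ≤ Real.exp 4 * Real.exp (42 * q - 3 * (s * q)) :=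
          mul_le_mul_of_nonneg_right e4 (Real.exp_pos _).le
      _ = Real.exp (4 + (42 * q - 3 * (s * q))) := by rw [← Real.exp_add]
      _ ≤ _ := by
          apply Real.exp_le_exp.2
          have : 46 * q ≤ s * q := mul_le_mul_of_nonneg_right (by linarith) (by linarith)
          linarith
  have b8 : 32 * Real.exp (42 * q - j) ≤ Real.exp (-(2 * (s * q))) := by
    calc 32 * Real.exp (42 * q - j) ≤ Real.exp 4 * Real.exp (42 * q - j) :=
          mul_le_mul_of_nonneg_right e4 (Real.exp_pos _).le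
      _ = Real.exp (4 + (42 * q - j)) := by rw [← Real.exp_add]
      _ ≤ _ := by
          apply Real.exp_le_exp.2
          rw [← hrq]
          have : (2 * s + 46) * q ≤ r * q :=
            mul_le_mul_of_nonneg_right (by linarith) (by linarith)
          linarith
  have b9 : Real.exp (-(2 * (s * q))) ≤ Real.exp (-(lamn n * j)) := Real.exp_le_exp.2 (by linarith)
  have hj0 : (0 : ℝ) ≤ j := Nat.cast_nonneg _
  have b10 : Real.exp (-(2 * j)) * Real.exp (j / 4) ≤ Real.exp (-(j : ℝ)) := by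
    rw [← Real.exp_add]
    apply Real.exp_le_exp.2
    linarith
  have hM0 : (0 : ℝ) ≤ ((9 : ℝ) ^ N) ^ (8 * p) := by positivity
  have b11 : (1 / (G : ℝ)) ^ j * ((9 : ℝ) ^ N) ^ (8 * p) ≤ Real.exp (-(j : ℝ)) :=
    (mul_le_mul b4 b3 hM0 (Real.exp_pos _).le).trans b10
  have b12 : ((9 : ℝ) ^ N) ^ (8 * p) * (((n : ℝ) ^ 2 * Real.exp (-(2 * (u : ℝ)))) *
      (4 * ((G : ℝ) ^ 8 + 1) * (n : ℝ) ^ 2)) ≤ Real.exp (-(j : ℝ)) := by
    refine (mul_le_mul b3 b5 (by positivity) (Real.exp_pos _).le).trans ?_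
    rw [mul_comm]
    exact b10
  have b13 : 4 * (3 * (2 * n * Real.exp (-(s : ℝ)) ^ 4)) ^ p +
      2 * ((1 / (G : ℝ)) ^ j * ((9 : ℝ) ^ N) ^ (8 * p) + ((9 : ℝ) ^ N) ^ (8 * p) *
        (((n : ℝ) ^ 2 * Real.exp (-(2 * (u : ℝ)))) * (4 * ((G : ℝ) ^ 8 + 1) * (n : ℝ) ^ 2))) ≤
      4 * Real.exp (-(3 * (s * q))) + 4 * Real.exp (-(j : ℝ)) := by linarith
  have b14 : 4 * (1024 : ℝ) ^ (2 * (p + 1)) ≤ 4 * Real.exp (42 * q) := by linarith
  have b15 := mul_le_mul b14 b13 (by positivity) (by positivity)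
  refine b15.trans ?_
  have b16 : 4 * Real.exp (42 * q) * (4 * Real.exp (-(3 * (s * q))) + 4 * Real.exp (-(j : ℝ))) =
      16 * Real.exp (42 * q - 3 * (s * q)) + 16 * Real.exp (42 * q - j) := by
    rw [sub_eq_add_neg, sub_eq_add_neg, Real.exp_add, Real.exp_add]
    ring
  rw [b16]
  linarith

end NFx

end CG45
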