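import Pool.Agent.H45.CG.Wts

/-! The word round for one irreducible representation. -/

set_option autoImplicit false
set_option linter.unusedSectionVars false

namespace CG45
open RC14 RC852 TE852 LL14 LG45 Finset
open scoped InnerProductSpace

section gen
variable {G : Type*} [Group G] [Fintype G]
variable {V : Type*} [NormedAddCommGroup V] [InnerProductSpace ℂ V] [FiniteDimensional ℂ V]

/-- spectral decomposition of the energy -/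
theorem spec_stp (ρ : G →* (V ≃ₗᵢ[ℂ] V)) {k : ℕ} (x : Fin k → G) (η : ℝ) (hη : 0 < η)
    (hη1 : 4 * k * η ≤ 1) :
    ∃ (b : OrthonormalBasis (Fin (Module.finrank ℂ V)) ℂ V)
      (μ : Fin (Module.finrank ℂ V) → ℝ), opf ρ (stp η x) = dg b μ ∧ (∀ i, 0 ≤ μ i) ∧
      (∀ i, μ i ≤ 1) ∧ ∀ v, En ρ x v = ∑ i, (1 - μ i) / η * ‖⟪b i, v⟫_ℂ‖ ^ 2 := by
  obtain ⟨b, μ, hb⟩ := exists_dg (opf ρ (stp η x)) (opf_symm ρ _ (stp_inv η x))
  have hE : ∀ v, En ρ x v = ∑ i, (1 - μ i) / η * ‖⟪b i, v⟫_ℂ‖ ^ 2 := by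
    intro v
    have h1 := stp_energy ρ η x v
    rw [hb, re_dg, nsq b v] at h1
    have h2 : η * En ρ x v = ∑ i, (1 - μ i) * ‖⟪b i, v⟫_ℂ‖ ^ 2 := by
      have h3 : ∑ i, (1 - μ i) * ‖⟪b i, v⟫_ℂ‖ ^ 2 =
          ∑ i, ‖⟪b i, v⟫_ℂ‖ ^ 2 - ∑ i, μ i * ‖⟪b i, v⟫_ℂ‖ ^ 2 := by
        rw [← Finset.sum_sub_distrib]
        exact Finset.sum_congr rfl fun i _ => by ring
      rw [h3, h1]
      ring
    have h4 : En ρ x v = (1 / η) * (η * En ρ x v) := by field_simp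
    rw [h4, h2, Finset.mul_sum]
    refine Finset.sum_congr rfl fun i _ => ?_
    ring
  have hEi : ∀ i, En ρ x (b i) = (1 - μ i) / η := by
    intro i
    classical
    rw [hE, Finset.sum_eq_single i]
    · rw [b.inner_eq_one i]; simp
    · intro l _ hl
      rw [b.inner_eq_zero hl]
      simp
    · simp
  refine ⟨b, μ, hb, fun i => ?_, fun i => ?_, hE⟩
  · have h1 := RET.En_le ρ x (b i)
    rw [hEi, b.norm_eq_one, one_pow, mul_one, div_le_iff₀ hη] at h1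
    linarith
  · have h1 := RC14.En_nonneg ρ x (b i)
    rw [hEi] at h1
    have h2 : 0 ≤ (1 - μ i) / η * η := mul_nonneg h1 hη.le
    rw [div_mul_cancel₀ _ hη.ne'] at h2
    linarith

/-- large powers of the eigenvalues -/
theorem pow_eig (μ τ ε c : ℝ) (δ : ℕ) (hτ0 : 0 < τ) (hε1 : ε ≤ 1) (hc : 1 ≤ c)
    (hτ : τ ≤ ε / 8) (hδ : (δ : ℝ) ≤ c / τ + 1) (hμ : 1 - (1 - ε) * τ ≤ μ) :
    Real.exp (-(c * (1 - ε / 2))) ≤ μ ^ δ := by
  have hε0 : 0 < ε := by linarith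
  set u := (1 - ε) * τ with hu
  have hu0 : 0 ≤ u := mul_nonneg (by linarith) hτ0.le
  have hu1 : u ≤ τ := by
    rw [hu]; nlinarith
  have hτ8 : τ ≤ 1 / 8 := by linarith
  have h1 : Real.exp (-(u * (1 + τ))) ≤ 1 - u := by
    -- `exp (-z) ≤ 1 / (1 + z)`
    have hz : 0 ≤ u * (1 + τ) := by positivity
    have h2 : 1 + u * (1 + τ) ≤ Real.exp (u * (1 + τ)) := by
      have := Real.add_one_le_exp (u * (1 + τ))
      linarith
    have hz2 : 1 + u * (1 + τ) + (u * (1 + τ)) ^ 2 / 2 ≤ Real.exp (u * (1 + τ)) :=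
      Real.quadratic_le_exp_of_nonneg hz
    rw [Real.exp_neg]
    have h3 : 1 ≤ (1 - u) * Real.exp (u * (1 + τ)) := by
      have h4 : 0 ≤ 1 - u := by linarith
      refine le_trans ?_ (mul_le_mul_of_nonneg_left hz2 h4)
      have e1 : (1 - u) * (1 + u * (1 + τ) + (u * (1 + τ)) ^ 2 / 2) =
          1 + u * τ - u ^ 2 * (1 + τ) + (1 - u) * (u * (1 + τ)) ^ 2 / 2 := by ring
      rw [e1]
      have e2 : u * τ - u ^ 2 * (1 + τ) + (1 - u) * (u * (1 + τ)) ^ 2 / 2 =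
        u * (τ - u) + u ^ 2 * ((1 - u) * (1 + τ) ^ 2 / 2 - τ) := by ring
      have e3 : 0 ≤ (1 - u) * (1 + τ) ^ 2 / 2 - τ := by nlinarith
      have e4 : 0 ≤ u * (τ - u) := mul_nonneg hu0 (by linarith)
      have e5 : 0 ≤ u ^ 2 * ((1 - u) * (1 + τ) ^ 2 / 2 - τ) := mul_nonneg (sq_nonneg _) e3
      linarith
    rw [inv_le_iff_one_le_mul₀ (Real.exp_pos _)]
    exact h3
  have h5 : Real.exp (-(u * (1 + τ))) ≤ μ := h1.trans (by linarith)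
  refine le_trans ?_ (pow_le_pow_left₀ (Real.exp_pos _).le h5 δ)
  rw [← Real.exp_nat_mul]
  apply Real.exp_le_exp.2
  have h6 : (δ : ℝ) * (u * (1 + τ)) ≤ c * (1 - ε / 2) := by
    have h7 : (δ : ℝ) * (u * (1 + τ)) ≤ (c / τ + 1) * (u * (1 + τ)) :=
      mul_le_mul_of_nonneg_right hδ (by positivity)
    have h8 : (c / τ + 1) * (u * (1 + τ)) = (c + τ) * ((1 - ε) * (1 + τ)) := by
      rw [hu]
      field_simp
    rw [h8] at h7
    refine h7.trans ?_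
    have h9 : c + τ ≤ c * (1 + ε / 8) := by nlinarith
    have h10 : (1 - ε) * (1 + τ) ≤ (1 - ε) * (1 + ε / 8) :=
      mul_le_mul_of_nonneg_left (by linarith) (by linarith)
    have h11 : (c + τ) * ((1 - ε) * (1 + τ)) ≤ (c * (1 + ε / 8)) * ((1 - ε) * (1 + ε / 8)) :=
      mul_le_mul h9 h10 (mul_nonneg (by linarith) (by linarith)) (by positivity)
    refine h11.trans ?_
    have h12 : (1 + ε / 8) * ((1 - ε) * (1 + ε / 8)) ≤ 1 - ε / 2 := by nlinarith [mul_pos hε0 hε0]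
    nlinarith
  linarith

omit [Fintype G] in
theorem En_one (ρ : G →* (V ≃ₗᵢ[ℂ] V)) (b : Fin 1 → G) (v : V) :
    En ρ b v = ‖ρ (b 0) v - v‖ ^ 2 := by
  unfold En
  rw [Fin.sum_univ_one]

omit [Fintype G] in
/-- from the restricted representation to the subspace -/
theorem NRK.of_res (W : Submodule ℂ V) (Φ : V → ℝ) (Ψ : W → ℝ) (τ δ : ℝ)
    (h : ∀ w : W, Ψ w ≤ Φ (w : V)) (hL : NRK (⊤ : Submodule ℂ W) Ψ τ δ) : NRK W Φ τ δ := by
  intro U hU hΦ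
  have h1 := hL (U.comap W.subtype) le_top (by
    intro u hu
    have h2 := hΦ (u : V) hu
    refine (h u).trans (h2.trans (le_of_eq ?_))
    rw [Submodule.coe_norm])
  have h3 : Module.finrank ℂ (U.comap W.subtype) = Module.finrank ℂ U := by
    have h4 := Submodule.finrank_map_subtype_eq W (U.comap W.subtype)
    rw [← h4, Submodule.map_comap_subtype, inf_eq_right.2 hU]
  rw [h3, finrank_top] at h1
  exact h1

omit [Fintype G] in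
/-- from the subspace to the restricted representation -/
theorem NRK.to_res (W : Submodule ℂ V) (Φ : V → ℝ) (Ψ : W → ℝ) (τ δ : ℝ)
    (h : ∀ w : W, Φ (w : V) ≤ Ψ w) (hL : NRK W Φ τ δ) : NRK (⊤ : Submodule ℂ W) Ψ τ δ := by
  intro U _ hΨ
  have h1 := hL (U.map W.subtype) (by
    rintro _ ⟨w, _, rfl⟩
    exact w.2) (by
    rintro _ ⟨w, hw, rfl⟩
    have h2 := hΨ w hw
    rw [Submodule.coe_norm] at h2
    exact (h w).trans h2)
  rw [Submodule.finrank_map_subtype_eq] at h1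
  rw [finrank_top]
  exact h1

end gen

variable {n : ℕ}
variable {V : Type*} [NormedAddCommGroup V] [InnerProductSpace ℂ V] [FiniteDimensional ℂ V]

/-- the word round for one representation -/
theorem WREP (ρ : Alt n →* (V ≃ₗᵢ[ℂ] V)) {k : ℕ} (x : Fin k → Alt n) (b : Fin 1 → Alt n)
    (η t ε c : ℝ) (hη : 0 < η) (hη1 : 4 * k * η ≤ 1) (ht : 0 < t) (hε1 : ε ≤ 1)
    (hc : 1 ≤ c) (hτ : η * t ≤ ε / 8) (δ : ℕ) (hδ : (δ : ℝ) ≤ c / (η * t) + 1)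
    (N s : ℕ) (f : Polynomial ℝ) (hf1 : f.natDegree ≤ N)
    (hf2 : ∀ x : ℝ, 0 ≤ x → x ≤ 1 → 0 ≤ f.eval x ∧ f.eval x ≤ 1)
    (hf3 : ∀ x : ℝ, x ≤ 1 → 2 * (s : ℝ) ≤ N * x → 8 ≤ N * x → 1 / 2 ≤ f.eval x)
    (hN : 2 * (s : ℝ) ≤ N * Real.exp (-(c * (1 - ε / 2)))) (hs : 4 ≤ s)
    (Dg Fx : ℕ) (ζ1 ζ2 β M1 X : ℝ)
    (hd1 : nrm1 (dd Dg (wa (f * f) δ (2 * N) (stp η x))) ≤ ζ1)
    (hd2 : nrm1 (dd Dg (conv (nd Dg (wa (f * f) δ (2 * N) (stp η x)))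
      (nd Dg (wa (f * f) δ (2 * N) (stp η x))))) ≤ ζ2)
    (hζ1 : ζ1 ≤ 1 / 10) (hζ2 : ζ2 ≤ 1 / 10) (hβ : 0 ≤ β) (hM1 : 1 ≤ M1)
    (hM : nrm1 (wa (f * f) δ (2 * N) (stp η x)) ≤ M1)
    (hX : 0 ≤ X) (p : ℕ)
    (hp : (1 + ζ1) ^ (2 * p + 1) - 1 ≤ (1 / 1024 : ℝ) ^ (p + 1) / 2)
    (hchar : ∀ g : Alt n, nfix (cp g) < Fx → |rtr (op ρ g)| ≤ β * Module.finrank ℂ V)
    (hbad : ∀ k, k + 1 ≤ 2 * p → ∀ s < 2,
      bad Fx (cseq k (nd Dg (wa (f * f) δ (2 * N) (stp η x)))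
        (nd Dg (conv (nd Dg (wa (f * f) δ (2 * N) (stp η x)))
          (nd Dg (wa (f * f) δ (2 * N) (stp η x)))))) (2 * k + 2) s b ≤ X)
    (τ1 c' δ1 : ℝ) (hc' : 0 < c') (hc1' : c' ≤ 1 / 2) (hτ1 : τ1 + 16 * c' ≤ (1 - ε) * t)
    (h1 : NRK (⊤ : Submodule ℂ V) (En ρ x) τ1 δ1) :
    NRK (⊤ : Submodule ℂ V) (En ρ (Fin.append x b)) (τ1 + c') (δ1 +
      4 * 1024 ^ (2 * (p + 1)) * (4 * (3 * ζ2) ^ p + 2 * (β * M1 ^ (8 * p) + X))) := by
  obtain ⟨b0, μ, hb0, hμ0, hμ1, hE⟩ := spec_stp ρ x η hη hη1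
  have hηt : 0 < η * t := mul_pos hη ht
  have hpow1 : ∀ i, μ i ^ δ ≤ 1 := fun i => pow_le_one₀ (hμ0 i) (hμ1 i)
  have hpow0 : ∀ i, 0 ≤ μ i ^ δ := fun i => pow_nonneg (hμ0 i) _
  have hQ : opf ρ (wa (f * f) δ (2 * N) (stp η x)) =
      dg b0 (fun i => f.eval (μ i ^ δ)) * dg b0 (fun i => f.eval (μ i ^ δ)) := by
    rw [opf_wa ρ b0 μ (f * f) δ (2 * N) (by
      have := Polynomial.natDegree_mul_le (p := f) (q := f)
      omega) _ hb0, dg_mul]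
    congr 1
    funext i
    rw [Polynomial.eval_mul]
  set φ : Fin (Module.finrank ℂ V) → ℝ := fun i => (1 - μ i) / η with hφ
  have hMv := WORD2 ρ b0 (fun i => f.eval (μ i ^ δ)) {i | φ i ≤ (1 - ε) * t}
    (fun i => (hf2 _ (hpow0 i) (hpow1 i)).1) (fun i => (hf2 _ (hpow0 i) (hpow1 i)).2)
    (fun i hi => by
      have hi' : (1 - μ i) / η ≤ (1 - ε) * t := hi
      rw [div_le_iff₀ hη] at hi'
      have h2 := pow_eig (μ i) (η * t) ε c δ hηt hε1 hc hτ hδ (by nlinarith)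
      have hN0 : (0 : ℝ) ≤ N := Nat.cast_nonneg _
      have h3 := mul_le_mul_of_nonneg_left h2 hN0
      have hs' : (4 : ℝ) ≤ s := by exact_mod_cast hs
      exact hf3 _ (hpow1 i) (hN.trans h3) (by linarith))
    (wa (f * f) δ (2 * N) (stp η x)) (wa_inv _ _ _ _ (stp_inv η x)) hQ Dg Fx ζ1 ζ2 β M1 X
    hd1 hd2 hζ1 hζ2 hβ hM1 hM hX b p hp hchar hbad
  have h2 := DSTEP b0 φ (En ρ x) hE (ρ (b 0)) ((1 - ε) * t) τ1 c' δ1 _ hc' hc1' hτ1 h1 hMv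
  refine h2.mono (fun v _ => ?_) le_rfl le_rfl
  rw [En_append, En_one]

end CG45
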