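import Pool.Agent.H45.CG.Wrd2

/-! The step distribution of a very lazy walk and its powers. -/

set_option autoImplicit false
set_option linter.unusedSectionVars false

namespace CG45
open RC14 RC852 TE852 LL14 LG45 Finset
open scoped InnerProductSpace

section fn
variable {G : Type*} [Group G] [Fintype G]

theorem conv_assoc (a b c : G → ℝ) : conv (conv a b) c = conv a (conv b c) := by
  funext g
  have h1 : conv (conv a b) c g = ∑ k, conv a b k * c (k⁻¹ * g) := rfl
  rw [h1, sum_conv_mul]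
  unfold conv
  refine Finset.sum_congr rfl fun h _ => ?_
  rw [Finset.mul_sum]
  refine Finset.sum_congr rfl fun k _ => ?_
  rw [mul_inv_rev, mul_assoc k⁻¹]
  ring

theorem conv_inv (a b : G → ℝ) (ha : ∀ g, a g⁻¹ = a g) (hb : ∀ g, b g⁻¹ = b g) (g : G) :
    conv a b g⁻¹ = conv b a g := by
  unfold conv
  rw [← Equiv.sum_comp (Equiv.mulLeft g⁻¹)]
  refine Finset.sum_congr rfl fun h _ => ?_
  have e1 : (Equiv.mulLeft g⁻¹) h = g⁻¹ * h := rfl
  rw [e1]
  have e2 : (g⁻¹ * h)⁻¹ * g⁻¹ = h⁻¹ := by group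
  have e3 : h⁻¹ * g = (g⁻¹ * h)⁻¹ := by group
  rw [e2, e3, ha, hb]
  ring

/-- the unit mass at the identity -/
noncomputable def one1 (g : G) : ℝ := by
  classical exact if g = 1 then 1 else 0

/-- convolution powers -/
noncomputable def cpow (P : G → ℝ) : ℕ → G → ℝ
  | 0 => one1
  | m + 1 => conv (cpow P m) P

theorem conv_one1 (a : G → ℝ) : conv a one1 = a := by
  classical
  funext g
  unfold conv one1
  rw [Finset.sum_eq_single g]
  · simp
  · intro h _ hg
    rw [if_neg, mul_zero]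
    intro h2
    exact hg (by rw [inv_mul_eq_one] at h2; exact h2)
  · simp

theorem one1_conv (a : G → ℝ) : conv one1 a = a := by
  classical
  funext g
  unfold conv one1
  rw [Finset.sum_eq_single 1]
  · simp
  · intro h _ hg
    rw [if_neg hg, zero_mul]
  · simp

theorem cpow_add (P : G → ℝ) (k l : ℕ) : cpow P (k + l) = conv (cpow P k) (cpow P l) := by
  induction l with
  | zero =>
    have : cpow P 0 = one1 := rfl
    rw [this, conv_one1, add_zero]
  | succ l ih =>
    have h1 : cpow P (k + (l + 1)) = conv (cpow P (k + l)) P := rfl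
    have h2 : cpow P (l + 1) = conv (cpow P l) P := rfl
    rw [h1, h2, ih, conv_assoc]

theorem cpow_nonneg (P : G → ℝ) (hP : ∀ g, 0 ≤ P g) (m : ℕ) (g : G) : 0 ≤ cpow P m g := by
  classical
  induction m generalizing g with
  | zero =>
    have : cpow P 0 g = one1 g := rfl
    rw [this]
    unfold one1
    split_ifs <;> norm_num
  | succ m ih => exact conv_nonneg _ _ ih hP g

theorem cpow_inv (P : G → ℝ) (hP : ∀ g, P g⁻¹ = P g) (m : ℕ) (g : G) :
    cpow P m g⁻¹ = cpow P m g := by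
  classical
  have hP1 : cpow P 1 = P := by
    have : cpow P 1 = conv one1 P := rfl
    rw [this, one1_conv]
  induction m generalizing g with
  | zero =>
    have : ∀ g, cpow P 0 g = one1 g := fun _ => rfl
    rw [this, this]
    unfold one1
    simp
  | succ m ih =>
    have h1 : cpow P (m + 1) = conv (cpow P m) P := rfl
    have h2 : conv P (cpow P m) = conv (cpow P m) P := by
      have e1 := cpow_add P 1 m
      rw [hP1, add_comm] at e1
      rw [← e1]
      rfl
    rw [h1, conv_inv _ _ ih hP, h2]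

theorem sum_cpow (P : G → ℝ) (hP : ∑ g, P g = 1) (m : ℕ) : ∑ g, cpow P m g = 1 := by
  classical
  induction m with
  | zero =>
    have : ∀ g, cpow P 0 g = one1 g := fun _ => rfl
    simp only [this]
    unfold one1
    simp
  | succ m ih =>
    have h1 : cpow P (m + 1) = conv (cpow P m) P := rfl
    have h2 := sum_conv_mul (cpow P m) P (fun _ => 1)
    simp only [mul_one] at h2
    rw [h1, h2, ← Finset.sum_mul_sum, ih, hP, one_mul]

/-- step distribution: stay with probability `1 - 2 k η` -/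
noncomputable def stp {k : ℕ} (η : ℝ) (x : Fin k → G) (g : G) : ℝ :=
  (1 - 2 * k * η) * one1 g + η * ∑ i, (one1 (g⁻¹ * x i) + one1 (g * x i))

theorem one1_inv (g : G) : one1 g⁻¹ = one1 g := by
  classical
  unfold one1
  simp

theorem one1_comm (g h : G) : one1 (g * h) = one1 (h * g) := by
  classical
  unfold one1
  have : g * h = 1 ↔ h * g = 1 := mul_eq_one_comm
  simp only [this]

theorem one1_nonneg (g : G) : 0 ≤ one1 g := by
  classical
  unfold one1
  split_ifs <;> norm_num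

theorem stp_inv {k : ℕ} (η : ℝ) (x : Fin k → G) (g : G) : stp η x g⁻¹ = stp η x g := by
  unfold stp
  rw [one1_inv]
  congr 2
  refine Finset.sum_congr rfl fun i _ => ?_
  rw [inv_inv, add_comm]

theorem stp_nonneg {k : ℕ} (η : ℝ) (hη : 0 ≤ η) (hη1 : 2 * k * η ≤ 1) (x : Fin k → G) (g : G) :
    0 ≤ stp η x g := by
  unfold stp
  have h1 := one1_nonneg g
  have h2 : 0 ≤ ∑ i, (one1 (g⁻¹ * x i) + one1 (g * x i)) :=
    Finset.sum_nonneg fun i _ => add_nonneg (one1_nonneg _) (one1_nonneg _)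
  have h3 : 0 ≤ (1 - 2 * k * η) := by linarith
  positivity

theorem sum_one1_mul (x : G) (φ : G → ℝ) : ∑ g, one1 (g⁻¹ * x) * φ g = φ x := by
  classical
  rw [Finset.sum_eq_single x]
  · unfold one1; simp
  · intro g _ hg
    unfold one1
    rw [if_neg, zero_mul]
    intro h
    rw [inv_mul_eq_one] at h
    exact hg h
  · simp

theorem sum_one1_mul' (x : G) (φ : G → ℝ) : ∑ g, one1 (g * x) * φ g = φ x⁻¹ := by
  classical
  rw [Finset.sum_eq_single x⁻¹]
  · unfold one1; simp
  · intro g _ hg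
    unfold one1
    rw [if_neg, zero_mul]
    intro h
    exact hg (eq_inv_of_mul_eq_one_left h)
  · simp

theorem sum_one1 (φ : G → ℝ) : ∑ g, one1 g * φ g = φ 1 := by
  have := sum_one1_mul' (1 : G) φ
  simpa using this

theorem sum_stp_mul {k : ℕ} (η : ℝ) (x : Fin k → G) (φ : G → ℝ) :
    ∑ g, stp η x g * φ g = (1 - 2 * k * η) * φ 1 + η * ∑ i, (φ (x i) + φ (x i)⁻¹) := by
  have h1 : ∀ g, stp η x g * φ g = (1 - 2 * k * η) * (one1 g * φ g) +
      η * ∑ i, (one1 (g⁻¹ * x i) * φ g + one1 (g * x i) * φ g) := by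
    intro g
    unfold stp
    have e1 : ∑ i, (one1 (g⁻¹ * x i) * φ g + one1 (g * x i) * φ g) =
        (∑ i, (one1 (g⁻¹ * x i) + one1 (g * x i))) * φ g := by
      rw [Finset.sum_mul]
      exact Finset.sum_congr rfl fun i _ => by ring
    rw [e1]
    ring
  simp only [h1]
  rw [Finset.sum_add_distrib, ← Finset.mul_sum, ← Finset.mul_sum, sum_one1, Finset.sum_comm]
  congr 2
  refine Finset.sum_congr rfl fun i _ => ?_
  rw [Finset.sum_add_distrib, sum_one1_mul, sum_one1_mul']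

theorem sum_stp {k : ℕ} (η : ℝ) (x : Fin k → G) : ∑ g, stp η x g = 1 := by
  have h := sum_stp_mul η x (fun _ => 1)
  simp only [mul_one] at h
  rw [h, Finset.sum_const, Finset.card_univ, Fintype.card_fin, nsmul_eq_mul]
  ring

end fn

section op
variable {G : Type*} [Group G] [Fintype G]
variable {V : Type*} [NormedAddCommGroup V] [InnerProductSpace ℂ V] [FiniteDimensional ℂ V]

theorem opf_one1 (ρ : G →* (V ≃ₗᵢ[ℂ] V)) : opf ρ one1 = 1 := by
  classical
  unfold opf
  rw [Finset.sum_eq_single 1]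
  · unfold one1; simp [op_one]
  · intro g _ hg
    unfold one1
    simp [hg]
  · simp

theorem opf_cpow (ρ : G →* (V ≃ₗᵢ[ℂ] V)) (P : G → ℝ) (m : ℕ) :
    opf ρ (cpow P m) = opf ρ P ^ m := by
  induction m with
  | zero =>
    have : cpow P 0 = (one1 : G → ℝ) := rfl
    rw [this, opf_one1, pow_zero]
  | succ m ih =>
    have : cpow P (m + 1) = conv (cpow P m) P := rfl
    rw [this, opf_conv, ih, pow_succ]

theorem re_opf (ρ : G →* (V ≃ₗᵢ[ℂ] V)) (a : G → ℝ) (v : V) :
    (⟪opf ρ a v, v⟫_ℂ).re = ∑ g, a g * (⟪ρ g v, v⟫_ℂ).re := by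
  rw [opf_apply, sum_inner, Complex.re_sum]
  refine Finset.sum_congr rfl fun g _ => ?_
  rw [inner_smul_left, Complex.conj_ofReal, Complex.re_ofReal_mul]

/-- energy -/
theorem stp_energy (ρ : G →* (V ≃ₗᵢ[ℂ] V)) {k : ℕ} (η : ℝ) (x : Fin k → G) (v : V) :
    (⟪opf ρ (stp η x) v, v⟫_ℂ).re = ‖v‖ ^ 2 - η * En ρ x v := by
  rw [re_opf, sum_stp_mul]
  have h1 : ∀ g : G, (⟪ρ g⁻¹ v, v⟫_ℂ).re = (⟪ρ g v, v⟫_ℂ).re := by
    intro g
    rw [map_inv]
    have := inner_symm' (ρ g) v v
    have e : ⟪(ρ g)⁻¹ v, v⟫_ℂ = ⟪(ρ g).symm v, v⟫_ℂ := rfl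
    rw [e, this, ← inner_conj_symm, Complex.conj_re]
  have h2 : ∀ g : G, ‖ρ g v - v‖ ^ 2 = 2 * ‖v‖ ^ 2 - 2 * (⟪ρ g v, v⟫_ℂ).re := by
    intro g
    have h3 := @norm_sub_sq ℂ _ _ _ _ (ρ g v) v
    rw [(ρ g).norm_map] at h3
    have h4 : RCLike.re (⟪ρ g v, v⟫_ℂ) = (⟪ρ g v, v⟫_ℂ).re := rfl
    rw [h4] at h3
    linarith
  have h3 : (⟪ρ 1 v, v⟫_ℂ).re = ‖v‖ ^ 2 := by
    rw [map_one]
    exact inner_self_eq_norm_sq (𝕜 := ℂ) v
  unfold En
  simp only [h1, h2, h3]
  rw [Finset.sum_sub_distrib, Finset.sum_const, Finset.card_univ, Fintype.card_fin, nsmul_eq_mul,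
    ← Finset.mul_sum, Finset.sum_add_distrib]
  ring

end op

end CG45
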