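import Pool.Agent.H45.CG.HSR

/-! From large singular values of `E h E` to alternating products. -/

set_option autoImplicit false
set_option linter.unusedSectionVars false

namespace CG45
open RC14 RC852 TE852 LL14 LG45 Finset
open scoped InnerProductSpace

variable {V : Type*} [NormedAddCommGroup V] [InnerProductSpace ℂ V] [FiniteDimensional ℂ V]

/-- the isometry as an endomorphism -/
noncomputable def lo (h : V ≃ₗᵢ[ℂ] V) : Module.End ℂ V := (h.toLinearEquiv : V →ₗ[ℂ] V)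

theorem lo_apply (h : V ≃ₗᵢ[ℂ] V) (v : V) : lo h v = h v := rfl

/-- `H` or its conjugate `h⁻¹ H h` -/
noncomputable def bq (h : V ≃ₗᵢ[ℂ] V) (H : Module.End ℂ V) (i : ℕ) : Module.End ℂ V :=
  if i % 2 = 0 then H else lo h.symm * H * lo h

theorem inner_symm' (h : V ≃ₗᵢ[ℂ] V) (v w : V) : ⟪h.symm v, w⟫_ℂ = ⟪v, h w⟫_ℂ := by
  have := h.inner_map_map (h.symm v) w
  rw [LinearIsometryEquiv.apply_symm_apply] at this
  exact this.symm

theorem bq_symm (h : V ≃ₗᵢ[ℂ] V) (H : Module.End ℂ V) (hH : H.IsSymmetric) (i : ℕ) :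
    (bq h H i).IsSymmetric := by
  unfold bq
  split_ifs
  · exact hH
  · intro v w
    simp only [Module.End.mul_apply, lo_apply]
    rw [inner_symm', hH, ← inner_conj_symm, ← inner_symm' h (H (h w)) v, inner_conj_symm]

theorem bq_norm (h : V ≃ₗᵢ[ℂ] V) (H : Module.End ℂ V) (c : ℝ) (hH : ∀ v, ‖H v‖ ≤ c * ‖v‖) (i : ℕ)
    (v : V) : ‖bq h H i v‖ ≤ c * ‖v‖ := by
  unfold bq
  split_ifs
  · exact hH v
  · simp only [Module.End.mul_apply, lo_apply]
    rw [h.symm.norm_map]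
    have := hH (h v)
    rwa [h.norm_map] at this

theorem bq_mul (h : V ≃ₗᵢ[ℂ] V) (H H' : Module.End ℂ V) (i : ℕ) :
    bq h H i * bq h H' i = bq h (H * H') i := by
  unfold bq
  split_ifs
  · rfl
  · ext v
    simp [Module.End.mul_apply, lo_apply]

theorem bq_add (h : V ≃ₗᵢ[ℂ] V) (H H' : Module.End ℂ V) (i : ℕ) :
    bq h (H + H') i = bq h H i + bq h H' i := by
  unfold bq
  split_ifs
  · rfl
  · simp only [mul_add, add_mul]

theorem bq_sub (h : V ≃ₗᵢ[ℂ] V) (H H' : Module.End ℂ V) (i : ℕ) :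
    bq h (H - H') i = bq h H i - bq h H' i := by
  unfold bq
  split_ifs
  · rfl
  · simp only [mul_sub, sub_mul]

theorem altp_norm (B : ℕ → Module.End ℂ V) (c : ℝ) (hc : 0 ≤ c) (hB : ∀ i v, ‖B i v‖ ≤ c * ‖v‖)
    (σ k : ℕ) (v : V) : ‖altp B σ k v‖ ≤ c ^ k * ‖v‖ := by
  induction k generalizing σ with
  | zero => simp [altp]
  | succ k ih =>
    rw [altp_succ, Module.End.mul_apply]
    refine (hB _ _).trans ?_
    calc c * ‖altp B (σ + 1) k v‖ ≤ c * (c ^ k * ‖v‖) := mul_le_mul_of_nonneg_left (ih _) hc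
      _ = c ^ (k + 1) * ‖v‖ := by ring

/-- comparison of two alternating products -/
theorem altp_diff (B B' : ℕ → Module.End ℂ V) (ζ : ℝ) (hζ : 0 ≤ ζ)
    (hB : ∀ i v, ‖B i v‖ ≤ 1 * ‖v‖) (hd : ∀ i v, ‖B i v - B' i v‖ ≤ ζ * ‖v‖) (σ k : ℕ) (v : V) :
    ‖altp B σ k v - altp B' σ k v‖ ≤ ((1 + ζ) ^ k - 1) * ‖v‖ := by
  have hB' : ∀ i v, ‖B' i v‖ ≤ (1 + ζ) * ‖v‖ := by
    intro i v
    have h1 : B' i v = B i v - (B i v - B' i v) := by abel
    rw [h1]
    refine (norm_sub_le _ _).trans ?_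
    have := hB i v
    have := hd i v
    linarith
  induction k generalizing σ with
  | zero => simp [altp]
  | succ k ih =>
    rw [altp_succ, altp_succ, Module.End.mul_apply, Module.End.mul_apply]
    have h1 : B σ (altp B (σ + 1) k v) - B' σ (altp B' (σ + 1) k v) =
        B σ (altp B (σ + 1) k v - altp B' (σ + 1) k v) +
        (B σ (altp B' (σ + 1) k v) - B' σ (altp B' (σ + 1) k v)) := by
      rw [map_sub]; abel
    rw [h1]
    refine (norm_add_le _ _).trans ?_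
    have h2 := (hB σ (altp B (σ + 1) k v - altp B' (σ + 1) k v)).trans
      (mul_le_mul_of_nonneg_left (ih (σ + 1)) zero_le_one)
    have h3 := (hd σ (altp B' (σ + 1) k v)).trans
      (mul_le_mul_of_nonneg_left (altp_norm B' (1 + ζ) (by linarith) hB' (σ + 1) k v) hζ)
    rw [pow_succ]
    nlinarith

section diag
variable {ι : Type*} [Fintype ι]

/-- convexity: powers of a positive operator -/
theorem pow_lower (X : Module.End ℂ V) (hX : X.IsSymmetric) (hX0 : ∀ v, 0 ≤ (⟪X v, v⟫_ℂ).re)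
    (ϑ : ℝ) (hϑ : 0 ≤ ϑ) (v : V) (hv : ϑ * ‖v‖ ^ 2 ≤ (⟪X v, v⟫_ℂ).re) (p : ℕ) :
    ϑ ^ p * ‖v‖ ≤ ‖(X ^ p) v‖ := by
  obtain ⟨b, μ, hμ⟩ := exists_dg X hX
  have hμ0 : ∀ i, 0 ≤ μ i := by
    intro i
    have h := hX0 (b i)
    rw [hμ, dg_basis, inner_smul_left, b.inner_eq_one i] at h
    simpa using h
  rcases eq_or_ne v 0 with h0 | h0
  · subst h0; simp
  have hn : 0 < ‖v‖ ^ 2 := by positivity
  rw [hμ, dg_pow]
  refine (pow_le_pow_iff_left₀ (by positivity) (norm_nonneg _) two_ne_zero).1 ?_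
  rw [nsq_dg, mul_pow]
  rw [hμ, re_dg] at hv
  have hs := nsq b v
  have h1 := Real.pow_arith_mean_le_arith_mean_pow Finset.univ
    (fun i => ‖⟪b i, v⟫_ℂ‖ ^ 2 / ‖v‖ ^ 2) μ (fun i _ => by positivity)
    (by rw [← Finset.sum_div, ← hs, div_self hn.ne']) (fun i _ => hμ0 i) (2 * p)
  have h2 : ∑ i, ‖⟪b i, v⟫_ℂ‖ ^ 2 / ‖v‖ ^ 2 * μ i = (∑ i, μ i * ‖⟪b i, v⟫_ℂ‖ ^ 2) / ‖v‖ ^ 2 := by
    rw [Finset.sum_div]
    exact Finset.sum_congr rfl fun i _ => by ring
  have h3 : ∑ i, ‖⟪b i, v⟫_ℂ‖ ^ 2 / ‖v‖ ^ 2 * μ i ^ (2 * p) =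
      (∑ i, (μ i ^ p) ^ 2 * ‖⟪b i, v⟫_ℂ‖ ^ 2) / ‖v‖ ^ 2 := by
    rw [Finset.sum_div]
    refine Finset.sum_congr rfl fun i _ => ?_
    rw [← pow_mul, mul_comm p 2]
    ring
  rw [h2, h3] at h1
  have h4 : ϑ ≤ (∑ i, μ i * ‖⟪b i, v⟫_ℂ‖ ^ 2) / ‖v‖ ^ 2 := by
    rw [le_div_iff₀ hn]; exact hv
  have h5 : ϑ ^ (2 * p) ≤ (∑ i, (μ i ^ p) ^ 2 * ‖⟪b i, v⟫_ℂ‖ ^ 2) / ‖v‖ ^ 2 :=
    (pow_le_pow_left₀ hϑ h4 _).trans h1
  rw [le_div_iff₀ hn] at h5
  rw [← pow_mul, mul_comm p 2]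
  exact h5

/-- powers of `F h⁻¹ F² h F` -/
theorem pow_alt (h : V ≃ₗᵢ[ℂ] V) (F : Module.End ℂ V) (p : ℕ) :
    (F * (lo h.symm * (F * F) * lo h) * F) ^ (p + 1) =
      F * altp (bq h (F * F)) 1 (2 * p + 1) * F := by
  induction p with
  | zero =>
    rw [pow_one]
    have : altp (bq h (F * F)) 1 (2 * 0 + 1) = bq h (F * F) 1 * 1 := rfl
    rw [this, mul_one]
    rfl
  | succ p ih =>
    rw [pow_succ, ih]
    have h1 : bq h (F * F) (1 + (2 * p + 1)) = F * F := by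
      unfold bq
      rw [if_pos (by omega)]
    have h2 : bq h (F * F) (1 + (2 * p + 1 + 1)) = lo h.symm * (F * F) * lo h := by
      unfold bq
      rw [if_neg (by omega)]
    have e : altp (bq h (F * F)) 1 (2 * (p + 1) + 1) = altp (bq h (F * F)) 1 (2 * p + 1) *
        (F * F) * (lo h.symm * (F * F) * lo h) := by
      have e1 := altp_succ' (bq h (F * F)) 1 (2 * p + 1)
      have e2 := altp_succ' (bq h (F * F)) 1 (2 * p + 1 + 1)
      rw [e1, h1, h2] at e2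
      exact e2
    rw [e]
    simp only [mul_assoc]

/-- the main inequality -/
theorem WORD1 (b : OrthonormalBasis ι ℂ V) (f : ι → ℝ) (s : Set ι) (hf0 : ∀ i, 0 ≤ f i)
    (hf1 : ∀ i, f i ≤ 1) (hfs : ∀ i ∈ s, 1 / 2 ≤ f i) (h : V ≃ₗᵢ[ℂ] V) (H : Module.End ℂ V)
    (ζ : ℝ) (hζ : 0 ≤ ζ)
    (hH : ∀ v, ‖(dg b f * dg b f) v - H v‖ ≤ ζ * ‖v‖) (p : ℕ)
    (hp : (1 + ζ) ^ (2 * p + 1) - 1 ≤ (1 / 1024 : ℝ) ^ (p + 1) / 2)
    (S : Submodule ℂ V) (hS : ∀ u ∈ S, ‖u‖ ≤ 8 * ‖spj b s (h (spj b s u))‖) :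
    Module.finrank ℂ S * ((1 / 1024 : ℝ) ^ (p + 1) / 2) ^ 2 ≤
      hs (altp (bq h H) 1 (2 * p + 1)) := by
  classical
  set E := spj b s with hE
  set F := dg b f with hF
  set X := F * (lo h.symm * (F * F) * lo h) * F with hXd
  have hFs : F.IsSymmetric := dg_symm _ _
  have hEE : ∀ v, E (E v) = E v := fun v => spj_idem b _ v
  have hFn : ∀ v, ‖F v‖ ≤ ‖v‖ := fun v => dg_norm_le b f (fun i => by
    rw [abs_of_nonneg (hf0 i)]; exact hf1 i) v
  have hEn : ∀ v, ‖E v‖ ≤ ‖v‖ := fun v => spj_norm_le b s v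
  have hEF : ∀ v, E (F v) = F (E v) := by
    intro v
    have h1 : E * F = F * E := by
      rw [hE, hF]
      unfold spj
      rw [dg_mul, dg_mul]
      congr 1
      funext i
      ring
    exact congrArg (fun A : Module.End ℂ V => A v) h1
  have hFE : ∀ v, ‖E v‖ ≤ 2 * ‖F (E v)‖ := by
    intro v
    refine (pow_le_pow_iff_left₀ (norm_nonneg _) (by positivity) two_ne_zero).1 ?_
    rw [mul_pow, hF, nsq_dg, nsq b (E v), Finset.mul_sum]
    refine Finset.sum_le_sum fun i _ => ?_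
    rw [hE, spj, inner_dg]
    split_ifs with hi
    · have h1 := hfs i hi
      have h2 : 1 ≤ 2 ^ 2 * f i ^ 2 := by nlinarith
      have h3 : 0 ≤ ‖((1 : ℝ) : ℂ) * ⟪b i, v⟫_ℂ‖ ^ 2 := by positivity
      nlinarith
    · simp
  -- the inverse of `F` on the range of `E`
  set Kf : ι → ℝ := fun i => if i ∈ s then (f i)⁻¹ else 0 with hKf
  have hFK : ∀ v, F (dg b Kf v) = E v := by
    intro v
    have h1 : F * dg b Kf = E := by
      rw [hF, hE, dg_mul]
      unfold spj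
      congr 1
      funext i
      rw [hKf]
      simp only
      split_ifs with hi
      · have := hfs i hi
        exact mul_inv_cancel₀ (by linarith)
      · rw [mul_zero]
    exact congrArg (fun A : Module.End ℂ V => A v) h1
  have hKn : ∀ v, ‖dg b Kf v‖ ≤ 2 * ‖E v‖ := by
    intro v
    refine (pow_le_pow_iff_left₀ (norm_nonneg _) (by positivity) two_ne_zero).1 ?_
    rw [mul_pow, nsq_dg, nsq b (E v), Finset.mul_sum]
    refine Finset.sum_le_sum fun i _ => ?_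
    rw [hE, spj, inner_dg, hKf]
    simp only
    split_ifs with hi
    · have h1 := hfs i hi
      have h2 : (f i)⁻¹ ≤ 2 := by
        rw [inv_le_comm₀ (by linarith) (by norm_num)]
        linarith
      have h4 : 0 ≤ (f i)⁻¹ := by
        rw [inv_nonneg]; linarith
      have h5 : ((f i)⁻¹) ^ 2 ≤ 2 ^ 2 := pow_le_pow_left₀ h4 h2 2
      have h3 : 0 ≤ ‖⟪b i, v⟫_ℂ‖ ^ 2 := by positivity
      rw [Complex.ofReal_one, one_mul]
      exact mul_le_mul_of_nonneg_right h5 h3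
    · simp
  have hXe : ∀ v, (⟪X v, v⟫_ℂ).re = ‖F (h (F v))‖ ^ 2 := by
    intro v
    have e1 : X v = F (h.symm (F (F (h (F v))))) := rfl
    rw [e1, hFs, inner_symm', hFs]
    exact inner_self_eq_norm_sq (𝕜 := ℂ) _
  have hXs : X.IsSymmetric := by
    intro v w
    have e1 : ∀ v, X v = F (h.symm (F (F (h (F v))))) := fun v => rfl
    rw [e1, e1, hFs, inner_symm', hFs, ← inner_conj_symm, ← hFs, ← inner_symm' h _ (F v), ← hFs,
      inner_conj_symm]
  -- the subspace `E S`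
  have hinj : ∀ u ∈ S, E u = 0 → u = 0 := by
    intro u hu h0
    have h1 := hS u hu
    rw [h0, map_zero, map_zero, norm_zero, mul_zero] at h1
    exact norm_eq_zero.1 (le_antisymm h1 (norm_nonneg _))
  have hfr : Module.finrank ℂ (S.map E) = Module.finrank ℂ S := by
    have e : (E.domRestrict S).range = S.map E := by
      ext y
      simp only [LinearMap.mem_range, Submodule.mem_map, LinearMap.domRestrict_apply,
        Subtype.exists]
      constructor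
      · rintro ⟨a, ha, rfl⟩; exact ⟨a, ha, rfl⟩
      · rintro ⟨a, ha, rfl⟩; exact ⟨a, ha, rfl⟩
    rw [← e]
    apply LinearMap.finrank_range_of_inj
    rw [← LinearMap.ker_eq_bot, LinearMap.ker_eq_bot']
    intro z hz
    exact Subtype.ext (hinj z z.2 hz)
  rw [← hfr]
  refine finrank_le_hs _ _ _ (by positivity) ?_
  rintro _ ⟨u, hu, rfl⟩
  set v := dg b Kf u with hv
  have hFv : F v = E u := hFK u
  have h1 : ‖u‖ ≤ 16 * ‖F (h (F v))‖ := by
    have h2 := hS u hu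
    have h3 := hFE (h (E u))
    rw [← hEF] at h3
    have h4 := hEn (F (h (E u)))
    rw [hFv]
    linarith
  have h2 : ‖v‖ ≤ 2 * ‖u‖ := (hKn u).trans (by have := hEn u; linarith)
  have h3 : (1 / 1024 : ℝ) * ‖v‖ ^ 2 ≤ (⟪X v, v⟫_ℂ).re := by
    rw [hXe]
    have h4 : ‖v‖ ≤ 32 * ‖F (h (F v))‖ := by linarith
    have h5 := pow_le_pow_left₀ (norm_nonneg _) h4 2
    rw [mul_pow] at h5
    linarith
  have h4 := pow_lower X hXs (fun w => by rw [hXe]; positivity) (1 / 1024) (by norm_num) v h3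
    (p + 1)
  rw [hXd, pow_alt] at h4
  have h5 : (F * altp (bq h (F * F)) 1 (2 * p + 1) * F) v =
      F (altp (bq h (F * F)) 1 (2 * p + 1) (E u)) := by
    rw [← hFv]; rfl
  rw [h5] at h4
  have h6 := h4.trans (hFn _)
  have h7 : ‖E u‖ ≤ ‖v‖ := by rw [← hFv]; exact hFn v
  have h8 : (1 / 1024 : ℝ) ^ (p + 1) * ‖E u‖ ≤ (1 / 1024 : ℝ) ^ (p + 1) * ‖v‖ :=
    mul_le_mul_of_nonneg_left h7 (by positivity)
  have h9 := altp_diff (bq h (F * F)) (bq h H) ζ hζ (fun i v => by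
      refine bq_norm h _ 1 (fun v => ?_) i v
      rw [one_mul]
      exact (hFn _).trans (hFn v)) (fun i v => by
      have : bq h (F * F) i v - bq h H i v = bq h (F * F - H) i v := by
        rw [bq_sub]; rfl
      rw [this]
      exact bq_norm h _ ζ hH i v) 1 (2 * p + 1) (E u)
  have h10 : ‖altp (bq h (F * F)) 1 (2 * p + 1) (E u)‖ ≤
      ‖altp (bq h H) 1 (2 * p + 1) (E u)‖ + ‖altp (bq h (F * F)) 1 (2 * p + 1) (E u) -
        altp (bq h H) 1 (2 * p + 1) (E u)‖ := by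
    have := norm_add_le (altp (bq h H) 1 (2 * p + 1) (E u))
      (altp (bq h (F * F)) 1 (2 * p + 1) (E u) - altp (bq h H) 1 (2 * p + 1) (E u))
    rwa [add_sub_cancel] at this
  have h11 := h9.trans (mul_le_mul_of_nonneg_right hp (norm_nonneg _))
  linarith

end diag

end CG45
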