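import Pool.Agent.H45.CG.Num4

/-! The word round. -/

set_option autoImplicit false

namespace CG45
open RC14 RC852 TE852 LL14 LG45 Finset Filter

/-- the word round -/
theorem WORDN : ∃ G0 : ℕ, 2 ≤ G0 ∧ ∀ᶠ n : ℕ in atTop, ∀ G r : ℕ, G0 ≤ G → r * G ^ 256 ≤ n →
    Rr (3 / 4) n ≤ r → (G : ℝ) ^ 256 ≤ (n : ℝ) ^ (1 / Real.log (Real.log n)) →
    ∀ (k : ℕ) (x : Fin k → Alt n) (t τ1 c' B : ℝ), 0 < t → Good1 n r t x → 0 < c' →
    c' ≤ 1 / 2 → τ1 + 16 * c' ≤ (1 - 1 / Real.log (Real.log n)) * t →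
    RkL n r (r * G ^ 8) τ1 B (lamn n) x →
    (Nat.card {b : Fin 1 → Alt n //
      ¬ RkL n r (r * G ^ 8) (τ1 + c') (B + 1) (lamn n) (Fin.append x b)} : ℝ) ≤
      1 / (n : ℝ) ^ 2 * Fintype.card (Fin 1 → Alt n) := by
  obtain ⟨G1, hG1⟩ := RTEH
  refine ⟨max G1 12, (by norm_num : 2 ≤ 12).trans (le_max_right _ _), ?_⟩
  filter_upwards [NFx_ev] with n h G r hG hrn hRr hGn k x t τ1 c' B ht hx hc' hc1' hτ1 hR
  obtain ⟨w, hwd⟩ : ∃ w : ℝ, w = (n : ℝ) ^ (1 / 32 : ℝ) := ⟨_, rfl⟩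
  obtain ⟨L, hLd⟩ : ∃ L : ℝ, L = Real.log n := ⟨_, rfl⟩
  obtain ⟨LL, hLLd⟩ : ∃ LL : ℝ, LL = Real.log (Real.log n) := ⟨_, rfl⟩
  rw [← hwd, ← hLLd, ← hLd] at h
  rw [← hLLd] at hτ1 hGn
  have hG1' : G1 ≤ G := (le_max_left _ _).trans hG
  have hG12 : 12 ≤ G := (le_max_right _ _).trans hG
  have hG12' : (12 : ℝ) ≤ G := by exact_mod_cast hG12
  have hw := h.hw
  norm_num at hw
  have hn := h.n0
  have h10 := h.h10
  have hL10 := h.L10
  have hr : w ^ 24 - 1 ≤ r := by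
    have h1 : w ^ 24 = (n : ℝ) ^ (3 / 4 : ℝ) := by
      rw [hwd, ← Real.rpow_natCast, ← Real.rpow_mul (Nat.cast_nonneg n)]
      norm_num
    have h2 := Nat.lt_floor_add_one ((n : ℝ) ^ (3 / 4 : ℝ))
    have h3 : ((Rr (3 / 4) n : ℕ) : ℝ) ≤ r := by exact_mod_cast hRr
    unfold Rr at h3
    rw [h1]
    linarith
  have hw24 : w ≤ w ^ 24 := by
    calc w = w ^ 1 := (pow_one w).symm
      _ ≤ w ^ 24 := pow_le_pow_right₀ (by linarith) (by norm_num)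
  have hr0 : (0 : ℝ) < r := by linarith
  have hr0' : 0 < r := by exact_mod_cast hr0
  obtain ⟨s, hs⟩ : ∃ s : ℕ, s = ⌊(r : ℝ) * lamn n⌋₊ := ⟨_, rfl⟩
  obtain ⟨hs1, hs2, hs3⟩ := h.s_ge r hr
  rw [← hs] at hs1 hs2 hs3
  obtain ⟨N, hN⟩ : ∃ N : ℕ, N = ⌈2 * (s : ℝ) * Real.exp (16 * LL - 8)⌉₊ := ⟨_, rfl⟩
  obtain ⟨hN1, hN2, hN3, hN4⟩ := h.N_facts r s N hs1 hs2 hN
  obtain ⟨u, hu⟩ : ∃ u : ℕ, u = n / (2 ^ 15 * G ^ 32) := ⟨_, rfl⟩
  have hs' := h.s1 hs1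
  have hs6 : (1000000 : ℝ) ≤ s := by linarith [show (10 : ℝ) ^ 6 = 1000000 by norm_num]
  have hs4 : 4 ≤ s := by
    have : (4 : ℝ) ≤ s := by linarith
    exact_mod_cast this
  have hGp : ∀ k : ℕ, 1 ≤ G ^ k := fun k => Nat.one_le_pow _ _ (by omega)
  have hG256n : G ^ 256 ≤ n := (Nat.le_mul_of_pos_left _ hr0').trans hrn
  have hG256n' : (G : ℝ) ^ 256 ≤ n := by exact_mod_cast hG256n
  have hG8 := h.G8 G hG256n'
  have hn2 : 2 ≤ n := by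
    have : (2 : ℝ) ≤ n := by
      rw [← h.hn]
      calc (2 : ℝ) ≤ w := by linarith
        _ = w ^ 1 := (pow_one w).symm
        _ ≤ w ^ 32 := pow_le_pow_right₀ (by linarith) (by norm_num)
    exact_mod_cast this
  have hr2 : 2 ≤ r := by
    have : (2 : ℝ) ≤ r := by linarith
    exact_mod_cast this
  have hrn2 : r + 2 ≤ n := by
    have h1 : 2 * r ≤ n := by
      refine le_trans ?_ hrn
      rw [mul_comm]
      apply Nat.mul_le_mul_left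
      calc 2 ≤ G := by omega
        _ = G ^ 1 := (pow_one G).symm
        _ ≤ G ^ 256 := Nat.pow_le_pow_right (by omega) (by norm_num)
    omega
  have hun : (n : ℝ) ≤ (u + 1) * (2 ^ 15 * (G : ℝ) ^ 32) := by
    have h3 : n < (u + 1) * (2 ^ 15 * G ^ 32) := by
      rw [hu]
      have hpos : 0 < 2 ^ 15 * G ^ 32 := by positivity
      have h3 := Nat.lt_div_mul_add hpos (a := n)
      calc n < n / (2 ^ 15 * G ^ 32) * (2 ^ 15 * G ^ 32) + 2 ^ 15 * G ^ 32 := h3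
        _ = _ := by ring
    exact_mod_cast h3.le
  have hLL0 : 0 < LL := by linarith
  have hQ0 : (0 : ℝ) < 4 * ((G : ℝ) ^ 8 + 1) * (n : ℝ) ^ 2 := by positivity
  have key := WORDL r (r * G ^ 8) k x t τ1 c' B (lamn n) (1 / LL) (16 * LL) N s
    (n / (8 * G ^ 16)) (2 * FH G n) (G ^ 8 + 1)
    ((n : ℝ) ^ 2 * Real.exp (-(2 * (u : ℝ)))) (4 * ((G : ℝ) ^ 8 + 1) * (n : ℝ) ^ 2)
    (fun j => (1 / (G : ℝ)) ^ j) hn2 (by positivity)
    (by rw [div_le_one hLL0]; linarith) (by linarith) ht hx hrn2 hs4 hN1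
    (h.condμ r N hr hN4) (h.condD G r hG12 hrn hGn) hN2 (h.condE s N hN3) (h.condζ hs1)
    (fun p hp => h.condp hs1 (G ^ 8 + 1) p (by push_cast; linarith) hp)
    (fun j _ hj2 => by
      have : j / r ≤ G ^ 8 := by
        rw [Nat.div_le_iff_le_mul_add_pred hr0']
        omega
      omega)
    (fun j => by positivity)
    (fun j hj1 hj2 W hW hWL g hg => by
      refine hG1 G hG1' n j (by omega) ?_ W hW hWL g hg.le
      calc j * G ^ 248 ≤ r * G ^ 8 * G ^ 248 := Nat.mul_le_mul_right _ hj2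
        _ = r * G ^ 256 := by rw [mul_assoc, ← pow_add]
        _ ≤ n := hrn)
    (by positivity) hQ0
    (fun k' hk' σ _ wd hwd => by
      rw [hu]
      exact condY n G hG12 hG256n k' hk' σ wd hwd)
    hc' hc1' hτ1 hR
    (fun j hj1 hj2 => h.condF G r s N u j hG12 hr hrn hs1 hs2 hs3 hN4 hun hj1 hj2 hG8)
  refine key.trans (le_of_eq ?_)
  congr 1
  push_cast
  have : (0 : ℝ) < (G : ℝ) ^ 8 + 1 := by positivity
  field_simp

end CG45
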