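import Pool.Agent.H45.CG.Badb
import Pool.Agent.H45.CG.Iface2

/-! The word round, structural form. -/

set_option autoImplicit false
set_option linter.unusedSectionVars false

namespace CG45
open RC14 RC852 TE852 LL14 LG45 Finset
open scoped InnerProductSpace

variable {n : ℕ}

section sub
variable {V : Type*} [NormedAddCommGroup V] [InnerProductSpace ℂ V] [FiniteDimensional ℂ V]

theorem En_res (ρ : Alt n →* (V ≃ₗᵢ[ℂ] V)) (W : Submodule ℂ V) (hW : Inv ρ W) {q : ℕ}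
    (y : Fin q → Alt n) (w : W) : En (res ρ W hW) y w = En ρ y (w : V) := by
  unfold En
  apply Finset.sum_congr rfl
  intro i _
  rw [Submodule.coe_norm, Submodule.coe_sub, res_apply]

/-- the word round for an invariant subspace -/
theorem WSUB (ρ : Alt n →* (V ≃ₗᵢ[ℂ] V)) (W : Submodule ℂ V) (hW : Inv ρ W) {k : ℕ}
    (x : Fin k → Alt n) (b : Fin 1 → Alt n)
    (η t ε c : ℝ) (hη : 0 < η) (hη1 : 4 * k * η ≤ 1) (ht : 0 < t) (hε1 : ε ≤ 1)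
    (hc : 1 ≤ c) (hτ : η * t ≤ ε / 8) (δ : ℕ) (hδ : (δ : ℝ) ≤ c / (η * t) + 1)
    (N s : ℕ) (f : Polynomial ℝ) (hf1 : f.natDegree ≤ N)
    (hf2 : ∀ x : ℝ, 0 ≤ x → x ≤ 1 → 0 ≤ f.eval x ∧ f.eval x ≤ 1)
    (hf3 : ∀ x : ℝ, x ≤ 1 → 2 * (s : ℝ) ≤ N * x → 8 ≤ N * x → 1 / 2 ≤ f.eval x)
    (hN : 2 * (s : ℝ) ≤ N * Real.exp (-(c * (1 - ε / 2)))) (hs : 4 ≤ s)
    (Dg Fx : ℕ) (ζ1 ζ2 β M1 X : ℝ)
    (hd1 : nrm1 (dd Dg (wa (f * f) δ (2 * N) (stp η x))) ≤ ζ1)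
    (hd2 : nrm1 (dd Dg (conv (nd Dg (wa (f * f) δ (2 * N) (stp η x)))
      (nd Dg (wa (f * f) δ (2 * N) (stp η x))))) ≤ ζ2)
    (hζ1 : ζ1 ≤ 1 / 10) (hζ2 : ζ2 ≤ 1 / 10) (hβ : 0 ≤ β) (hM1 : 1 ≤ M1)
    (hM : nrm1 (wa (f * f) δ (2 * N) (stp η x)) ≤ M1)
    (hX : 0 ≤ X) (p : ℕ)
    (hp : (1 + ζ1) ^ (2 * p + 1) - 1 ≤ (1 / 1024 : ℝ) ^ (p + 1) / 2)
    (hchar : ∀ g : Alt n, nfix (cp g) < Fx → ‖rchr ρ W hW g‖ ≤ β * Module.finrank ℂ W)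
    (hbad : ∀ k, k + 1 ≤ 2 * p → ∀ s < 2,
      bad Fx (cseq k (nd Dg (wa (f * f) δ (2 * N) (stp η x)))
        (nd Dg (conv (nd Dg (wa (f * f) δ (2 * N) (stp η x)))
          (nd Dg (wa (f * f) δ (2 * N) (stp η x)))))) (2 * k + 2) s b ≤ X)
    (τ1 c' δ1 : ℝ) (hc' : 0 < c') (hc1' : c' ≤ 1 / 2) (hτ1 : τ1 + 16 * c' ≤ (1 - ε) * t)
    (h1 : NRK W (En ρ x) τ1 δ1) :
    NRK W (En ρ (Fin.append x b)) (τ1 + c') (δ1 +
      4 * 1024 ^ (2 * (p + 1)) * (4 * (3 * ζ2) ^ p + 2 * (β * M1 ^ (8 * p) + X))) := by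
  have h2 := WREP (V := W) (res ρ W hW) x b η t ε c hη hη1 ht hε1 hc hτ δ hδ N s f hf1 hf2 hf3 hN
    hs Dg Fx ζ1 ζ2 β M1 X hd1 hd2 hζ1 hζ2 hβ hM1 hM hX p hp (fun g hg =>
      (Complex.abs_re_le_norm _).trans (hchar g hg)) hbad τ1 c' δ1 hc' hc1' hτ1
      (NRK.to_res W _ _ _ _ (fun w => (En_res ρ W hW x w).ge) h1)
  exact NRK.of_res W _ _ _ _ (fun w => (En_res ρ W hW (Fin.append x b) w).le) h2

end sub

theorem WORDL (r R k : ℕ) (x : Fin k → Alt n) (t τ1 c' B lam ε c : ℝ) (N s Dg Fx P : ℕ)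
    (Y Q : ℝ) (β : ℕ → ℝ) (hn : 2 ≤ n) (hε : 0 < ε) (hε1 : ε ≤ 1) (hc : 1 ≤ c) (ht : 0 < t)
    (hx : Good1 n r t x) (hr : r + 2 ≤ n) (hs : 4 ≤ s) (hsN : s ≤ N)
    (hμ : 4 * (c * N) / Real.log n + 1 ≤ r)
    (hD : (n : ℝ) ≤ (n : ℝ) ^ (ε / 8) * ((Dg : ℝ) - r))
    (hN : 2 * (s : ℝ) ≤ N * Real.exp (-(c * (1 - ε / 2))))
    (hE : Real.exp (-2 * s) *
          Real.exp ((Real.exp 2 + 1) * Real.exp (-((1 - ε / 8) * c)) * N) ≤ Real.exp (-s))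
    (hζ : 2 * n * Real.exp (-s) ^ 2 ≤ 1 / 10)
    (hp : ∀ p ≤ P, (1 + 2 * n * Real.exp (-s) ^ 2) ^ (2 * p + 1) - 1 ≤
      (1 / 1024 : ℝ) ^ (p + 1) / 2)
    (hP : ∀ j, r < j → j ≤ R → j / r + 1 ≤ P)
    (hβ0 : ∀ j, 0 ≤ β j)
    (hchar : ∀ j, r < j → j ≤ R → ∀ (W : Submodule ℂ (RC14.V j n)) (hW : Inv (repA j n) W),
      W ≤ Lvl j n → ∀ g : Alt n, nfix (cp g) < Fx →
      ‖rchr (repA j n) W hW g‖ ≤ β j * Module.finrank ℂ W)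
    (hY0 : 0 < Y) (hQ0 : 0 < Q)
    (hY : ∀ k, k + 1 ≤ 2 * P → ∀ s < 2, ∀ w : Fin (2 * k + 2) → Alt n,
      (∀ t, nfix (cp (w t)) ≤ Dg) →
      (Nat.card {b : Fin 1 → Alt n // Fx ≤ nfw s w b} : ℝ) ≤
        Y * Fintype.card (Fin 1 → Alt n))
    (hc' : 0 < c') (hc1' : c' ≤ 1 / 2) (hτ1 : τ1 + 16 * c' ≤ (1 - ε) * t)
    (hR : RkL n r R τ1 B lam x)
    (hfin : ∀ j, r < j → j ≤ R → 4 * 1024 ^ (2 * (j / r + 1 + 1)) *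
      (4 * (3 * (2 * n * Real.exp (-s) ^ 4)) ^ (j / r + 1) +
        2 * (β j * (9 ^ N) ^ (8 * (j / r + 1)) + (9 ^ N) ^ (8 * (j / r + 1)) * (Y * Q))) ≤
      Real.exp (-(lam * j))) :
    (Nat.card {b : Fin 1 → Alt n // ¬ RkL n r R (τ1 + c') (B + 1) lam (Fin.append x b)} : ℝ) ≤
      4 * P / Q * Fintype.card (Fin 1 → Alt n) := by
  classical
  have hk0 : (0 : ℝ) ≤ k := Nat.cast_nonneg _
  obtain ⟨η, hη⟩ : ∃ η : ℝ, η = ε / (8 * (t + 4 * k + 1)) := ⟨_, rfl⟩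
  have hden : 0 < 8 * (t + 4 * k + 1) := by positivity
  have hη0 : 0 < η := by rw [hη]; positivity
  have hη1 : 4 * k * η ≤ 1 := by
    rw [hη, ← mul_div_assoc, div_le_one hden]
    nlinarith
  have hτ : η * t ≤ ε / 8 := by
    rw [hη, div_mul_eq_mul_div, div_le_div_iff₀ hden (by norm_num)]
    nlinarith
  have hτ0 : 0 < η * t := mul_pos hη0 ht
  obtain ⟨δ, hδ⟩ : ∃ δ : ℕ, δ = ⌈c / (η * t)⌉₊ := ⟨_, rfl⟩
  have hδ1 : c ≤ η * t * δ := by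
    have := Nat.le_ceil (c / (η * t))
    rw [← hδ, div_le_iff₀ hτ0] at this
    linarith
  have hδ2 : (δ : ℝ) ≤ c / (η * t) + 1 := by
    rw [hδ]
    exact (Nat.ceil_lt_add_one (by positivity)).le
  have hn0 : (0 : ℝ) ≤ 2 * n := by positivity
  have hes : 0 < Real.exp (-s : ℝ) := Real.exp_pos _
  obtain ⟨f, hf1, hf2, hf3, hw1, hw2, hw3⟩ := WTS r k Dg hn x η t ε c hη0.le hη1 hε.le
    (by linarith) (by linarith) hx hr δ hδ1 N s (by omega) hsN hμ hD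
  obtain ⟨a, ha⟩ : ∃ a, a = wa (f * f) δ (2 * N) (stp η x) := ⟨_, rfl⟩
  rw [← ha] at hw1 hw2 hw3
  have hE0 : 0 ≤ Real.exp (-2 * s) *
      Real.exp ((Real.exp 2 + 1) * Real.exp (-((1 - ε / 8) * c)) * N) := by positivity
  have hw2' : nrm1 (dd Dg a) ≤ 2 * n * Real.exp (-s) ^ 2 :=
    hw2.trans (mul_le_mul_of_nonneg_left (pow_le_pow_left₀ hE0 hE 2) hn0)
  have hw3' : nrm1 (dd Dg (conv (nd Dg a) (nd Dg a))) ≤ 2 * n * Real.exp (-s) ^ 4 :=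
    hw3.trans (mul_le_mul_of_nonneg_left (pow_le_pow_left₀ hE0 hE 4) hn0)
  have he1 : Real.exp (-s : ℝ) ≤ 1 := by
    apply Real.exp_le_one_iff.2
    have : (0 : ℝ) ≤ s := Nat.cast_nonneg _
    linarith
  have hζ2 : 2 * n * Real.exp (-s) ^ 4 ≤ 1 / 10 := by
    refine le_trans (mul_le_mul_of_nonneg_left ?_ hn0) hζ
    exact pow_le_pow_of_le_one hes.le he1 (by norm_num)
  have h9 : (1 : ℝ) ≤ 9 ^ N := one_le_pow₀ (by norm_num)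
  have hB := BADALL Fx Dg P a (9 ^ N) Y Q h9 hw1 hY0 hQ0 hY
  refine le_trans (Nat.cast_le.2 (RC14.card_mono (Z := Fin 1 → Alt n) _ _ ?_)) hB
  intro b hb hgood
  apply hb
  intro j hj1 hj2 W hW hWL
  have hWi : Inv (repA j n) W := hW.2.1
  have hpP := hP j hj1 hj2
  obtain ⟨p, hpd⟩ : ∃ p, p = j / r + 1 := ⟨_, rfl⟩
  rw [← hpd] at hpP
  have hM80 : (0 : ℝ) ≤ (9 ^ N) ^ (8 * p) * (Y * Q) := by positivity
  have h3 := WSUB (repA j n) W hWi x b η t ε c hη0 hη1 ht hε1 hc hτ δ hδ2 N s f hf1 hf2 hf3 hN hs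
    Dg Fx (2 * n * Real.exp (-s) ^ 2) (2 * n * Real.exp (-s) ^ 4) (β j) (9 ^ N)
    ((9 ^ N) ^ (8 * p) * (Y * Q)) (by rw [← ha]; exact hw2') (by rw [← ha]; exact hw3') hζ hζ2
    (hβ0 j) h9 (by rw [← ha]; exact hw1) hM80 p (hp p hpP)
    (fun g hg => hchar j hj1 hj2 W hWi hWL g hg) (by
      intro k' hk' s' hs'
      rw [← ha]
      refine (hgood k' (by omega) s' hs').trans ?_
      apply mul_le_mul_of_nonneg_right _ (by positivity)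
      exact pow_le_pow_right₀ h9 (by omega))
    τ1 c' _ hc' hc1' hτ1 (hR j hj1 hj2 W hW hWL)
  refine h3.mono (fun _ _ => le_rfl) le_rfl ?_
  have h4 := hfin j hj1 hj2
  rw [← hpd] at h4
  rw [add_mul, one_mul]
  linarith

end CG45
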