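import Pool.Agent.H45.CG.Cnv

/-! The word estimate for one irreducible representation. -/

set_option autoImplicit false
set_option linter.unusedSectionVars false

namespace CG45
open RC14 RC852 TE852 LL14 LG45 Finset
open scoped InnerProductSpace

section monoid
variable {R : Type*} [Monoid R]

theorem altp_congr (B B' : ℕ → R) (σ σ' k : ℕ) (h : ∀ t < k, B (σ + t) = B' (σ' + t)) :
    altp B σ k = altp B' σ' k := by
  induction k generalizing σ σ' with
  | zero => rfl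
  | succ k ih =>
    rw [altp_succ, altp_succ]
    have h0 := h 0 (by omega)
    rw [add_zero, add_zero] at h0
    rw [h0, ih (σ + 1) (σ' + 1) fun t ht => by
      have := h (t + 1) (by omega)
      rw [show σ + 1 + t = σ + (t + 1) by ring, show σ' + 1 + t = σ' + (t + 1) by ring]
      exact this]

theorem altp_add (B : ℕ → R) (σ k l : ℕ) :
    altp B σ (k + l) = altp B σ k * altp B (σ + k) l := by
  induction k generalizing σ with
  | zero => simp [altp]
  | succ k ih =>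
    rw [show k + 1 + l = (k + l) + 1 by ring, altp_succ, ih, altp_succ, mul_assoc]
    congr 3
    ring

/-- reversed product of a sequence of period 2 -/
theorem altr_eq (B : ℕ → R) (hB : ∀ i, B (i + 2) = B i) (σ k : ℕ) :
    altr B σ k = altp B (σ + k + 1) k := by
  have hper : ∀ m i, B (i + 2 * m) = B i := by
    intro m
    induction m with
    | zero => intro i; rfl
    | succ m ih =>
      intro i
      rw [show i + 2 * (m + 1) = i + 2 * m + 2 by ring, hB, ih]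
  induction k generalizing σ with
  | zero => rfl
  | succ k ih =>
    have h1 : altr B σ (k + 1) = altr B (σ + 1) k * B σ := rfl
    rw [h1, ih, altp_succ']
    have e1 : σ + 1 + k + 1 = σ + (k + 1) + 1 := by ring
    rw [e1]
    congr 1
    have e2 : σ + (k + 1) + 1 + k = σ + 2 * (k + 1) := by ring
    rw [e2, hper]

end monoid

variable {n : ℕ}

/-- the part of `a` on the elements with few fixed points -/
def nd (Dg : ℕ) (a : Alt n → ℝ) (g : Alt n) : ℝ := if nfix (cp g) ≤ Dg then a g else 0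

/-- the part of `a` on the elements with many fixed points -/
def dd (Dg : ℕ) (a : Alt n → ℝ) (g : Alt n) : ℝ := if nfix (cp g) ≤ Dg then 0 else a g

theorem nd_add_dd (Dg : ℕ) (a : Alt n → ℝ) : (fun g => nd Dg a g + dd Dg a g) = a := by
  funext g
  unfold nd dd
  split_ifs <;> simp

theorem abs_nd_le (Dg : ℕ) (a : Alt n → ℝ) (g : Alt n) : |nd Dg a g| ≤ |a g| := by
  unfold nd
  split_ifs
  · exact le_rfl
  · rw [abs_zero]; exact abs_nonneg _

theorem nrm1_nd_le (Dg : ℕ) (a : Alt n → ℝ) : nrm1 (nd Dg a) ≤ nrm1 a :=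
  Finset.sum_le_sum fun g _ => abs_nd_le Dg a g

theorem nfix_inv' (g : Equiv.Perm (Fin n)) : nfix g⁻¹ = nfix g := by
  unfold nfix
  congr 1
  ext a
  simp only [Finset.mem_filter, Finset.mem_univ, true_and]
  constructor
  · intro h
    have := congrArg (fun x => g x) h
    simpa using this.symm
  · intro h
    have := congrArg (fun x => g⁻¹ x) h
    simpa using this.symm

theorem nd_inv (Dg : ℕ) (a : Alt n → ℝ) (ha : ∀ g, a g⁻¹ = a g) (g : Alt n) :
    nd Dg a g⁻¹ = nd Dg a g := by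
  unfold nd
  have h1 : nfix (cp g⁻¹) = nfix (cp g) := nfix_inv' (cp g)
  rw [h1, ha]

/-- the weights of the word -/
def cseq (k : ℕ) (a m : Alt n → ℝ) (t : ℕ) : Alt n → ℝ := if t = 0 ∨ t = k + 1 then m else a

/-- weight of the words which have many fixed points -/
noncomputable def bad (Fx : ℕ) (c : ℕ → Alt n → ℝ) (J s : ℕ) (b : Fin 1 → Alt n) : ℝ :=
  ∑ w : Fin J → Alt n, (∏ t : Fin J, |c t (w t)|) * (if Fx ≤ nfw s w b then 1 else 0)

theorem nfw_mod {J : ℕ} (s : ℕ) (w : Fin J → Alt n) (b : Fin 1 → Alt n) :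
    nfw s w b = nfw (s % 2) w b := by
  unfold nfw
  have h1 : altw s w = altw (s % 2) w := by
    funext t
    unfold altw
    have h2 : (t.1 + s) % 2 = (t.1 + s % 2) % 2 := by omega
    rw [h2]
  rw [h1]

theorem sum_prod_abs {J : ℕ} (c : ℕ → Alt n → ℝ) :
    ∑ w : Fin J → Alt n, ∏ t : Fin J, |c t (w t)| = ∏ t : Fin J, nrm1 (c t) := by
  unfold nrm1
  rw [Finset.prod_univ_sum]
  rfl

variable {V : Type*} [NormedAddCommGroup V] [InnerProductSpace ℂ V] [FiniteDimensional ℂ V]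

/-- the trace of a word all of whose letters have few fixed points -/
theorem rtr_word (ρ : Alt n →* (V ≃ₗᵢ[ℂ] V)) (b : Fin 1 → Alt n) (s J : ℕ) (hJ : Even J)
    (c : ℕ → Alt n → ℝ) (Fx : ℕ) (β : ℝ) (hβ : 0 ≤ β)
    (hchar : ∀ g : Alt n, nfix (cp g) < Fx → |rtr (op ρ g)| ≤ β * Module.finrank ℂ V) :
    |rtr (altp (fun t => bq (ρ (b 0)) (opf ρ (c t)) (s + t)) 0 J)| ≤
      (β * ∏ t : Fin J, nrm1 (c t) + bad Fx c J s b) * Module.finrank ℂ V := by
  classical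
  refine (abs_rtr_altp ρ (b 0) s J c).trans ?_
  unfold bad
  rw [← sum_prod_abs, Finset.mul_sum, add_mul, Finset.sum_mul, Finset.sum_mul,
    ← Finset.sum_add_distrib]
  refine Finset.sum_le_sum fun w _ => ?_
  have hP : 0 ≤ ∏ t : Fin J, |c t (w t)| := Finset.prod_nonneg fun _ _ => abs_nonneg _
  have hD : (0 : ℝ) ≤ Module.finrank ℂ V := Nat.cast_nonneg _
  rcases lt_or_ge (nfw s w b) Fx with h1 | h1
  · rw [if_neg (not_le.2 h1)]
    have h2 := hchar (gw (b 0) s w) (by rw [nfix_gw b s J hJ]; exact h1)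
    nlinarith [mul_le_mul_of_nonneg_left h2 hP]
  · rw [if_pos h1]
    have h2 : |rtr (op ρ (gw (b 0) s w))| ≤ Module.finrank ℂ V := by
      have h3 := trace_mul_le (op ρ (gw (b 0) s w)) 1
      have h4 := (hs_op_mul ρ (gw (b 0) s w) 1).1
      rw [mul_one] at h3 h4
      rw [h4, hs_one] at h3
      have h5 : |rtr (op ρ (gw (b 0) s w))| ≤ ‖LinearMap.trace ℂ V (op ρ (gw (b 0) s w))‖ :=
        Complex.abs_re_le_norm _
      refine h5.trans ((pow_le_pow_iff_left₀ (norm_nonneg _) hD two_ne_zero).1 ?_)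
      rw [sq (Module.finrank ℂ V : ℝ)]
      exact h3
    have h3 : 0 ≤ β * (∏ t : Fin J, |c t (w t)|) * Module.finrank ℂ V := by positivity
    nlinarith [mul_le_mul_of_nonneg_left h2 hP]

theorem prod_cseq_le (k : ℕ) (a m : Alt n → ℝ) (M1 : ℝ) (hM1 : 1 ≤ M1) (ha : nrm1 a ≤ M1)
    (hm : nrm1 m ≤ M1 ^ 2) :
    ∏ t : Fin (2 * k + 2), nrm1 (cseq k a m t) ≤ M1 ^ (4 * k + 4) := by
  have h1 : ∀ t : Fin (2 * k + 2), nrm1 (cseq k a m t) ≤ M1 ^ 2 := by
    intro t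
    unfold cseq
    split_ifs
    · exact hm
    · refine ha.trans ?_
      calc M1 = M1 ^ 1 := (pow_one _).symm
        _ ≤ M1 ^ 2 := pow_le_pow_right₀ hM1 (by norm_num)
  refine (Finset.prod_le_prod (fun t _ => nrm1_nonneg _) fun t _ => h1 t).trans (le_of_eq ?_)
  rw [Finset.prod_const, Finset.card_univ, Fintype.card_fin, ← pow_mul]
  congr 1
  ring

theorem bq_per {V : Type*} [NormedAddCommGroup V] [InnerProductSpace ℂ V] (h : V ≃ₗᵢ[ℂ] V)
    (H : Module.End ℂ V) (i : ℕ) : bq h H (i + 2) = bq h H i := by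
  unfold bq
  have : (i + 2) % 2 = i % 2 := by omega
  rw [this]

theorem bq_par {V : Type*} [NormedAddCommGroup V] [InnerProductSpace ℂ V] (h : V ≃ₗᵢ[ℂ] V)
    (H : Module.End ℂ V) (i j : ℕ) (hij : i % 2 = j % 2) : bq h H i = bq h H j := by
  unfold bq
  rw [hij]

/-- the word estimate -/
theorem WORD2 {ι : Type*} [Fintype ι] (ρ : Alt n →* (V ≃ₗᵢ[ℂ] V)) (b0 : OrthonormalBasis ι ℂ V)
    (f : ι → ℝ) (S0 : Set ι) (hf0 : ∀ i, 0 ≤ f i) (hf1 : ∀ i, f i ≤ 1)
    (hfs : ∀ i ∈ S0, 1 / 2 ≤ f i) (a : Alt n → ℝ) (ha : ∀ g, a g⁻¹ = a g)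
    (hQ : opf ρ a = dg b0 f * dg b0 f) (Dg Fx : ℕ) (ζ1 ζ2 β M1 X : ℝ)
    (hd1 : nrm1 (dd Dg a) ≤ ζ1) (hd2 : nrm1 (dd Dg (conv (nd Dg a) (nd Dg a))) ≤ ζ2)
    (hζ1 : ζ1 ≤ 1 / 10) (hζ2 : ζ2 ≤ 1 / 10) (hβ : 0 ≤ β) (hM1 : 1 ≤ M1) (hM : nrm1 a ≤ M1)
    (hX : 0 ≤ X) (b : Fin 1 → Alt n) (p : ℕ)
    (hp : (1 + ζ1) ^ (2 * p + 1) - 1 ≤ (1 / 1024 : ℝ) ^ (p + 1) / 2)
    (hchar : ∀ g : Alt n, nfix (cp g) < Fx → |rtr (op ρ g)| ≤ β * Module.finrank ℂ V)
    (hbad : ∀ k, k + 1 ≤ 2 * p → ∀ s < 2,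
      bad Fx (cseq k (nd Dg a) (nd Dg (conv (nd Dg a) (nd Dg a)))) (2 * k + 2) s b ≤ X) :
    Mv (spj b0 S0) (ρ (b 0))
      (4 * 1024 ^ (2 * (p + 1)) * (4 * (3 * ζ2) ^ p + 2 * (β * M1 ^ (8 * p) + X))) := by
  classical
  obtain ⟨a', ha'⟩ : ∃ a', a' = nd Dg a := ⟨_, rfl⟩
  obtain ⟨m, hm⟩ : ∃ m, m = nd Dg (conv a' a') := ⟨_, rfl⟩
  obtain ⟨z, hz⟩ : ∃ z, z = dd Dg (conv a' a') := ⟨_, rfl⟩
  obtain ⟨D, hD⟩ : ∃ D : ℝ, D = Module.finrank ℂ V := ⟨_, rfl⟩
  have hD0 : 0 ≤ D := by rw [hD]; positivity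
  have hζ10 : 0 ≤ ζ1 := (nrm1_nonneg _).trans hd1
  have hζ20 : 0 ≤ ζ2 := (nrm1_nonneg _).trans hd2
  rw [← ha'] at hd2 hbad
  rw [← hm] at hbad
  rw [← hz] at hd2
  -- symmetry
  have hia : ∀ g, a' g⁻¹ = a' g := by
    intro g; rw [ha']; exact nd_inv Dg a ha g
  -- norms
  have hQn : ∀ v, ‖(opf ρ a) v‖ ≤ 1 * ‖v‖ := by
    intro v
    have hFn : ∀ v, ‖dg b0 f v‖ ≤ ‖v‖ := fun v => dg_norm_le b0 f (fun i => by
      rw [abs_of_nonneg (hf0 i)]; exact hf1 i) v
    rw [hQ, one_mul]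
    exact (hFn _).trans (hFn v)
  have hdif : opf ρ a = opf ρ a' + opf ρ (dd Dg a) := by
    rw [← opf_add, ha', nd_add_dd]
  have hdn : ∀ v, ‖(opf ρ (dd Dg a)) v‖ ≤ ζ1 * ‖v‖ := fun v =>
    (opf_norm ρ _ v).trans (mul_le_mul_of_nonneg_right hd1 (norm_nonneg _))
  have ha'n : ∀ v, ‖(opf ρ a') v‖ ≤ (11 / 10) * ‖v‖ := by
    intro v
    have h1 : opf ρ a' v = opf ρ a v - opf ρ (dd Dg a) v := by
      rw [hdif, LinearMap.add_apply]; abel
    rw [h1]
    refine (norm_sub_le _ _).trans ?_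
    have h2 := hQn v
    have h3 := hdn v
    have h4 : ζ1 * ‖v‖ ≤ 1 / 10 * ‖v‖ := mul_le_mul_of_nonneg_right hζ1 (norm_nonneg _)
    linarith
  have hzn : ∀ v, ‖(opf ρ z) v‖ ≤ ζ2 * ‖v‖ := fun v =>
    (opf_norm ρ _ v).trans (mul_le_mul_of_nonneg_right hd2 (norm_nonneg _))
  have hsq : opf ρ a' * opf ρ a' = opf ρ m + opf ρ z := by
    rw [← opf_conv, ← opf_add, hm, hz, nd_add_dd]
  have hmn : ∀ v, ‖(opf ρ m) v‖ ≤ 2 * ‖v‖ := by
    intro v
    have h1 : opf ρ m v = opf ρ a' (opf ρ a' v) - opf ρ z v := by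
      have h2 := congrArg (fun A : Module.End ℂ V => A v) hsq
      simp only [Module.End.mul_apply, LinearMap.add_apply] at h2
      rw [h2]; abel
    rw [h1]
    refine (norm_sub_le _ _).trans ?_
    have h2 := (ha'n (opf ρ a' v)).trans (mul_le_mul_of_nonneg_left (ha'n v) (by norm_num))
    have h3 := hzn v
    have h4 : ζ2 * ‖v‖ ≤ 1 / 10 * ‖v‖ := mul_le_mul_of_nonneg_right hζ2 (norm_nonneg _)
    have h5 := norm_nonneg v
    linarith
  obtain ⟨B, hB⟩ : ∃ B, B = bq (ρ (b 0)) (opf ρ a') := ⟨_, rfl⟩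
  obtain ⟨N, hN⟩ : ∃ N, N = bq (ρ (b 0)) (opf ρ m) := ⟨_, rfl⟩
  obtain ⟨Z, hZ⟩ : ∃ Z, Z = bq (ρ (b 0)) (opf ρ z) := ⟨_, rfl⟩
  -- words
  have hm1 : nrm1 m ≤ M1 ^ 2 := by
    rw [hm]
    refine (nrm1_nd_le _ _).trans ((nrm1_conv _ _).trans ?_)
    have h1 : nrm1 a' ≤ M1 := by rw [ha']; exact (nrm1_nd_le _ _).trans hM
    rw [sq]
    exact mul_le_mul h1 h1 (nrm1_nonneg _) (by linarith)
  have ha1 : nrm1 a' ≤ M1 := by rw [ha']; exact (nrm1_nd_le _ _).trans hM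
  have hω : ∀ σ k, k + 2 ≤ 2 * p + 1 →
      |rtr (N (σ + k + 1) * (altr B (σ + 1) k * (N σ * altp B (σ + 1) k)))| ≤
        (β * M1 ^ (8 * p) + X) * Module.finrank ℂ V := by
    intro σ k hk
    obtain ⟨s, hs⟩ : ∃ s, s = σ + k + 1 := ⟨_, rfl⟩
    obtain ⟨C, hC⟩ : ∃ C : ℕ → Module.End ℂ V,
      C = fun t => bq (ρ (b 0)) (opf ρ (cseq k a' m t)) (s + t) := ⟨_, rfl⟩
    have e1 : N (σ + k + 1) * (altr B (σ + 1) k * (N σ * altp B (σ + 1) k)) =
        altp C 0 (2 * k + 2) := by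
      have e2 : 2 * k + 2 = 1 + (k + (1 + k)) := by ring
      rw [e2, altp_add, altp_add, altp_add]
      have h1 : altp C 0 1 = N (σ + k + 1) := by
        have : altp C 0 1 = C 0 * 1 := rfl
        rw [this, mul_one, hC, hN, ← hs]
        simp [cseq]
      have h2 : altp C (0 + 1) k = altr B (σ + 1) k := by
        rw [hB, altr_eq _ (bq_per _ _)]
        refine altp_congr _ _ _ _ _ fun t ht => ?_
        rw [hC]
        simp only
        have h3 : cseq k a' m (0 + 1 + t) = a' := by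
          unfold cseq
          rw [if_neg (by omega)]
        rw [h3]
        refine bq_par _ _ _ _ ?_
        omega
      have h4 : altp C (0 + 1 + k) 1 = N σ := by
        have : altp C (0 + 1 + k) 1 = C (0 + 1 + k) * 1 := rfl
        rw [this, mul_one, hC, hN]
        simp only
        have h3 : cseq k a' m (0 + 1 + k) = m := by
          unfold cseq
          rw [if_pos (by omega)]
        rw [h3]
        refine bq_par _ _ _ _ ?_
        omega
      have h5 : altp C (0 + 1 + k + 1) k = altp B (σ + 1) k := by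
        rw [hB]
        refine altp_congr _ _ _ _ _ fun t ht => ?_
        rw [hC]
        simp only
        have h3 : cseq k a' m (0 + 1 + k + 1 + t) = a' := by
          unfold cseq
          rw [if_neg (by omega)]
        rw [h3]
        refine bq_par _ _ _ _ ?_
        omega
      rw [h1, h2, h4, h5]
    rw [e1, hC]
    refine (rtr_word ρ b s (2 * k + 2) ⟨k + 1, by ring⟩ (cseq k a' m) Fx β hβ hchar).trans ?_
    apply mul_le_mul_of_nonneg_right _ (Nat.cast_nonneg _)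
    have h1 : bad Fx (cseq k a' m) (2 * k + 2) s b ≤ X := by
      have h2 := hbad k (by omega) (s % 2) (Nat.mod_lt _ (by norm_num))
      refine le_trans (le_of_eq ?_) h2
      unfold bad
      refine Finset.sum_congr rfl fun w _ => ?_
      rw [nfw_mod s]
    have h2 := prod_cseq_le k a' m M1 hM1 ha1 hm1
    have h3 : M1 ^ (4 * k + 4) ≤ M1 ^ (8 * p) := pow_le_pow_right₀ hM1 (by omega)
    have h4 := mul_le_mul_of_nonneg_left (h2.trans h3) hβ
    linarith
  have hrec := (HSREC B N Z (fun i => by rw [hB]; exact bq_symm _ _ (opf_symm ρ a' hia) i)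
    (fun i => by rw [hB, hN, hZ, bq_mul, hsq, bq_add]) ζ2 hζ20 (by linarith)
    (fun i v => by rw [hZ]; exact bq_norm _ _ _ hzn i v)
    (fun i v => by rw [hN]; exact bq_norm _ _ _ hmn i v)
    (fun i v => by
      rw [hB]
      exact (bq_norm _ _ _ ha'n i v).trans (by have := norm_nonneg v; linarith))
    (2 * p + 1) (β * M1 ^ (8 * p) + X) (by positivity) hω p).2 le_rfl 1
  intro S hS
  have h1 := WORD1 b0 f S0 hf0 hf1 hfs (ρ (b 0)) (opf ρ a') ζ1 hζ10 (fun v => by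
    rw [← hQ, hdif, LinearMap.add_apply, add_sub_cancel_left]
    exact hdn v) p hp S hS
  rw [← hB] at h1
  have h2 := h1.trans hrec
  have h3 : ((1 / 1024 : ℝ) ^ (p + 1) / 2) ^ 2 = 1 / (4 * 1024 ^ (2 * (p + 1))) := by
    rw [div_pow, ← pow_mul, one_div, one_div, inv_pow, mul_comm 2 (p + 1)]
    field_simp
    norm_num
  rw [h3, mul_one_div, div_le_iff₀ (by positivity)] at h2
  refine h2.trans (le_of_eq ?_)
  ring

end CG45
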