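import Pool.Agent.H45.CG.Degm
import Pool.Agent.H45.CG.Iface
import Pool.Agent.H35.CG.Poly

/-! The weights of the words: polynomials in a high power of the lazy walk. -/

set_option autoImplicit false
set_option linter.unusedSectionVars false

namespace CG45
open RC14 RC852 TE852 LL14 LG45 Finset
open scoped InnerProductSpace
open Pool.Agent.H35.CG

section gen
variable {G : Type*} [Group G] [Fintype G]

/-- `p(P^δ)` -/
noncomputable def wa (p : Polynomial ℝ) (δ M : ℕ) (P : G → ℝ) (g : G) : ℝ :=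
  ∑ i ∈ Finset.range (M + 1), p.coeff i * cpow P (δ * i) g

theorem wa_inv (p : Polynomial ℝ) (δ M : ℕ) (P : G → ℝ) (hP : ∀ g, P g⁻¹ = P g) (g : G) :
    wa p δ M P g⁻¹ = wa p δ M P g := by
  unfold wa
  refine Finset.sum_congr rfl fun i _ => ?_
  rw [cpow_inv P hP]

theorem abs_wa_le (p q : Polynomial ℝ) (hpq : ∀ i, |p.coeff i| ≤ q.coeff i) (δ M : ℕ)
    (P : G → ℝ) (hP : ∀ g, 0 ≤ P g) (g : G) : |wa p δ M P g| ≤ wa q δ M P g := by
  unfold wa
  refine (Finset.abs_sum_le_sum_abs _ _).trans (Finset.sum_le_sum fun i _ => ?_)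
  rw [abs_mul, abs_of_nonneg (cpow_nonneg P hP _ g)]
  exact mul_le_mul_of_nonneg_right (hpq i) (cpow_nonneg P hP _ g)

theorem wa_nonneg (q : Polynomial ℝ) (hq : ∀ i, 0 ≤ q.coeff i) (δ M : ℕ)
    (P : G → ℝ) (hP : ∀ g, 0 ≤ P g) (g : G) : 0 ≤ wa q δ M P g :=
  Finset.sum_nonneg fun i _ => mul_nonneg (hq i) (cpow_nonneg P hP _ g)

theorem eval_range (p : Polynomial ℝ) (M : ℕ) (hM : p.natDegree ≤ M) (x : ℝ) :
    p.eval x = ∑ i ∈ Finset.range (M + 1), p.coeff i * x ^ i :=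
  Polynomial.eval_eq_sum_range' (by omega) x

theorem nrm1_wa (p q : Polynomial ℝ) (hpq : ∀ i, |p.coeff i| ≤ q.coeff i) (δ M : ℕ)
    (hM : q.natDegree ≤ M) (P : G → ℝ) (hP : ∀ g, 0 ≤ P g) (hP1 : ∑ g, P g = 1) :
    nrm1 (wa p δ M P) ≤ q.eval 1 := by
  have h1 : nrm1 (wa p δ M P) ≤ ∑ g, wa q δ M P g :=
    Finset.sum_le_sum fun g _ => abs_wa_le p q hpq δ M P hP g
  refine h1.trans (le_of_eq ?_)
  unfold wa
  rw [Finset.sum_comm, eval_range q M hM]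
  refine Finset.sum_congr rfl fun i _ => ?_
  rw [← Finset.mul_sum, sum_cpow P hP1, one_pow]

theorem conv_wa (p q : Polynomial ℝ) (δ M : ℕ) (P : G → ℝ) (g : G) :
    conv (wa p δ M P) (wa q δ M P) g = ∑ i ∈ Finset.range (M + 1), ∑ l ∈ Finset.range (M + 1),
      p.coeff i * q.coeff l * cpow P (δ * (i + l)) g := by
  have h1 : ∀ i l, cpow P (δ * (i + l)) g = ∑ h, cpow P (δ * i) h * cpow P (δ * l) (h⁻¹ * g) := by
    intro i l
    rw [mul_add, cpow_add]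
    rfl
  simp only [h1]
  unfold conv wa
  simp only [Finset.sum_mul_sum]
  simp only [Finset.mul_sum]
  rw [Finset.sum_comm]
  refine Finset.sum_congr rfl fun i _ => ?_
  rw [Finset.sum_comm]
  refine Finset.sum_congr rfl fun l _ => Finset.sum_congr rfl fun h _ => ?_
  ring

variable {V : Type*} [NormedAddCommGroup V] [InnerProductSpace ℂ V] [FiniteDimensional ℂ V]

theorem opf_wa {ι : Type*} [Fintype ι] (ρ : G →* (V ≃ₗᵢ[ℂ] V)) (b : OrthonormalBasis ι ℂ V)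
    (μ : ι → ℝ) (p : Polynomial ℝ) (δ M : ℕ) (hM : p.natDegree ≤ M) (P : G → ℝ)
    (hP : opf ρ P = dg b μ) :
    opf ρ (wa p δ M P) = dg b (fun i => p.eval (μ i ^ δ)) := by
  have h1 : opf ρ (wa p δ M P) =
      ∑ k ∈ Finset.range (M + 1), ((p.coeff k : ℝ) : ℂ) • opf ρ (cpow P (δ * k)) :=
    opf_sum (Finset.range (M + 1)) ρ (fun k => p.coeff k) (fun k => cpow P (δ * k))
  rw [h1]
  have h2 : ∀ k, opf ρ (cpow P (δ * k)) = dg b (fun i => μ i ^ (δ * k)) := by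
    intro k
    rw [opf_cpow, hP, dg_pow]
  simp only [h2]
  rw [dg_sum]
  congr 1
  funext i
  rw [eval_range p M hM]
  refine Finset.sum_congr rfl fun k _ => ?_
  rw [pow_mul]

end gen

variable {n : ℕ}

theorem dgm_mono (Dg : ℕ) (a b : Alt n → ℝ) (h : ∀ g, a g ≤ b g) : dgm Dg a ≤ dgm Dg b := by
  unfold dgm
  refine Finset.sum_le_sum fun g _ => ?_
  split_ifs
  · exact le_rfl
  · exact h g

theorem nrm1_dd_le (Dg : ℕ) (a b : Alt n → ℝ) (h : ∀ g, |a g| ≤ b g) :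
    nrm1 (dd Dg a) ≤ dgm Dg b := by
  unfold nrm1 dgm dd
  refine Finset.sum_le_sum fun g _ => ?_
  split_ifs
  · rw [abs_zero]
  · exact h g

theorem dgm_sum {κ : Type*} (s : Finset κ) (Dg : ℕ) (α : κ → ℝ) (a : κ → Alt n → ℝ) :
    dgm Dg (fun g => ∑ k ∈ s, α k * a k g) = ∑ k ∈ s, α k * dgm Dg (a k) := by
  unfold dgm
  simp only [Finset.mul_sum]
  rw [Finset.sum_comm]
  refine Finset.sum_congr rfl fun g _ => ?_
  split_ifs
  · simp
  · rfl

theorem dgm_wa (Dg : ℕ) (q : Polynomial ℝ) (hq : ∀ i, 0 ≤ q.coeff i) (δ M : ℕ)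
    (hM : q.natDegree ≤ M) (P : Alt n → ℝ) (A y : ℝ)
    (h : ∀ i ≤ M, dgm Dg (cpow P (δ * i)) ≤ A * y ^ i) :
    dgm Dg (wa q δ M P) ≤ A * q.eval y := by
  have h1 : dgm Dg (wa q δ M P) = ∑ k ∈ Finset.range (M + 1), q.coeff k * dgm Dg (cpow P (δ * k)) :=
    dgm_sum (Finset.range (M + 1)) Dg (fun k => q.coeff k) (fun k => cpow P (δ * k))
  rw [h1, eval_range q M hM, Finset.mul_sum]
  refine Finset.sum_le_sum fun i hi => ?_
  rw [Finset.mem_range] at hi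
  have h2 := mul_le_mul_of_nonneg_left (h i (by omega)) (hq i)
  linarith

theorem dgm_conv_wa (Dg : ℕ) (q : Polynomial ℝ) (hq : ∀ i, 0 ≤ q.coeff i) (δ M : ℕ)
    (hM : q.natDegree ≤ M) (P : Alt n → ℝ) (A y : ℝ)
    (h : ∀ i ≤ 2 * M, dgm Dg (cpow P (δ * i)) ≤ A * y ^ i) :
    dgm Dg (conv (wa q δ M P) (wa q δ M P)) ≤ A * q.eval y ^ 2 := by
  have h0 : conv (wa q δ M P) (wa q δ M P) = fun g => ∑ z ∈ Finset.range (M + 1) ×ˢ
      Finset.range (M + 1), (q.coeff z.1 * q.coeff z.2) * cpow P (δ * (z.1 + z.2)) g := by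
    funext g
    rw [conv_wa, Finset.sum_product]
  rw [h0, dgm_sum (Finset.range (M + 1) ×ˢ Finset.range (M + 1)) Dg
    (fun z => q.coeff z.1 * q.coeff z.2) (fun z => cpow P (δ * (z.1 + z.2))),
    eval_range q M hM, sq, Finset.sum_mul_sum, Finset.sum_product, Finset.mul_sum]
  refine Finset.sum_le_sum fun i hi => ?_
  rw [Finset.mul_sum]
  refine Finset.sum_le_sum fun l hl => ?_
  rw [Finset.mem_range] at hi hl
  have h2 := mul_le_mul_of_nonneg_left (h (i + l) (by omega)) (mul_nonneg (hq i) (hq l))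
  refine h2.trans (le_of_eq ?_)
  rw [pow_add]
  ring

/-- all the properties of the weights -/
theorem WTS (r k Dg : ℕ) (hn : 2 ≤ n) (x : Fin k → Alt n) (η t ε c : ℝ) (hη : 0 ≤ η)
    (hη1 : 4 * k * η ≤ 1) (hε : 0 ≤ ε) (hε1 : ε ≤ 8) (hc : 0 ≤ c) (hx : Good1 n r t x)
    (hr : r + 2 ≤ n) (δ : ℕ) (hδ : c ≤ η * t * δ) (N s : ℕ) (hs : 1 ≤ s) (hsN : s ≤ N)
    (hμ : 4 * (c * N) / Real.log n + 1 ≤ r)
    (hD : (n : ℝ) ≤ (n : ℝ) ^ (ε / 8) * ((Dg : ℝ) - r)) :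
    ∃ f : Polynomial ℝ, f.natDegree ≤ N ∧
      (∀ x : ℝ, 0 ≤ x → x ≤ 1 → 0 ≤ f.eval x ∧ f.eval x ≤ 1) ∧
      (∀ x : ℝ, x ≤ 1 → 2 * (s : ℝ) ≤ N * x → 8 ≤ N * x → 1 / 2 ≤ f.eval x) ∧
      nrm1 (wa (f * f) δ (2 * N) (stp η x)) ≤ 9 ^ N ∧
      nrm1 (dd Dg (wa (f * f) δ (2 * N) (stp η x))) ≤
        2 * n * (Real.exp (-2 * s) *
          Real.exp ((Real.exp 2 + 1) * Real.exp (-((1 - ε / 8) * c)) * N)) ^ 2 ∧
      nrm1 (dd Dg (conv (nd Dg (wa (f * f) δ (2 * N) (stp η x)))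
        (nd Dg (wa (f * f) δ (2 * N) (stp η x))))) ≤
        2 * n * (Real.exp (-2 * s) *
          Real.exp ((Real.exp 2 + 1) * Real.exp (-((1 - ε / 8) * c)) * N)) ^ 4 := by
  obtain ⟨f, g, hf1, hg1, hfg, hf2, hf3, hg2, hg3⟩ := part N s hs hsN
  have hfg2 : ∀ i, |(f * f).coeff i| ≤ (g * g).coeff i := Dom.mul (show Dom f g from hfg) hfg
  have hgg0 : ∀ i, 0 ≤ (g * g).coeff i := fun i => (abs_nonneg _).trans (hfg2 i)
  have hk0 : (0 : ℝ) ≤ k := Nat.cast_nonneg _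
  have hη2 : 2 * k * η ≤ 1 := by nlinarith [mul_nonneg hk0 hη]
  have hP0 : ∀ g, 0 ≤ stp η x g := stp_nonneg η hη hη2 x
  have hdegg : (g * g).natDegree ≤ 2 * N := by
    have := Polynomial.natDegree_mul_le (p := g) (q := g)
    omega
  set y := Real.exp (-((1 - ε / 8) * c)) with hy
  have hy0 : 0 < y := Real.exp_pos _
  have hg4 := hg2 y hy0.le
  have hgy0 : 0 ≤ g.eval y := by
    rw [eval_range g N hg1]
    exact Finset.sum_nonneg fun i _ => mul_nonneg ((abs_nonneg _).trans (hfg i)) (by positivity)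
  set E := Real.exp (-2 * s) * Real.exp ((Real.exp 2 + 1) * y * N) with hE
  have hdgm : ∀ i ≤ 2 * (2 * N), dgm Dg (cpow (stp η x) (δ * i)) ≤ 2 * n * y ^ i := by
    intro i hi
    apply dgm_cpow2 r k Dg hn x η t ε c hη hη1 hε hε1 hc hx hr δ i hδ _ hD
    refine le_trans ?_ hμ
    have hn1 : (1 : ℝ) < n := by exact_mod_cast (by omega : 1 < n)
    have hL0 : 0 < Real.log n := Real.log_pos hn1
    have h1 : (i : ℝ) ≤ 4 * N := by
      have : (i : ℝ) ≤ ((2 * (2 * N) : ℕ) : ℝ) := by exact_mod_cast hi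
      push_cast at this
      linarith
    have h2 : c * i ≤ 4 * (c * N) := by
      have := mul_le_mul_of_nonneg_left h1 hc
      linarith
    have := div_le_div_of_nonneg_right h2 hL0.le
    linarith
  have hnn : (0 : ℝ) ≤ 2 * n := by positivity
  have heval : (g * g).eval y = g.eval y ^ 2 := by rw [Polynomial.eval_mul, sq]
  refine ⟨f, hf1, hf2, hf3, ?_, ?_, ?_⟩
  · refine (nrm1_wa (f * f) (g * g) hfg2 δ (2 * N) hdegg _ hP0 (sum_stp η x)).trans ?_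
    rw [Polynomial.eval_mul]
    have h3 : (0 : ℝ) ≤ g.eval 1 := by
      rw [eval_range g N hg1]
      exact Finset.sum_nonneg fun i _ => mul_nonneg ((abs_nonneg _).trans (hfg i)) (by positivity)
    calc g.eval 1 * g.eval 1 ≤ 3 ^ N * 3 ^ N := mul_le_mul hg3 hg3 h3 (by positivity)
      _ = 9 ^ N := by rw [← mul_pow]; norm_num
  · refine (nrm1_dd_le Dg _ _ (abs_wa_le (f * f) (g * g) hfg2 δ (2 * N) _ hP0)).trans ?_
    refine (dgm_wa Dg (g * g) hgg0 δ (2 * N) hdegg _ (2 * n) y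
      (fun i hi => hdgm i (by omega))).trans ?_
    rw [heval]
    exact mul_le_mul_of_nonneg_left (pow_le_pow_left₀ hgy0 hg4 2) hnn
  · refine (nrm1_dd_le Dg _ (conv (wa (g * g) δ (2 * N) (stp η x))
      (wa (g * g) δ (2 * N) (stp η x))) (fun z => ?_)).trans ?_
    · refine (abs_conv_le _ _ z).trans ?_
      refine conv_mono _ _ _ _ (fun _ => abs_nonneg _) (fun _ => abs_nonneg _) ?_ ?_ z
      · exact fun u => (abs_nd_le Dg _ u).trans (abs_wa_le (f * f) (g * g) hfg2 δ (2 * N) _ hP0 u)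
      · exact fun u => (abs_nd_le Dg _ u).trans (abs_wa_le (f * f) (g * g) hfg2 δ (2 * N) _ hP0 u)
    · refine (dgm_conv_wa Dg (g * g) hgg0 δ (2 * N) hdegg _ (2 * n) y
        (fun i hi => hdgm i (by omega))).trans ?_
      rw [heval]
      have h5 : (g.eval y ^ 2) ^ 2 = g.eval y ^ 4 := by ring
      rw [h5]
      exact mul_le_mul_of_nonneg_left (pow_le_pow_left₀ hgy0 hg4 4) hnn

end CG45
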